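import Mathlib

set_option autoImplicit false

namespace Pool.Agent.P.MP_b50a78_co

abbrev E := EuclideanSpace ℝ (Fin 3)

/-- Certificate of a simple polytope: facets `I` (halfspaces `L i x ≤ c i`), vertices `J`. -/
structure Cert {ι κ : Type} [DecidableEq ι] (I : Finset ι) (J : Finset κ) (L : ι → E →ₗ[ℝ] ℝ)
    (c : ι → ℝ) (x : κ → E) (τ : κ → Finset ι) : Prop where
  sub : ∀ k ∈ J, τ k ⊆ I
  card : ∀ k ∈ J, (τ k).card = 3
  zero : ∀ k ∈ J, ∀ i ∈ τ k, L i (x k) = c i
  pos : ∀ k ∈ J, ∀ i ∈ I, i ∉ τ k → L i (x k) < c i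
  inj : ∀ k ∈ J, ∀ k' ∈ J, τ k = τ k' → k = k'
  nb : ∀ k ∈ J, ∀ i ∈ τ k, ∃ k' ∈ J, i ∉ τ k' ∧ (τ k).erase i ⊆ τ k'
  ne : J.Nonempty

/-- number of vertices on facet `i` -/
def deg {ι κ : Type} [DecidableEq ι] (J : Finset κ) (τ : κ → Finset ι) (i : ι) : ℕ :=
  (J.filter (fun k => i ∈ τ k)).card

def IsFace (K F : Set E) : Prop :=
  ∃ l : E →L[ℝ] ℝ, l ≠ 0 ∧ F = {x : E | x ∈ K ∧ ∀ y ∈ K, l y ≤ l x} ∧
    Module.finrank ℝ (vectorSpan ℝ F) = 2

def Poly (f : ℕ → ℕ) : Prop :=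
  ∃ P : Finset E, (interior (convexHull ℝ (↑P : Set E))).Nonempty ∧
    (∀ v ∈ Set.extremePoints ℝ (convexHull ℝ (↑P : Set E)),
      {F : Set E | IsFace (convexHull ℝ (↑P : Set E)) F ∧ v ∈ F}.ncard = 3) ∧
    (∀ k : ℕ, {F : Set E | IsFace (convexHull ℝ (↑P : Set E)) F ∧
      (Set.extremePoints ℝ F).ncard = k}.ncard = f k)

theorem finrank_E : Module.finrank ℝ E = 3 := by simp

/-- three functionals with a dual family of vectors have trivial common kernel -/
theorem ker_of_dual {ι : Type} [DecidableEq ι] (t : Finset ι) (ht : t.card = 3)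
    (L : ι → E →ₗ[ℝ] ℝ) (d : ι → E) (h1 : ∀ i ∈ t, L i (d i) ≠ 0)
    (h2 : ∀ i ∈ t, ∀ j ∈ t, j ≠ i → L j (d i) = 0) (v : E) (hv : ∀ i ∈ t, L i v = 0) : v = 0 := by
  let Φ : E →ₗ[ℝ] (t → ℝ) := LinearMap.pi (fun i : t => L i)
  have hs : Function.Surjective Φ := by
    intro y
    refine ⟨∑ i : t, (y i / L i (d i)) • d i, ?_⟩
    funext j
    simp only [Φ, LinearMap.pi_apply, map_sum, map_smul, smul_eq_mul]
    rw [Finset.sum_eq_single j]
    · field_simp [h1 j j.2]
    · intro b _ hb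
      rw [h2 b b.2 j j.2 (fun h => hb (Subtype.ext h).symm), mul_zero]
    · simp
  have hi : Function.Injective Φ :=
    (LinearMap.injective_iff_surjective_of_finrank_eq_finrank (by simp [ht])).2 hs
  apply hi
  funext j
  simp [Φ, hv j j.2]

section
variable {ι κ : Type} [DecidableEq ι] {I : Finset ι} {J : Finset κ} {L : ι → E →ₗ[ℝ] ℝ}
  {c : ι → ℝ} {x : κ → E} {τ : κ → Finset ι}

theorem Cert.le (h : Cert I J L c x τ) {k : κ} (hk : k ∈ J) {i : ι} (hi : i ∈ I) :
    L i (x k) ≤ c i := by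
  by_cases hm : i ∈ τ k
  · exact (h.zero k hk i hm).le
  · exact (h.pos k hk i hi hm).le

theorem Cert.mem_of_eq (h : Cert I J L c x τ) {k : κ} (hk : k ∈ J) {i : ι} (hi : i ∈ I)
    (he : L i (x k) = c i) : i ∈ τ k := by
  by_contra hm
  exact (h.pos k hk i hi hm).ne he

/-- `k'` is the neighbour of `k` opposite to `i` -/
def Nb (J : Finset κ) (τ : κ → Finset ι) (k : κ) (i : ι) (k' : κ) : Prop :=
  k' ∈ J ∧ i ∉ τ k' ∧ (τ k).erase i ⊆ τ k'

theorem Cert.exists_nb (h : Cert I J L c x τ) {k : κ} (hk : k ∈ J) :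
    ∃ n : ι → κ, ∀ i ∈ τ k, Nb J τ k i (n i) := by
  have : ∀ i, ∃ k', i ∈ τ k → Nb J τ k i k' := by
    intro i
    by_cases hi : i ∈ τ k
    · obtain ⟨k', a, b, c⟩ := h.nb k hk i hi
      exact ⟨k', fun _ => ⟨a, b, c⟩⟩
    · exact ⟨k, fun h => absurd h hi⟩
  choose n hn using this
  exact ⟨n, hn⟩

theorem Cert.nb_lt (h : Cert I J L c x τ) {k : κ} (hk : k ∈ J) {i : ι} (hi : i ∈ τ k) {k' : κ}
    (hn : Nb J τ k i k') : L i (x k') < c i :=
  h.pos k' hn.1 i (h.sub k hk hi) hn.2.1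

theorem Cert.nb_eq (h : Cert I J L c x τ) {k : κ} {i j : ι} (hj : j ∈ τ k) (hne : j ≠ i) {k' : κ}
    (hn : Nb J τ k i k') : L j (x k') = c j :=
  h.zero k' hn.1 j (hn.2.2 (Finset.mem_erase.2 ⟨hne, hj⟩))

theorem Cert.ker (h : Cert I J L c x τ) {k : κ} (hk : k ∈ J) (v : E)
    (hv : ∀ i ∈ τ k, L i v = 0) : v = 0 := by
  obtain ⟨n, hn⟩ := h.exists_nb hk
  refine ker_of_dual (τ k) (h.card k hk) L (fun i => x (n i) - x k) ?_ ?_ v hv
  · intro i hi
    rw [map_sub, h.zero k hk i hi]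
    have := h.nb_lt hk hi (hn i hi)
    linarith
  · intro i hi j hj hne
    rw [map_sub, h.zero k hk j hj, h.nb_eq hj hne (hn i hi), sub_self]

theorem Cert.ext (h : Cert I J L c x τ) {k : κ} (hk : k ∈ J) (u v : E)
    (hv : ∀ i ∈ τ k, L i u = L i v) : u = v := by
  rw [← sub_eq_zero]
  apply h.ker hk
  intro i hi
  rw [map_sub, hv i hi, sub_self]

/-- the cone formula at a vertex -/
theorem Cert.cone (h : Cert I J L c x τ) {k : κ} (hk : k ∈ J) (n : ι → κ)
    (hn : ∀ i ∈ τ k, Nb J τ k i (n i)) (z : E) :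
    z - x k = ∑ i ∈ τ k, ((c i - L i z) / (c i - L i (x (n i)))) • (x (n i) - x k) := by
  apply h.ext hk
  intro j hj
  rw [map_sum, Finset.sum_eq_single j]
  · have := h.nb_lt hk hj (hn j hj)
    simp only [map_smul, map_sub, smul_eq_mul, h.zero k hk j hj]
    have h2 : c j - L j (x (n j)) ≠ 0 := by linarith
    field_simp
    ring
  · intro b hb hne
    rw [map_smul, map_sub, h.zero k hk j hj, h.nb_eq hj (Ne.symm hne) (hn b hb)]
    simp
  · intro h'
    exact absurd hj h'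

theorem Cert.cone_map (h : Cert I J L c x τ) {k : κ} (hk : k ∈ J) (n : ι → κ)
    (hn : ∀ i ∈ τ k, Nb J τ k i (n i)) (A : E →ₗ[ℝ] ℝ) (z : E) :
    A z - A (x k) =
      ∑ i ∈ τ k, ((c i - L i z) / (c i - L i (x (n i)))) * (A (x (n i)) - A (x k)) := by
  rw [← map_sub, h.cone hk n hn z, map_sum]
  simp only [map_smul, map_sub, smul_eq_mul]

theorem Cert.x_inj (h : Cert I J L c x τ) {k k' : κ} (hk : k ∈ J) (hk' : k' ∈ J)
    (he : x k = x k') : k = k' := by
  apply h.inj k hk k' hk'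
  apply Finset.eq_of_subset_of_card_le
  · intro i hi
    exact h.mem_of_eq hk' (h.sub k hk hi) (he ▸ h.zero k hk i hi)
  · rw [h.card k hk, h.card k' hk']

/-- the neighbour is unique -/
theorem Cert.nb_unique (h : Cert I J L c x τ) {k : κ} (hk : k ∈ J) {i : ι} (hi : i ∈ τ k)
    {k1 k2 : κ} (h1 : Nb J τ k i k1) (h2 : Nb J τ k i k2) : k1 = k2 := by
  have key : ∀ a b : κ, Nb J τ k i a → Nb J τ k i b →
      c i - L i (x b) ≤ c i - L i (x a) ∧
        (c i - L i (x b) = c i - L i (x a) → a = b) := by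
    intro a b ha hb
    have hla := h.nb_lt hk hi ha
    have hlb := h.nb_lt hk hi hb
    set r := (c i - L i (x b)) / (c i - L i (x a)) with hr
    have hb' : x b = x k + r • (x a - x k) := by
      apply h.ext hk
      intro j hj
      simp only [map_add, map_smul, map_sub, smul_eq_mul, h.zero k hk j hj]
      by_cases hji : j = i
      · subst hji
        rw [hr]
        have : c j - L j (x a) ≠ 0 := by linarith
        field_simp
        ring
      · rw [h.nb_eq hj hji ha, h.nb_eq hj hji hb]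
        ring
    have hns : ¬ τ a ⊆ τ k := by
      intro hs
      have := Finset.eq_of_subset_of_card_le hs (by rw [h.card k hk, h.card a ha.1])
      exact ha.2.1 (this ▸ hi)
    obtain ⟨g, hga, hgk⟩ := Finset.not_subset.1 hns
    have hgI := h.sub a ha.1 hga
    have e1 := h.zero a ha.1 g hga
    have e2 := h.pos k hk g hgI hgk
    have e3 := h.le hb.1 hgI
    rw [hb'] at e3
    simp only [map_add, map_smul, map_sub, smul_eq_mul, e1] at e3
    have hr1 : r ≤ 1 := by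
      by_contra hc
      push Not at hc
      nlinarith
    constructor
    · rw [hr, div_le_one (by linarith)] at hr1
      exact hr1
    · intro he
      have : r = 1 := by
        rw [hr, he]
        exact div_self (by linarith)
      apply h.x_inj ha.1 hb.1
      rw [hb', this]
      simp
  exact (key k1 k2 h1 h2).2 (le_antisymm (key k1 k2 h1 h2).1 (key k2 k1 h2 h1).1)

end

end Pool.Agent.P.MP_b50a78_co
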