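import Pool.Agent.P.MP_b50a78_co.Data

set_option autoImplicit false

namespace Pool.Agent.P.MP_b50a78_co

def KA : Kd := (true, false, false)
def KF : Kd := (true, true, true)
def KQ : Kd := (false, true, false)
def KP : Kd := (false, false, true)
def KAQ : Kd := (true, true, false)
def KN : Kd := (false, false, false)

def six (a b : ℕ) : Bool := (a == 0 && Nat.ble b 3) || (a == 1 && Nat.ble b 1)

def cIa : Cl := fun _ b c m _ _ =>
  Nat.ble (b + c) 3 && !(m == 0 && ((b == 3 && c == 0) || (b == 0 && c == 3)))
def cIb : Cl := fun _ b c _ _ n => Nat.ble (b + c) 3 && Nat.ble 3 (b + c + n)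
def cII : Cl := fun a b c m o _ => Nat.ble 4 (b + c) && Nat.ble 4 (a + c + o) &&
  !(m == 0 && six a b) && !(m == 1 && a == 0 && Nat.ble b 1) && !(m == 1 && c == 0)
def cIII : Cl := fun a b c _ o _ => Nat.ble 4 (b + c) && Nat.ble (a + c + o) 3
def cIV : Cl := fun a b _ m _ _ => (m == 0 && six a b) || (m == 1 && a == 0 && Nat.ble b 1)
def cV : Cl := fun a b c m o _ => m == 1 && c == 0 && Nat.ble 4 b && Nat.ble 4 (a + o)

theorem kIa : tIa.all (fun e => baseOK KA hB true 0 e.1 e.2) = true := by decide +kernel
theorem kIb : tIb.all (fun e => baseOK KA hB true 1 e.1 e.2) = true := by decide +kernel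
theorem kII : tII.all (fun e => baseOK KF hC false 0 e.1 e.2) = true := by decide +kernel
theorem kIII : tIII.all (fun e => baseOK KQ hW4 false 0 e.1 e.2) = true := by decide +kernel
theorem kIV : tIV.all (fun e => baseOK KP hW5 false 0 e.1 e.2) = true := by decide +kernel
theorem kV : tV.all (fun e => baseOK KAQ hW4 false 0 e.1 e.2) = true := by decide +kernel
theorem lIa : uIa.all (fun e => grpOK KA hB true e.1 e.2) = true := by decide +kernel
theorem lII : uII.all (fun e => grpOK KF hC false e.1 e.2) = true := by decide +kernel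
theorem lIII : uIII.all (fun e => grpOK KQ hW4 false e.1 e.2) = true := by decide +kernel
theorem kX0 : baseRun KN st0 bX0 = some ((2, 3, 0, 15), []) := by decide +kernel
theorem kX1 : baseRun KN hX1 bX1 = some ((2, 3, 0, 17), []) := by decide +kernel
theorem kX2 : baseRun KN hX2 bX2 = some ((3, 0, 3, 8), []) := by decide +kernel
theorem qB : pumpOK hB 2 pB = true := by decide +kernel
theorem qC : pumpOK hC 1 pC = true := by decide +kernel
theorem qW4 : pumpOK hW4 1 pW4 = true := by decide +kernel
theorem qW5 : pumpOK hW5 1 pW5 = true := by decide +kernel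
theorem qX1 : pumpOK hX1 2 pX1 = true := by decide +kernel
theorem qX2 : pumpOK hX2 2 pX2 = true := by decide +kernel

theorem xIa : boxChk cIa KA (uIa.map Prod.fst) (tIa.map Prod.fst) (sl 6 3 1) = true := by
  decide +kernel
theorem xIb : boxChk cIb KA (uIa.map Prod.fst) (tIb.map Prod.fst) (sl 6 5 1) = true := by
  decide +kernel
theorem xII : boxChk cII KF (uII.map Prod.fst) (tII.map Prod.fst) (sl 6 4 1) = true := by
  decide +kernel
theorem xIII : boxChk cIII KQ (uIII.map Prod.fst) (tIII.map Prod.fst) (sl 2 2 1) = true := by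
  decide +kernel
theorem xIV : boxChk cIV KP [] (tIV.map Prod.fst) (sl 1 1 1) = true := by decide +kernel
theorem xV : boxChk cV KAQ [] (tV.map Prod.fst) (sl 8 1 1) = true := by decide +kernel

end Pool.Agent.P.MP_b50a78_co
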