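import Pool.Agent.P.MP_b50a78_co.Chk

set_option autoImplicit false

namespace Pool.Agent.P.MP_b50a78_co

theorem od_cons (t : ℕ) (R : Multiset ℕ) : od (t ::ₘ R) = od R + t % 2 := by
  unfold od
  rw [Multiset.countP_cons]
  split_ifs <;> omega

theorem nm_cons (t : ℕ) (R : Multiset ℕ) : nm (t ::ₘ R) = nm R + (t % 3 + 1) / 2 := by
  unfold nm
  rw [Multiset.countP_cons]
  split_ifs <;> omega

theorem facts (R : Multiset ℕ) (h : ∀ t ∈ R, 1 ≤ t) :
    2 * R.card ≤ R.sum + od R ∧ od R ≤ R.card ∧ od R % 2 = R.sum % 2 := by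
  induction R using Multiset.induction_on with
  | empty => simp [od]
  | cons t R ih =>
    have := ih (fun s hs => h s (Multiset.mem_cons_of_mem hs))
    have := h t (Multiset.mem_cons_self _ _)
    rw [od_cons, Multiset.card_cons, Multiset.sum_cons]
    omega

theorem Bal.cons {a b c t : ℕ} {R : Multiset ℕ} (h : Bal a b c (t ::ₘ R)) :
    3 * a + 2 * b + c = 12 + t + R.sum ∧ 1 ≤ t ∧
    2 * R.card ≤ R.sum + od R ∧ od R ≤ R.card ∧ od R % 2 = R.sum % 2 := by
  have := h.1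
  rw [Multiset.sum_cons] at this
  exact ⟨by omega, h.2 t (Multiset.mem_cons_self _ _),
    facts R (fun s hs => h.2 s (Multiset.mem_cons_of_mem hs))⟩

section
variable {K : Kd} {G : List Key} {a b c t : ℕ} {R : Multiset ℕ}

theorem Red.aa (hK : K.1 = true) (ht : 7 ≤ t) (ha : 2 ≤ a) :
    Red K G (a - 2) b c ((t - 6) ::ₘ R) a b c (t ::ₘ R) :=
  Or.inr ⟨t - 6, R, 1, 0, 0, by simp [allowed, hK], by omega, by omega, rfl,
    by congr 1; omega, by omega, rfl, rfl⟩

theorem Red.iq (hK : K.2.1 = true) (ht : 3 ≤ t) (hb : 1 ≤ b) :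
    Red K G a (b - 1) c ((t - 2) ::ₘ R) a b c (t ::ₘ R) :=
  Or.inr ⟨t - 2, R, 0, 1, 0, by simp [allowed, hK], by omega, by omega, rfl,
    by congr 1; omega, rfl, by omega, rfl⟩

theorem Red.ip (hK : K.2.2 = true) (ht : 2 ≤ t) (hc : 1 ≤ c) :
    Red K G a b (c - 1) ((t - 1) ::ₘ R) a b c (t ::ₘ R) :=
  Or.inr ⟨t - 1, R, 0, 0, 1, by simp [allowed, hK], by omega, by omega, rfl,
    by congr 1; omega, rfl, rfl, by omega⟩

theorem Red.g2 (hG : (0, 1, 0, [2]) ∈ G) (hb : 1 ≤ b) : Red K G a (b - 1) c R a b c (2 ::ₘ R) :=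
  Or.inl ⟨_, hG, rfl, by simp only; omega, rfl, by
    simp only [Multiset.coe_singleton]; rw [add_comm, Multiset.singleton_add]⟩

theorem Red.g1 (hG : (0, 0, 1, [1]) ∈ G) (hc : 1 ≤ c) : Red K G a b (c - 1) R a b c (1 ::ₘ R) :=
  Or.inl ⟨_, hG, rfl, rfl, by simp only; omega, by
    simp only [Multiset.coe_singleton]; rw [add_comm, Multiset.singleton_add]⟩

theorem Red.g11 (hG : (0, 1, 0, [1, 1]) ∈ G) (hb : 1 ≤ b) :
    Red K G a (b - 1) c R a b c (1 ::ₘ 1 ::ₘ R) :=
  Or.inl ⟨_, hG, rfl, by simp only; omega, rfl, by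
    simp only
    rw [add_comm, ← Multiset.cons_coe, Multiset.coe_singleton, Multiset.cons_add,
      Multiset.singleton_add]⟩
end

def G14 : List Key := [(1, 0, 0, [3]), (2, 0, 0, [6]), (1, 0, 0, [1, 2]), (2, 0, 0, [1, 5]),
  (2, 0, 0, [2, 4]), (3, 0, 0, [4, 5]), (1, 0, 0, [1, 1, 1]), (2, 0, 0, [1, 1, 4]),
  (3, 0, 0, [1, 4, 4]), (4, 0, 0, [4, 4, 4]), (2, 0, 0, [2, 2, 2]), (3, 0, 0, [2, 2, 5]),
  (4, 0, 0, [2, 5, 5]), (5, 0, 0, [5, 5, 5])]

theorem g14_key : ∀ g ∈ G14, g.2.1 = 0 ∧ g.2.2.1 = 0 ∧ 3 * g.1 = g.2.2.2.sum ∧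
    g.2.2.2.length ≤ 3 := by decide

theorem g14_three : ∀ x ∈ [1, 2, 4, 5], ∀ y ∈ [1, 2, 4, 5], ∀ z ∈ [1, 2, 4, 5],
    ∃ g ∈ G14, (rem [x, y, z] g.2.2.2).isSome = true := by decide

theorem pig (ts : Multiset ℕ) (h1 : ∀ t ∈ ts, 1 ≤ t) (h2 : ∀ t ∈ ts, t ≤ 6) (h3 : 3 ≤ ts.card) :
    ∃ g ∈ G14, ∃ R, ts = R + ↑g.2.2.2 ∧ (nm R = nm ts ∨ nm R = R.card) := by
  by_cases h : ∃ t ∈ ts, t % 3 = 0
  · obtain ⟨t, ht, h⟩ := h
    have := h1 t ht
    have := h2 t ht
    obtain ⟨R, rfl⟩ := Multiset.exists_cons_of_mem ht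
    obtain rfl | rfl : t = 3 ∨ t = 6 := by omega
    · exact ⟨(1, 0, 0, [3]), by decide, R, by
        simp only [Multiset.coe_singleton]; rw [add_comm, Multiset.singleton_add],
        Or.inl (by rw [nm_cons]; rfl)⟩
    · exact ⟨(2, 0, 0, [6]), by decide, R, by
        simp only [Multiset.coe_singleton]; rw [add_comm, Multiset.singleton_add],
        Or.inl (by rw [nm_cons]; rfl)⟩
  · push Not at h
    have hm : ∀ t ∈ ts, t ∈ [1, 2, 4, 5] := by
      intro t ht
      have := h1 t ht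
      have := h2 t ht
      have := h t ht
      simp only [List.mem_cons, List.not_mem_nil, or_false]
      omega
    obtain ⟨x, hx⟩ := Multiset.card_pos_iff_exists_mem.1 (show 0 < ts.card by omega)
    obtain ⟨R1, rfl⟩ := Multiset.exists_cons_of_mem hx
    rw [Multiset.card_cons] at h3
    obtain ⟨y, hy⟩ := Multiset.card_pos_iff_exists_mem.1 (show 0 < R1.card by omega)
    obtain ⟨R2, rfl⟩ := Multiset.exists_cons_of_mem hy
    rw [Multiset.card_cons] at h3
    obtain ⟨z, hz⟩ := Multiset.card_pos_iff_exists_mem.1 (show 0 < R2.card by omega)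
    obtain ⟨R3, rfl⟩ := Multiset.exists_cons_of_mem hz
    obtain ⟨g, hg, hr⟩ := g14_three x (hm x (by simp)) y (hm y (by simp)) z (hm z (by simp))
    obtain ⟨r, hr⟩ := Option.isSome_iff_exists.1 hr
    have e : x ::ₘ y ::ₘ z ::ₘ R3 = (R3 + ↑r) + ↑g.2.2.2 := by
      rw [add_assoc, ← rem_sound hr, add_comm, ← Multiset.cons_coe, ← Multiset.cons_coe,
        Multiset.coe_singleton, Multiset.cons_add, Multiset.cons_add, Multiset.singleton_add]
    refine ⟨g, hg, _, e, Or.inr (Multiset.countP_eq_card.2 (fun t ht => h t ?_))⟩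
    rw [e]
    exact Multiset.mem_add.2 (Or.inl ht)

theorem pig' {K : Kd} {G : List Key} (hG : ∀ g ∈ G14, g ∈ G) {a b c : ℕ} {ts : Multiset ℕ}
    (hb : Bal a b c ts) (h4 : b + c ≤ 4) (h2 : ∀ t ∈ ts, t ≤ 6) (h3 : 3 ≤ ts.card) :
    ∃ a' R, Red K G a' b c R a b c ts ∧ Bal a' b c R ∧ ts.card ≤ R.card + 3 ∧
      (nm R = nm ts ∨ nm R = R.card) := by
  obtain ⟨g, hg, R, rfl, h⟩ := pig ts hb.2 h2 h3
  obtain ⟨g1, g2, g3, g4⟩ := g14_key g hg
  have e := hb.1
  rw [Multiset.sum_add, Multiset.sum_coe] at e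
  refine ⟨a - g.1, R, Or.inl ⟨g, hG g hg, by omega, by omega, by omega, rfl⟩,
    ⟨by omega, fun t ht => hb.2 t (Multiset.mem_add.2 (Or.inl ht))⟩, ?_, h⟩
  rw [Multiset.card_add, Multiset.coe_card]
  omega

theorem cIa_iff {a b c : ℕ} {ts : Multiset ℕ} : clsM cIa a b c ts ↔
    b + c ≤ 3 ∧ ¬(ts.card = 0 ∧ ((b = 3 ∧ c = 0) ∨ (b = 0 ∧ c = 3))) := by
  simp only [clsM, cIa, Bool.and_eq_true, Nat.ble_eq, Bool.not_eq_true', ← Bool.not_eq_true,
    beq_iff_eq, Bool.or_eq_true, Bool.not_eq_eq_eq_not, Bool.not_true]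

theorem cIb_iff {a b c : ℕ} {ts : Multiset ℕ} : clsM cIb a b c ts ↔
    b + c ≤ 3 ∧ 3 ≤ b + c + nm ts := by
  simp only [clsM, cIb, Bool.and_eq_true, Nat.ble_eq]

theorem cII_iff {a b c : ℕ} {ts : Multiset ℕ} : clsM cII a b c ts ↔
    (((4 ≤ b + c ∧ 4 ≤ a + c + od ts) ∧ ¬(ts.card = 0 ∧ ((a = 0 ∧ b ≤ 3) ∨ (a = 1 ∧ b ≤ 1)))) ∧
    ¬((ts.card = 1 ∧ a = 0) ∧ b ≤ 1)) ∧ ¬(ts.card = 1 ∧ c = 0) := by
  simp only [clsM, cII, six, Bool.and_eq_true, Nat.ble_eq, Bool.not_eq_true', ← Bool.not_eq_true,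
    beq_iff_eq, Bool.or_eq_true, Bool.not_eq_eq_eq_not, Bool.not_true]

theorem cIII_iff {a b c : ℕ} {ts : Multiset ℕ} : clsM cIII a b c ts ↔
    4 ≤ b + c ∧ a + c + od ts ≤ 3 := by
  simp only [clsM, cIII, Bool.and_eq_true, Nat.ble_eq]

theorem cIV_iff {a b c : ℕ} {ts : Multiset ℕ} : clsM cIV a b c ts ↔
    (ts.card = 0 ∧ ((a = 0 ∧ b ≤ 3) ∨ (a = 1 ∧ b ≤ 1))) ∨ ((ts.card = 1 ∧ a = 0) ∧ b ≤ 1) := by
  simp only [clsM, cIV, six, Bool.and_eq_true, Nat.ble_eq, beq_iff_eq, Bool.or_eq_true]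

theorem cV_iff {a b c : ℕ} {ts : Multiset ℕ} : clsM cV a b c ts ↔
    ((ts.card = 1 ∧ c = 0) ∧ 4 ≤ b) ∧ 4 ≤ a + od ts := by
  simp only [clsM, cV, Bool.and_eq_true, Nat.ble_eq, beq_iff_eq]

theorem mIa : ∀ g ∈ G14, g ∈ uIa.map Prod.fst := by decide +kernel
theorem mII : ∀ g ∈ G14, g ∈ uII.map Prod.fst := by decide +kernel
theorem mII1 : (0, 0, 1, [1]) ∈ uII.map Prod.fst := by decide +kernel
theorem mII2 : (0, 1, 0, [2]) ∈ uII.map Prod.fst := by decide +kernel
theorem mII11 : (0, 1, 0, [1, 1]) ∈ uII.map Prod.fst := by decide +kernel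
theorem mIII2 : (0, 1, 0, [2]) ∈ uIII.map Prod.fst := by decide +kernel

theorem goodIa : ∀ a b c ts, Bal a b c ts → clsM cIa a b c ts → Good KA hB true 0 a b c ts := by
  refine good_box (all_grp lIa) (all_base kIa) xIa ?_ ?_
  · intro a b c t R hb hc ht
    have := hb.cons
    rw [cIa_iff] at hc
    refine ⟨_, _, _, _, Red.aa rfl ht (by omega), cIa_iff.2 ?_⟩
    simp only [Multiset.card_cons] at hc ⊢
    omega
  · intro a b c ts hb hc h1 h2
    rw [cIa_iff] at hc
    obtain ⟨a', R, r, -, e, -⟩ := pig' (K := KA) mIa hb (by omega) h1 (by omega)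
    exact ⟨_, _, _, _, r, cIa_iff.2 (by omega)⟩

theorem goodIb : ∀ a b c ts, Bal a b c ts → clsM cIb a b c ts → Good KA hB true 1 a b c ts := by
  refine good_box (all_grp lIa) (all_base kIb) xIb ?_ ?_
  · intro a b c t R hb hc ht
    have := hb.cons
    rw [cIb_iff] at hc
    refine ⟨_, _, _, _, Red.aa rfl ht (by omega), cIb_iff.2 ?_⟩
    simp only [nm_cons] at hc ⊢
    omega
  · intro a b c ts hb hc h1 h2
    rw [cIb_iff] at hc
    obtain ⟨a', R, r, -, e, e'⟩ := pig' (K := KA) mIa hb (by omega) h1 (by omega)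
    exact ⟨_, _, _, _, r, cIb_iff.2 (by omega)⟩

theorem goodII : ∀ a b c ts, Bal a b c ts → clsM cII a b c ts → Good KF hC false 0 a b c ts := by
  refine good_box (all_grp lII) (all_base kII) xII ?_ ?_
  · intro a b c t R hb hc ht
    have := hb.cons
    rw [cII_iff] at hc
    simp only [Multiset.card_cons, od_cons] at hc
    by_cases h4 : b + c = 4
    · refine ⟨_, _, _, _, Red.aa rfl ht (by omega), cII_iff.2 ?_⟩
      simp only [Multiset.card_cons, od_cons]
      omega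
    by_cases h5 : 1 ≤ b ∧ ¬(R.card = 0 ∧ a = 0 ∧ b ≤ 2)
    · refine ⟨_, _, _, _, Red.iq rfl (by omega) h5.1, cII_iff.2 ?_⟩
      simp only [Multiset.card_cons, od_cons]
      omega
    · refine ⟨_, _, _, _, Red.ip rfl (by omega) (by omega), cII_iff.2 ?_⟩
      simp only [Multiset.card_cons, od_cons]
      omega
  · intro a b c ts hb hc h1 h2
    rw [cII_iff] at hc
    by_cases h4 : b + c = 4
    · obtain ⟨a', R, r, hb', e, -⟩ := pig' (K := KF) mII hb (by omega) h1 (by omega)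
      have := facts R hb'.2
      have := hb'.1
      exact ⟨_, _, _, _, r, cII_iff.2 (by omega)⟩
    by_cases h0 : b = 0
    · obtain ⟨t, ht⟩ := Multiset.card_pos_iff_exists_mem.1 (show 0 < ts.card by omega)
      obtain ⟨R, rfl⟩ := Multiset.exists_cons_of_mem ht
      have := hb.cons
      simp only [Multiset.card_cons, od_cons] at hc h2
      by_cases e : t = 1
      · subst e
        exact ⟨_, _, _, _, Red.g1 mII1 (by omega), cII_iff.2 (by omega)⟩
      · refine ⟨_, _, _, _, Red.ip rfl (by omega) (by omega), cII_iff.2 ?_⟩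
        simp only [Multiset.card_cons, od_cons]
        omega
    by_cases h : ∃ t ∈ ts, 2 ≤ t
    · obtain ⟨t, ht, h⟩ := h
      obtain ⟨R, rfl⟩ := Multiset.exists_cons_of_mem ht
      have := hb.cons
      simp only [Multiset.card_cons, od_cons] at hc h2
      by_cases e : t = 2
      · subst e
        exact ⟨_, _, _, _, Red.g2 mII2 (by omega), cII_iff.2 (by omega)⟩
      · refine ⟨_, _, _, _, Red.iq rfl (by omega) (by omega), cII_iff.2 ?_⟩
        simp only [Multiset.card_cons, od_cons]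
        omega
    · push Not at h
      have e : od ts = ts.card := Multiset.countP_eq_card.2 (fun t ht => by
        have := h t ht
        have := hb.2 t ht
        omega)
      obtain ⟨x, hx⟩ := Multiset.card_pos_iff_exists_mem.1 (show 0 < ts.card by omega)
      obtain rfl : x = 1 := by
        have := h x hx
        have := hb.2 x hx
        omega
      obtain ⟨R1, rfl⟩ := Multiset.exists_cons_of_mem hx
      rw [Multiset.card_cons] at h2
      obtain ⟨y, hy⟩ := Multiset.card_pos_iff_exists_mem.1 (show 0 < R1.card by omega)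
      obtain rfl : y = 1 := by
        have := h y (Multiset.mem_cons_of_mem hy)
        have := hb.2 y (Multiset.mem_cons_of_mem hy)
        omega
      obtain ⟨R2, rfl⟩ := Multiset.exists_cons_of_mem hy
      have := hb.cons
      simp only [Multiset.card_cons, od_cons, Multiset.sum_cons] at hc h2 e this
      exact ⟨_, _, _, _, Red.g11 mII11 (by omega), cII_iff.2 (by omega)⟩

theorem goodIII : ∀ a b c ts, Bal a b c ts → clsM cIII a b c ts → Good KQ hW4 false 0 a b c ts := by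
  refine good_box (all_grp lIII) (all_base kIII) xIII ?_ ?_
  · intro a b c t R hb hc ht
    have := hb.cons
    rw [cIII_iff] at hc
    simp only [od_cons] at hc
    refine ⟨_, _, _, _, Red.iq rfl ht (by omega), cIII_iff.2 ?_⟩
    simp only [od_cons]
    omega
  · intro a b c ts hb hc h1 h2
    rw [cIII_iff] at hc
    have h : 2 ∈ ts := by
      by_contra h
      have e : od ts = ts.card := Multiset.countP_eq_card.2 (fun t ht => by
        have := h1 t ht
        have := hb.2 t ht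
        have : t ≠ 2 := fun e => h (e ▸ ht)
        omega)
      have := facts ts hb.2
      have := hb.1
      omega
    obtain ⟨R, rfl⟩ := Multiset.exists_cons_of_mem h
    have := hb.cons
    simp only [Multiset.card_cons, od_cons] at hc h2
    exact ⟨_, _, _, _, Red.g2 mIII2 (by omega), cIII_iff.2 (by omega)⟩

theorem goodIV : ∀ a b c ts, Bal a b c ts → clsM cIV a b c ts → Good KP hW5 false 0 a b c ts := by
  refine good_box (by simp) (all_base kIV) xIV ?_ ?_
  · intro a b c t R hb hc ht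
    have := hb.cons
    rw [cIV_iff] at hc
    simp only [Multiset.card_cons] at hc
    refine ⟨_, _, _, _, Red.ip rfl ht (by omega), cIV_iff.2 ?_⟩
    simp only [Multiset.card_cons]
    omega
  · intro a b c ts hb hc h1 h2
    rw [cIV_iff] at hc
    omega

theorem goodV : ∀ a b c ts, Bal a b c ts → clsM cV a b c ts → Good KAQ hW4 false 0 a b c ts := by
  refine good_box (by simp) (all_base kV) xV ?_ ?_
  · intro a b c t R hb hc ht
    have := hb.cons
    rw [cV_iff] at hc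
    simp only [Multiset.card_cons, od_cons] at hc
    by_cases h5 : 5 ≤ b
    · refine ⟨_, _, _, _, Red.iq rfl (by omega) (by omega), cV_iff.2 ?_⟩
      simp only [Multiset.card_cons, od_cons]
      omega
    · refine ⟨_, _, _, _, Red.aa rfl (by omega) (by omega), cV_iff.2 ?_⟩
      simp only [Multiset.card_cons, od_cons]
      omega
  · intro a b c ts hb hc h1 h2
    rw [cV_iff] at hc
    omega

theorem Good.all {K : Kd} {hw : VW} {a b c n : ℕ} {ts : Multiset ℕ} {s : List ℕ}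
    (h : Good K hw false 0 a b c ts) (hp : pumpOK hw 1 s = true)
    (hn : 3 * (a + b + c + ts.card) ≤ n) : PolyM (sm a b c n + ts.map (6 + ·)) := by
  obtain ⟨m, h1, -, h3⟩ := h
  exact h3.all (pumpOK_sound K hp) (by omega)

theorem Full.two {K : Kd} {hw : VW} {a b c m n : ℕ} {ts : Multiset ℕ} {s : List ℕ}
    (h : Full K hw ts a b c m) (hp : pumpOK hw 2 s = true) (k1 : K.2.1 = false)
    (k2 : K.2.2 = false) (h1 : m ≤ n) (h2 : m % 2 = n % 2) :
    PolyM (sm a b c n + ts.map (6 + ·)) := by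
  have := (h.pump (pumpOK_sound K hp) ((n - m) / 2)).exact k1 k2
  rwa [show m + 2 * ((n - m) / 2) = n by omega] at this

theorem comb {a b c n : ℕ} {ts : Multiset ℕ} (hb : Bal a b c ts)
    (hn : 3 * (a + b + c + ts.card) ≤ n)
    (hp : b + c + nm ts ≤ 2 → n % 2 = (a + b + c + ts.card) % 2) :
    PolyM (sm a b c n + ts.map (6 + ·)) := by
  by_cases h3 : b + c ≤ 3
  · by_cases h : n % 2 = (a + b + c + ts.card) % 2
    · by_cases hx : ts.card = 0 ∧ ((b = 3 ∧ c = 0) ∨ (b = 0 ∧ c = 3))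
      · obtain ⟨h0, hx⟩ := hx
        obtain rfl := Multiset.card_eq_zero.1 h0
        have e := hb.1
        simp only [Multiset.sum_zero, Multiset.card_zero] at e hn h
        rcases hx with ⟨rfl, rfl⟩ | ⟨rfl, rfl⟩
        · obtain rfl : a = 2 := by omega
          by_cases h15 : n = 15
          · subst h15
            exact (baseRun_sound kX0).exact rfl rfl
          · exact (baseRun_sound kX1).two qX1 rfl rfl (by omega) (by omega)
        · obtain rfl : a = 3 := by omega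
          exact (baseRun_sound kX2).two qX2 rfl rfl (by omega) (by omega)
      · obtain ⟨m, h1, h2, hf⟩ := goodIa a b c ts hb (cIa_iff.2 ⟨h3, hx⟩)
        have := h2 rfl
        exact hf.two qB rfl rfl (by omega) (by omega)
    · obtain ⟨m, h1, h2, hf⟩ := goodIb a b c ts hb (cIb_iff.2 ⟨h3, by
        by_contra h'
        exact h (hp (by omega))⟩)
      have := h2 rfl
      exact hf.two qB rfl rfl (by omega) (by omega)
  by_cases h4 : a + c + od ts ≤ 3
  · exact (goodIII a b c ts hb (cIII_iff.2 ⟨by omega, h4⟩)).all qW4 hn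
  by_cases h5 : (ts.card = 0 ∧ ((a = 0 ∧ b ≤ 3) ∨ (a = 1 ∧ b ≤ 1))) ∨
      ((ts.card = 1 ∧ a = 0) ∧ b ≤ 1)
  · exact (goodIV a b c ts hb (cIV_iff.2 h5)).all qW5 hn
  by_cases h6 : ts.card = 1 ∧ c = 0
  · exact (goodV a b c ts hb (cV_iff.2 (by omega))).all qW4 hn
  · exact (goodII a b c ts hb (cII_iff.2 (by omega))).all qC hn

end Pool.Agent.P.MP_b50a78_co
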