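import Pool.Agent.P.MP_b50a78_co.Cert

set_option autoImplicit false

namespace Pool.Agent.P.MP_b50a78_co

section
variable {ι κ : Type} [DecidableEq ι] [DecidableEq κ] {I : Finset ι} {J : Finset κ}
  {L : ι → E →ₗ[ℝ] ℝ} {c : ι → ℝ} {x : κ → E} {τ : κ → Finset ι}

omit [DecidableEq κ] in
theorem Cert.eq_triple (h : Cert I J L c x τ) {k : κ} (hk : k ∈ J) {a b d : ι} (hab : a ≠ b)
    (had : a ≠ d) (hbd : b ≠ d) (ha : a ∈ τ k) (hb : b ∈ τ k) (hd : d ∈ τ k) :
    τ k = {a, b, d} := by
  symm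
  apply Finset.eq_of_subset_of_card_le
  · intro i hi
    simp only [Finset.mem_insert, Finset.mem_singleton] at hi
    rcases hi with rfl | rfl | rfl <;> assumption
  · rw [h.card k hk, Finset.card_eq_three.2 ⟨a, b, d, hab, had, hbd, rfl⟩]

omit [DecidableEq κ] in
theorem Cert.third (h : Cert I J L c x τ) {k : κ} (hk : k ∈ J) {a b : ι} (hab : a ≠ b)
    (ha : a ∈ τ k) (hb : b ∈ τ k) : ∃ d, d ≠ a ∧ d ≠ b ∧ τ k = {a, b, d} := by
  obtain ⟨d, hd⟩ : (((τ k).erase a).erase b).Nonempty := by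
    rw [← Finset.card_pos, Finset.card_erase_of_mem (Finset.mem_erase.2 ⟨hab.symm, hb⟩),
      Finset.card_erase_of_mem ha, h.card k hk]
    norm_num
  simp only [Finset.mem_erase] at hd
  exact ⟨d, hd.2.1, hd.1, h.eq_triple hk hab hd.2.1.symm hd.1.symm ha hb hd.2.2⟩

omit [DecidableEq κ] in
theorem Cert.mid_lt (h : Cert I J L c x τ) {k k' : κ} (hk : k ∈ J) (hk' : k' ∈ J) (hne : k ≠ k')
    {a b d : ι} (hab : a ≠ b) (had : d ≠ a) (hbd : d ≠ b) (ha : a ∈ τ k) (hb : b ∈ τ k)
    (ha' : a ∈ τ k') (hb' : b ∈ τ k') (hd : d ∈ I) : L d (x k) + L d (x k') < 2 * c d := by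
  have e1 := h.le hk hd
  have e2 := h.le hk' hd
  by_cases h1 : d ∈ τ k
  · by_cases h2 : d ∈ τ k'
    · exact absurd (h.inj k hk k' hk' ((h.eq_triple hk hab had.symm hbd.symm ha hb h1).trans
        (h.eq_triple hk' hab had.symm hbd.symm ha' hb' h2).symm)) hne
    · have := h.pos k' hk' d hd h2
      linarith
  · have := h.pos k hk d hd h1
    linarith

omit [DecidableEq κ] in
theorem Cert.cutline (h : Cert I J L c x τ) {T A B : ι} (hTA : T ≠ A) (hTB : T ≠ B) (hAB : A ≠ B)
    {k1 k2 k3 k4 : κ} (h1 : k1 ∈ J) (h2 : k2 ∈ J) (h3 : k3 ∈ J) (h4 : k4 ∈ J) (h12 : k1 ≠ k2)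
    (h34 : k3 ≠ k4) (T1 : T ∈ τ k1) (T2 : T ∈ τ k2) (T3 : T ∈ τ k3) (T4 : T ∈ τ k4)
    (A1 : A ∈ τ k1) (A2 : A ∈ τ k2) (B3 : B ∈ τ k3) (B4 : B ∈ τ k4) :
    ∃ (m0 : ℝ) (m : E →ₗ[ℝ] ℝ), 2 * m0 + m (x k1) + m (x k2) = 0 ∧
      2 * m0 + m (x k3) + m (x k4) = 0 ∧ 0 < m0 + m (x k1) ∧
      (∀ k ∈ J, T ∈ τ k → m0 + m (x k) ≠ 0) ∧
      (∀ k ∈ J, ∀ k' ∈ J, ∀ D, D ≠ T → D ≠ A → D ≠ B → T ∈ τ k → T ∈ τ k' → D ∈ τ k → D ∈ τ k' →
        0 < m0 + m (x k) → 0 < m0 + m (x k')) := by
  obtain ⟨U, hUT, hUA, hU⟩ := h.third h1 hTA T1 A1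
  have U1 : U ∈ τ k1 := by rw [hU]; simp
  have hAI := h.sub k1 h1 A1
  have hBI := h.sub k3 h3 B3
  have hUI := h.sub k1 h1 U1
  have hp : ∀ D ∈ I, D ≠ T → D ≠ A → L D (x k1) + L D (x k2) < 2 * c D := fun D hD a b =>
    h.mid_lt h1 h2 h12 hTA a b T1 A1 T2 A2 hD
  have hq : ∀ D ∈ I, D ≠ T → D ≠ B → L D (x k3) + L D (x k4) < 2 * c D := fun D hD a b =>
    h.mid_lt h3 h4 h34 hTB a b T3 B3 T4 B4 hD
  have zU := h.zero k1 h1 U U1
  have zA1 := h.zero k1 h1 A A1
  have zA2 := h.zero k2 h2 A A2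
  have zB3 := h.zero k3 h3 B B3
  have zB4 := h.zero k4 h4 B B4
  have zT1 := h.zero k1 h1 T T1
  have zT2 := h.zero k2 h2 T T2
  have zT3 := h.zero k3 h3 T T3
  have zT4 := h.zero k4 h4 T T4
  have pU := hp U hUI hUT hUA
  have qA := hq A hAI hTA.symm hAB
  have pB := hp B hBI hTB.symm hAB.symm
  set σ := 2 * c A - L A (x k3) - L A (x k4) with hσ
  have hσ0 : 0 < σ := by linarith
  set β := (L U (x k3) + L U (x k4) - L U (x k1) - L U (x k2)) / σ with hβ
  have hβ' : β * σ = L U (x k3) + L U (x k4) - L U (x k1) - L U (x k2) := by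
    rw [hβ]; field_simp
  set m0 := -(L U (x k1) + L U (x k2)) / 2 - β * c A with hm0
  have key : ∀ z : E, L T z = c T → m0 + (L U + β • L A) z = 0 → L A z ≤ c A → L B z ≤ c B →
      (∀ D ∈ I, D ≠ T → D ≠ A → D ≠ B → L D z < c D) ∧ (L A z < c A ∨ L B z < c B) := by
    intro z zT zm zA zB
    set t := 2 * (c A - L A z) / σ with ht
    have ht' : t * σ = 2 * (c A - L A z) := by rw [ht]; field_simp
    have hz : z = ((1 - t) / 2) • (x k1 + x k2) + (t / 2) • (x k3 + x k4) := by
      apply h.ext h1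
      intro i hi
      rw [hU] at hi
      simp only [Finset.mem_insert, Finset.mem_singleton] at hi
      simp only [LinearMap.add_apply, LinearMap.smul_apply, smul_eq_mul] at zm
      rcases hi with rfl | rfl | rfl
      · simp only [map_add, map_smul, smul_eq_mul]
        rw [zT, zT1, zT2, zT3, zT4]; ring
      · simp only [map_add, map_smul, smul_eq_mul]
        rw [zA1, zA2]; linarith
      · simp only [map_add, map_smul, smul_eq_mul]
        have : β * (t * σ) = t * (β * σ) := by ring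
        rw [ht', hβ'] at this
        linarith
    have hL : ∀ D, L D z = ((1 - t) / 2) * (L D (x k1) + L D (x k2)) +
        (t / 2) * (L D (x k3) + L D (x k4)) := by
      intro D
      conv_lhs => rw [hz]
      simp only [map_add, map_smul, smul_eq_mul]
    have t0 : 0 ≤ t := by
      rw [ht]
      exact div_nonneg (by linarith) hσ0.le
    have eB := hL B
    rw [zB3, zB4] at eB
    have t1 : t ≤ 1 := by
      by_contra hc
      push Not at hc
      nlinarith
    constructor
    · intro D hD a b d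
      have e1 := hp D hD a b
      have e2 := hq D hD a d
      rw [hL D]
      rcases eq_or_lt_of_le t1 with e | e
      · rw [e]; linarith
      · nlinarith
    · rcases eq_or_lt_of_le t1 with e | e
      · left
        rw [e] at ht'
        linarith
      · right
        nlinarith
  have hnz : ∀ k ∈ J, T ∈ τ k → m0 + (L U + β • L A) (x k) ≠ 0 := by
    intro k hk hT h0
    obtain ⟨a, b⟩ := key (x k) (h.zero k hk T hT) h0 (h.le hk hAI) (h.le hk hBI)
    have hsub : τ k ⊆ {T, A, B} := by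
      intro D hD
      by_contra hc
      simp only [Finset.mem_insert, Finset.mem_singleton, not_or] at hc
      exact (a D (h.sub k hk hD) hc.1 hc.2.1 hc.2.2).ne (h.zero k hk D hD)
    have := Finset.eq_of_subset_of_card_le hsub
      (by rw [h.card k hk, Finset.card_eq_three.2 ⟨T, A, B, hTA, hTB, hAB, rfl⟩])
    rcases b with b | b
    · exact b.ne (h.zero k hk A (by rw [this]; simp))
    · exact b.ne (h.zero k hk B (by rw [this]; simp))
  refine ⟨m0, L U + β • L A, ?_, ?_, ?_, hnz, ?_⟩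
  · simp only [LinearMap.add_apply, LinearMap.smul_apply, smul_eq_mul, zA1, zA2, hm0]
    ring
  · simp only [LinearMap.add_apply, LinearMap.smul_apply, smul_eq_mul, hm0]
    rw [hσ] at hβ'
    linarith
  · simp only [LinearMap.add_apply, LinearMap.smul_apply, smul_eq_mul, zA1, hm0]
    linarith
  · intro k hk k' hk' D a b d hT hT' hD hD' hpos
    by_contra hc
    have hneg : m0 + (L U + β • L A) (x k') < 0 :=
      lt_of_le_of_ne (not_lt.1 hc) (hnz k' hk' hT')
    set u := m0 + (L U + β • L A) (x k) with hu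
    set v := m0 + (L U + β • L A) (x k') with hv
    have hs : 0 < u - v := by linarith
    set s := u / (u - v) with hsd
    have s0 : 0 ≤ s := div_nonneg hpos.le hs.le
    have s1 : s ≤ 1 := by rw [hsd, div_le_one hs]; linarith
    have s2 : s * (u - v) = u := by rw [hsd]; field_simp
    have hz : ∀ F : E →ₗ[ℝ] ℝ, F ((1 - s) • x k + s • x k') = (1 - s) * F (x k) + s * F (x k') :=
      fun F => by simp only [map_add, map_smul, smul_eq_mul]
    have hle : ∀ i ∈ I, L i ((1 - s) • x k + s • x k') ≤ c i := by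
      intro i hi
      have := h.le hk hi
      have := h.le hk' hi
      rw [hz]
      nlinarith
    have := (key ((1 - s) • x k + s • x k') (by
      rw [hz, h.zero k hk T hT, h.zero k' hk' T hT']; ring) (by
      rw [hz]
      have e1 : (L U + β • L A) (x k) = u - m0 := by rw [hu]; ring
      have e2 : (L U + β • L A) (x k') = v - m0 := by rw [hv]; ring
      rw [e1, e2]
      linarith) (hle A hAI) (hle B hBI)).1 D (h.sub k hk hD) a b d
    rw [hz, h.zero k hk D hD, h.zero k' hk' D hD'] at this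
    linarith

def newτ (τ : κ → Finset ι) (C : Finset κ) (T A B n : ι) (kp kq : κ) (k : κ) : Finset ι :=
  if k = kp then {T, A, n} else if k = kq then {T, n, B} else
    if k ∈ C then insert n ((τ k).erase T) else τ k

theorem Cert.cut (h : Cert I J L c x τ) {T A B n : ι} (hTA : T ≠ A) (hTB : T ≠ B) (hAB : A ≠ B)
    (hn : n ∉ I) {kp kq : κ} (hkp : kp ∉ J) (hkq : kq ∉ J) (hpq : kp ≠ kq)
    {k1 k2 k3 k4 : κ} (h1 : k1 ∈ J) (h2 : k2 ∈ J) (h3 : k3 ∈ J) (h4 : k4 ∈ J) (h12 : k1 ≠ k2)
    (h34 : k3 ≠ k4) (T1 : T ∈ τ k1) (T2 : T ∈ τ k2) (T3 : T ∈ τ k3) (T4 : T ∈ τ k4)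
    (A1 : A ∈ τ k1) (A2 : A ∈ τ k2) (B3 : B ∈ τ k3) (B4 : B ∈ τ k4) :
    ∃ (C : Finset κ) (L' : ι → E →ₗ[ℝ] ℝ) (c' : ι → ℝ) (x' : κ → E), C ⊆ J ∧ (∀ k ∈ C, T ∈ τ k) ∧
      k1 ∈ C ∧ k2 ∉ C ∧ (k3 ∈ C ↔ k4 ∉ C) ∧
      (∀ k ∈ C, ∀ k' ∈ J, ∀ D, D ≠ T → D ≠ A → D ≠ B → T ∈ τ k' → D ∈ τ k → D ∈ τ k' → k' ∈ C) ∧
      Cert (insert n I) (insert kp (insert kq J)) L' c' x' (newτ τ C T A B n kp kq) := by
  obtain ⟨m0, m, e12, e34, p1, hnz, hsame⟩ :=
    h.cutline hTA hTB hAB h1 h2 h3 h4 h12 h34 T1 T2 T3 T4 A1 A2 B3 B4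
  have hTI := h.sub k1 h1 T1
  have hAI := h.sub k1 h1 A1
  have hBI := h.sub k3 h3 B3
  have nT : n ≠ T := fun e => hn (e ▸ hTI)
  have nA : n ≠ A := fun e => hn (e ▸ hAI)
  have nB : n ≠ B := fun e => hn (e ▸ hBI)
  have nτ : ∀ k ∈ J, n ∉ τ k := fun k hk e => hn (h.sub k hk e)
  let C := J.filter (fun k => T ∈ τ k ∧ 0 < m0 + m (x k))
  have hC : ∀ k, k ∈ C ↔ k ∈ J ∧ T ∈ τ k ∧ 0 < m0 + m (x k) := fun k => by simp [C]
  have hCneg : ∀ k ∈ J, T ∈ τ k → k ∉ C → m0 + m (x k) < 0 := fun k hk hT hk' =>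
    lt_of_le_of_ne (not_lt.1 (fun e => hk' ((hC k).2 ⟨hk, hT, e⟩))) (hnz k hk hT)
  have C1 : k1 ∈ C := (hC _).2 ⟨h1, T1, p1⟩
  have C2 : k2 ∉ C := fun e => by linarith [((hC _).1 e).2.2]
  have C34 : k3 ∈ C ↔ k4 ∉ C := by
    constructor
    · intro a b
      linarith [((hC _).1 a).2.2, ((hC _).1 b).2.2]
    · intro a
      exact (hC _).2 ⟨h3, T3, by linarith [hCneg k4 h4 T4 a]⟩
  have hcl : ∀ k ∈ C, ∀ k' ∈ J, ∀ D, D ≠ T → D ≠ A → D ≠ B → T ∈ τ k' → D ∈ τ k → D ∈ τ k' →
      k' ∈ C := by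
    intro k hk k' hk' D a b d hT' hD hD'
    obtain ⟨g1, g2, g3⟩ := (hC k).1 hk
    exact (hC k').2 ⟨hk', hT', hsame k g1 k' hk' D a b d g2 hT' hD hD' g3⟩
  obtain ⟨ε, hε, hεJ⟩ : ∃ ε : ℝ, 0 < ε ∧ ∀ k ∈ J, T ∉ τ k → L T (x k) + ε * (m0 + m (x k)) < c T := by
    have : ∀ᶠ t in nhds (0 : ℝ), ∀ k ∈ J, T ∉ τ k → L T (x k) + t * (m0 + m (x k)) < c T := by
      rw [Filter.eventually_all_finset]
      intro k hk
      by_cases hm : T ∈ τ k
      · exact Filter.Eventually.of_forall (fun t e => absurd hm e)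
      · have hc : Continuous (fun t : ℝ => L T (x k) + t * (m0 + m (x k))) := by fun_prop
        have := hc.continuousAt.eventually_lt (continuousAt_const (y := c T)) (x₀ := 0)
          (by simpa using h.pos k hk T hTI hm)
        exact this.mono (fun t ht _ => ht)
    obtain ⟨δ, hδ, hb⟩ := Metric.eventually_nhds_iff.1 this
    exact ⟨δ / 2, by linarith, hb (y := δ / 2) (by
      rw [Real.dist_eq, sub_zero, abs_of_pos (by linarith)]; linarith)⟩
  have hz : ∀ k, ∃ (d : κ) (z : E), k ∈ C → Nb J τ k T d ∧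
      L T z + ε * (m0 + m z) = c T ∧ (∀ i ∈ (τ k).erase T, L i z = c i) ∧
      (∀ i ∈ I, i ∉ (τ k).erase T → L i z < c i) := by
    intro k
    by_cases hk : k ∈ C
    · obtain ⟨g1, g2, g3⟩ := (hC k).1 hk
      obtain ⟨d, d1, d2, d3⟩ := h.nb k g1 T g2
      have b1 := hεJ d d1 d2
      have b2 := h.zero k g1 T g2
      set u := ε * (m0 + m (x k)) with hu
      set v := c T - (L T (x d) + ε * (m0 + m (x d))) with hv
      have u0 : 0 < u := mul_pos hε g3
      have v0 : 0 < v := by linarith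
      set s := u / (u + v) with hs
      have s0 : 0 < s := div_pos u0 (by linarith)
      have s1 : s < 1 := by rw [hs, div_lt_one (by linarith)]; linarith
      have s2 : s * (u + v) = u := by rw [hs]; field_simp
      have hF : ∀ F : E →ₗ[ℝ] ℝ, F ((1 - s) • x k + s • x d) = (1 - s) * F (x k) + s * F (x d) :=
        fun F => by simp only [map_add, map_smul, smul_eq_mul]
      refine ⟨d, (1 - s) • x k + s • x d, fun _ => ⟨⟨d1, d2, d3⟩, ?_, ?_, ?_⟩⟩
      · rw [hF, hF, b2]
        rw [hu, hv] at s2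
        linarith
      · intro i hi
        rw [hF, h.zero k g1 i (Finset.mem_of_mem_erase hi), h.zero d d1 i (d3 hi)]
        ring
      · intro i hi hne
        rw [hF]
        have a1 := h.le g1 hi
        have a2 := h.le d1 hi
        by_cases e : i = T
        · subst e
          have := h.pos d d1 i hi d2
          nlinarith
        · have := h.pos k g1 i hi (fun e' => hne (Finset.mem_erase.2 ⟨e, e'⟩))
          nlinarith
    · exact ⟨k, 0, fun e => absurd e hk⟩
  choose dn z hz using hz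
  let x' : κ → E := fun k => if k = kp then (1 / 2 : ℝ) • (x k1 + x k2) else
    if k = kq then (1 / 2 : ℝ) • (x k3 + x k4) else if k ∈ C then z k else x k
  let L' : ι → E →ₗ[ℝ] ℝ := Function.update L n (L T + ε • m)
  let c' : ι → ℝ := Function.update c n (c T - ε * m0)
  have Ln : L' n = L T + ε • m := Function.update_self _ _ _
  have cn : c' n = c T - ε * m0 := Function.update_self _ _ _
  have LI : ∀ i ∈ I, L' i = L i := fun i hi => Function.update_of_ne (fun e : i = n => hn (e ▸ hi)) _ _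
  have cI : ∀ i ∈ I, c' i = c i := fun i hi => Function.update_of_ne (fun e : i = n => hn (e ▸ hi)) _ _
  set τ' := newτ τ C T A B n kp kq with hτ'
  have τp : τ' kp = {T, A, n} := by simp [hτ', newτ]
  have τq : τ' kq = {T, n, B} := by simp [hτ', newτ, hpq.symm]
  have neJ : ∀ k ∈ J, k ≠ kp ∧ k ≠ kq := fun k hk =>
    ⟨fun e => hkp (e ▸ hk), fun e => hkq (e ▸ hk)⟩
  have τC : ∀ k ∈ C, τ' k = insert n ((τ k).erase T) := fun k hk => by
    simp [hτ', newτ, neJ k ((hC k).1 hk).1, hk]
  have τN : ∀ k ∈ J, k ∉ C → τ' k = τ k := fun k hk hk' => by simp [hτ', newτ, neJ k hk, hk']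
  have xp : x' kp = (1 / 2 : ℝ) • (x k1 + x k2) := by simp [x']
  have xq : x' kq = (1 / 2 : ℝ) • (x k3 + x k4) := by simp [x', hpq.symm]
  have xC : ∀ k ∈ C, x' k = z k := fun k hk => by simp [x', neJ k ((hC k).1 hk).1, hk]
  have xN : ∀ k ∈ J, k ∉ C → x' k = x k := fun k hk hk' => by simp [x', neJ k hk, hk']
  have hcase : ∀ k ∈ insert kp (insert kq J), k = kp ∨ k = kq ∨ k ∈ C ∨ (k ∈ J ∧ k ∉ C) := by
    intro k hk
    simp only [Finset.mem_insert] at hk
    by_cases e : k ∈ C <;> tauto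
  have mp : kp ∈ insert kp (insert kq J) := by simp
  have mq : kq ∈ insert kp (insert kq J) := by simp
  have mJ : ∀ k ∈ J, k ∈ insert kp (insert kq J) := fun k hk => by simp [hk]
  have hedge : ∀ j i, j = A ∨ j = B → i ∈ I → i ≠ T → i ≠ j →
      ∃ k' ∈ insert kp (insert kq J), i ∉ τ' k' ∧ T ∈ τ' k' ∧ n ∈ τ' k' ∧ j ∈ τ' k' := by
    intro j i hj hi a b
    have : i ≠ n := fun e => hn (e ▸ hi)
    rcases hj with rfl | rfl
    · exact ⟨kp, mp, by simp [τp, a, b, this], by simp [τp], by simp [τp], by simp [τp]⟩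
    · exact ⟨kq, mq, by simp [τq, a, b, this], by simp [τq], by simp [τq], by simp [τq]⟩
  refine ⟨C, L', c', x', Finset.filter_subset _ _, fun k hk => ((hC k).1 hk).2.1, C1, C2, C34, hcl,
    ?_⟩
  rw [← hτ']
  clear hτ'
  clear_value τ' x' L' c' C
  refine ⟨?_, ?_, ?_, ?_, ?_, ?_, ⟨kp, mp⟩⟩
  · intro k hk
    rcases hcase k hk with rfl | rfl | hk | hk
    · rw [τp]
      intro i hi
      simp only [Finset.mem_insert, Finset.mem_singleton] at hi ⊢
      rcases hi with rfl | rfl | rfl <;> simp [hTI, hAI]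
    · rw [τq]
      intro i hi
      simp only [Finset.mem_insert, Finset.mem_singleton] at hi ⊢
      rcases hi with rfl | rfl | rfl <;> simp [hTI, hBI]
    · rw [τC k hk]
      exact Finset.insert_subset_insert _
        ((Finset.erase_subset _ _).trans (h.sub k ((hC k).1 hk).1))
    · rw [τN k hk.1 hk.2]
      exact (h.sub k hk.1).trans (Finset.subset_insert _ _)
  · intro k hk
    rcases hcase k hk with rfl | rfl | hk | hk
    · rw [τp]
      exact Finset.card_eq_three.2 ⟨T, A, n, hTA, nT.symm, nA.symm, rfl⟩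
    · rw [τq]
      exact Finset.card_eq_three.2 ⟨T, n, B, nT.symm, hTB, nB, rfl⟩
    · obtain ⟨g1, g2, -⟩ := (hC k).1 hk
      rw [τC k hk, Finset.card_insert_of_notMem (fun e => nτ k g1 (Finset.mem_of_mem_erase e)),
        Finset.card_erase_of_mem g2, h.card k g1]
    · rw [τN k hk.1 hk.2, h.card k hk.1]
  · intro k hk i hi
    rcases hcase k hk with rfl | rfl | hk | hk
    · rw [τp] at hi
      simp only [Finset.mem_insert, Finset.mem_singleton] at hi
      rw [xp]
      rcases hi with rfl | rfl | rfl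
      · simp only [LI _ hTI, cI _ hTI, map_smul, map_add, smul_eq_mul, h.zero k1 h1 _ T1,
          h.zero k2 h2 _ T2]
        ring
      · simp only [LI _ hAI, cI _ hAI, map_smul, map_add, smul_eq_mul, h.zero k1 h1 _ A1,
          h.zero k2 h2 _ A2]
        ring
      · simp only [Ln, cn, map_smul, map_add, smul_eq_mul, LinearMap.add_apply,
          LinearMap.smul_apply, h.zero k1 h1 _ T1, h.zero k2 h2 _ T2]
        linear_combination (ε / 2) * e12
    · rw [τq] at hi
      simp only [Finset.mem_insert, Finset.mem_singleton] at hi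
      rw [xq]
      rcases hi with rfl | rfl | rfl
      · simp only [LI _ hTI, cI _ hTI, map_smul, map_add, smul_eq_mul, h.zero k3 h3 _ T3,
          h.zero k4 h4 _ T4]
        ring
      · simp only [Ln, cn, map_smul, map_add, smul_eq_mul, LinearMap.add_apply,
          LinearMap.smul_apply, h.zero k3 h3 _ T3, h.zero k4 h4 _ T4]
        linear_combination (ε / 2) * e34
      · simp only [LI _ hBI, cI _ hBI, map_smul, map_add, smul_eq_mul, h.zero k3 h3 _ B3,
          h.zero k4 h4 _ B4]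
        ring
    · rw [τC k hk] at hi
      rw [xC k hk]
      rcases Finset.mem_insert.1 hi with rfl | hi
      · simp only [Ln, cn, LinearMap.add_apply, LinearMap.smul_apply, smul_eq_mul]
        linarith [(hz k hk).2.1]
      · have hI := h.sub k ((hC k).1 hk).1 (Finset.mem_of_mem_erase hi)
        rw [LI i hI, cI i hI]
        exact (hz k hk).2.2.1 i hi
    · rw [τN k hk.1 hk.2] at hi
      have hI := h.sub k hk.1 hi
      rw [xN k hk.1 hk.2, LI i hI, cI i hI]
      exact h.zero k hk.1 i hi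
  · intro k hk i hI hi
    rcases hcase k hk with rfl | rfl | hk | hk
    · rw [τp] at hi
      simp only [Finset.mem_insert, Finset.mem_singleton, not_or] at hi
      have hI' := (Finset.mem_insert.1 hI).resolve_left hi.2.2
      have := h.mid_lt h1 h2 h12 hTA hi.1 hi.2.1 T1 A1 T2 A2 hI'
      simp only [xp, LI _ hI', cI _ hI', map_smul, map_add, smul_eq_mul]
      linarith
    · rw [τq] at hi
      simp only [Finset.mem_insert, Finset.mem_singleton, not_or] at hi
      have hI' := (Finset.mem_insert.1 hI).resolve_left hi.2.1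
      have := h.mid_lt h3 h4 h34 hTB hi.1 hi.2.2 T3 B3 T4 B4 hI'
      simp only [xq, LI _ hI', cI _ hI', map_smul, map_add, smul_eq_mul]
      linarith
    · rw [τC k hk, Finset.mem_insert, not_or] at hi
      have hI' := (Finset.mem_insert.1 hI).resolve_left hi.1
      rw [xC k hk, LI i hI', cI i hI']
      exact (hz k hk).2.2.2 i hI' hi.2
    · rw [τN k hk.1 hk.2] at hi
      rw [xN k hk.1 hk.2]
      rcases Finset.mem_insert.1 hI with rfl | hI'
      · simp only [Ln, cn, LinearMap.add_apply, LinearMap.smul_apply, smul_eq_mul]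
        by_cases hT : T ∈ τ k
        · have := mul_neg_of_pos_of_neg hε (hCneg k hk.1 hT hk.2)
          rw [h.zero k hk.1 T hT]
          linarith
        · linarith [hεJ k hk.1 hT]
      · rw [LI i hI', cI i hI']
        exact h.pos k hk.1 i hI' hi
  · intro k hk k' hk' he
    have eT : T ∈ τ' k ↔ T ∈ τ' k' := by rw [he]
    have en : n ∈ τ' k ↔ n ∈ τ' k' := by rw [he]
    have eA : A ∈ τ' k ↔ A ∈ τ' k' := by rw [he]
    have c1 := hcase k hk
    have c2 := hcase k' hk'
    clear hk hk'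
    rcases c1 with rfl | rfl | hk | hk <;> rcases c2 with rfl | rfl | hk' | hk'
    · rfl
    · simp [τp, τq, hTA.symm, nA.symm, hAB] at eA
    · simp [τp, τC k' hk', nT.symm] at eT
    · simp [τp, τN k' hk'.1 hk'.2, nτ k' hk'.1] at en
    · simp [τp, τq, hTA.symm, nA.symm, hAB] at eA
    · rfl
    · simp [τq, τC k' hk', nT.symm] at eT
    · simp [τq, τN k' hk'.1 hk'.2, nτ k' hk'.1] at en
    · simp [τp, τC k hk, nT.symm] at eT
    · simp [τq, τC k hk, nT.symm] at eT
    · obtain ⟨g1, g2, -⟩ := (hC k).1 hk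
      obtain ⟨g1', g2', -⟩ := (hC k').1 hk'
      apply h.inj k g1 k' g1'
      rw [τC k hk, τC k' hk'] at he
      have := congrArg (fun s => insert T (Finset.erase s n)) he
      simp only [Finset.erase_insert (fun e => nτ k g1 (Finset.mem_of_mem_erase e)),
        Finset.erase_insert (fun e => nτ k' g1' (Finset.mem_of_mem_erase e)),
        Finset.insert_erase g2, Finset.insert_erase g2'] at this
      exact this
    · simp [τC k hk, τN k' hk'.1 hk'.2, nτ k' hk'.1] at en
    · simp [τp, τN k hk.1 hk.2, nτ k hk.1] at en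
    · simp [τq, τN k hk.1 hk.2, nτ k hk.1] at en
    · simp [τC k' hk', τN k hk.1 hk.2, nτ k hk.1] at en
    · rw [τN k hk.1 hk.2, τN k' hk'.1 hk'.2] at he
      exact h.inj k hk.1 k' hk'.1 he
  · intro k hk i hi
    rcases hcase k hk with rfl | rfl | hk | hk
    · rw [τp] at hi ⊢
      simp only [Finset.mem_insert, Finset.mem_singleton] at hi
      rcases hi with rfl | rfl | rfl
      · refine ⟨k1, mJ _ h1, by simp [τC k1 C1, nT.symm], ?_⟩
        intro j hj
        simp only [Finset.mem_erase, Finset.mem_insert, Finset.mem_singleton] at hj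
        rw [τC k1 C1]
        rcases hj with ⟨a, rfl | rfl | rfl⟩ <;> simp_all
      · refine ⟨kq, mq, by simp [τq, hTA.symm, nA.symm, hAB], ?_⟩
        intro j hj
        simp only [Finset.mem_erase, Finset.mem_insert, Finset.mem_singleton] at hj
        rw [τq]
        rcases hj with ⟨a, rfl | rfl | rfl⟩ <;> simp_all
      · refine ⟨k2, mJ _ h2, by simp [τN k2 h2 C2, nτ k2 h2], ?_⟩
        intro j hj
        simp only [Finset.mem_erase, Finset.mem_insert, Finset.mem_singleton] at hj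
        rw [τN k2 h2 C2]
        rcases hj with ⟨a, rfl | rfl | rfl⟩
        · exact T2
        · exact A2
        · exact absurd rfl a
    · obtain ⟨a, b, aJ, bJ, aC, bC, aB, bB, bT⟩ : ∃ a b, a ∈ J ∧ b ∈ J ∧ a ∈ C ∧ b ∉ C ∧ B ∈ τ a ∧
          B ∈ τ b ∧ T ∈ τ b := by
        by_cases e : k3 ∈ C
        · exact ⟨k3, k4, h3, h4, e, C34.1 e, B3, B4, T4⟩
        · exact ⟨k4, k3, h4, h3, by_contra (fun e' => e (C34.2 e')), e, B4, B3, T3⟩
      rw [τq] at hi ⊢
      simp only [Finset.mem_insert, Finset.mem_singleton] at hi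
      rcases hi with rfl | rfl | rfl
      · refine ⟨a, mJ _ aJ, by simp [τC a aC, nT.symm], ?_⟩
        intro j hj
        simp only [Finset.mem_erase, Finset.mem_insert, Finset.mem_singleton] at hj
        rw [τC a aC]
        rcases hj with ⟨a, rfl | rfl | rfl⟩
        · exact absurd rfl a
        · simp
        · simp [aB, a]
      · refine ⟨b, mJ _ bJ, by simp [τN b bJ bC, nτ b bJ], ?_⟩
        intro j hj
        simp only [Finset.mem_erase, Finset.mem_insert, Finset.mem_singleton] at hj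
        rw [τN b bJ bC]
        rcases hj with ⟨a, rfl | rfl | rfl⟩
        · exact bT
        · exact absurd rfl a
        · exact bB
      · refine ⟨kp, mp, by simp [τp, hTB.symm, nB.symm, hAB.symm], ?_⟩
        intro j hj
        simp only [Finset.mem_erase, Finset.mem_insert, Finset.mem_singleton] at hj
        rw [τp]
        rcases hj with ⟨a, rfl | rfl | rfl⟩
        · simp
        · simp
        · exact absurd rfl a
    · obtain ⟨g1, g2, -⟩ := (hC k).1 hk
      rw [τC k hk] at hi ⊢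
      rcases Finset.mem_insert.1 hi with rfl | hi
      · obtain ⟨d1, d2, d3⟩ := (hz k hk).1
        have dC : dn k ∉ C := fun e => d2 ((hC _).1 e).2.1
        refine ⟨dn k, mJ _ d1, by rw [τN _ d1 dC]; exact nτ _ d1, ?_⟩
        rw [τN _ d1 dC, Finset.erase_insert (fun e => nτ k g1 (Finset.mem_of_mem_erase e))]
        exact d3
      · rw [Finset.mem_erase] at hi
        have iI := h.sub k g1 hi.2
        have inn : i ≠ n := fun e => hn (e ▸ iI)
        obtain ⟨j, jT, ji, hj⟩ := h.third g1 hi.1.symm g2 hi.2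
        have hsub : ∀ k', n ∈ τ' k' → j ∈ τ' k' → (insert n ((τ k).erase T)).erase i ⊆ τ' k' := by
          intro k' a b y hy
          simp only [hj, Finset.mem_erase, Finset.mem_insert, Finset.mem_singleton] at hy
          rcases hy with ⟨y1, rfl | ⟨y2, rfl | rfl | rfl⟩⟩
          · exact a
          · exact absurd rfl y2
          · exact absurd rfl y1
          · exact b
        obtain ⟨k', d1, d2, d3⟩ := h.nb k g1 i hi.2
        have jk : j ∈ τ k := by rw [hj]; simp
        have jk' : j ∈ τ k' := d3 (Finset.mem_erase.2 ⟨ji, jk⟩)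
        have Tk' : T ∈ τ k' := d3 (Finset.mem_erase.2 ⟨hi.1.symm, g2⟩)
        by_cases e : k' ∈ C
        · refine ⟨k', mJ _ d1, by simp [τC k' e, inn, d2], hsub k' (by simp [τC k' e]) ?_⟩
          simp [τC k' e, jT, jk']
        · have : j = A ∨ j = B := by
            by_contra hc
            push Not at hc
            exact e (hcl k hk k' d1 j jT hc.1 hc.2 Tk' jk jk')
          obtain ⟨k'', a1, a2, -, a3, a4⟩ := hedge j i this iI hi.1 ji.symm
          exact ⟨k'', a1, a2, hsub k'' a3 a4⟩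
    · rw [τN k hk.1 hk.2] at hi ⊢
      have iI := h.sub k hk.1 hi
      have inn : i ≠ n := fun e => hn (e ▸ iI)
      obtain ⟨k', d1, d2, d3⟩ := h.nb k hk.1 i hi
      by_cases e : k' ∈ C
      · by_cases eT : T ∈ (τ k).erase i
        · rw [Finset.mem_erase] at eT
          obtain ⟨j, jT, ji, hj⟩ := h.third hk.1 eT.1 eT.2 hi
          have jk : j ∈ τ k := by rw [hj]; simp
          have jk' : j ∈ τ k' := d3 (Finset.mem_erase.2 ⟨ji, jk⟩)
          have : j = A ∨ j = B := by
            by_contra hc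
            push Not at hc
            exact hk.2 (hcl k' e k hk.1 j jT hc.1 hc.2 eT.2 jk' jk)
          obtain ⟨k'', a1, a2, a3, -, a4⟩ := hedge j i this iI eT.1.symm ji.symm
          refine ⟨k'', a1, a2, ?_⟩
          intro y hy
          simp only [hj, Finset.mem_erase, Finset.mem_insert, Finset.mem_singleton] at hy
          rcases hy with ⟨y1, rfl | rfl | rfl⟩
          · exact a3
          · exact absurd rfl y1
          · exact a4
        · refine ⟨k', mJ _ d1, by simp [τC k' e, inn, d2], ?_⟩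
          rw [τC k' e]
          intro y hy
          exact Finset.mem_insert_of_mem (Finset.mem_erase.2 ⟨fun e' => eT (e' ▸ hy), d3 hy⟩)
      · exact ⟨k', mJ _ d1, by rw [τN k' d1 e]; exact d2, by rw [τN k' d1 e]; exact d3⟩

end

end Pool.Agent.P.MP_b50a78_co
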