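import Pool.Agent.P.MP_b50a78_co.Ind

set_option autoImplicit false

namespace Pool.Agent.P.MP_b50a78_co

def hB : VW := [(5, false), (4, false), (3, false), (4, false)]
def hC : VW := [(5, false), (4, false), (4, false), (3, false)]
def hW4 : VW := [(5, false), (4, false), (4, false), (4, false), (3, false)]
def hW5 : VW := [(5, false), (4, false), (4, false), (4, false), (4, false), (3, false)]
def hX1 : VW := [(5, false), (4, false), (4, false), (4, false), (3, false), (5, false), (4, false), (4, false), (4, false), (3, false)]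
def hX2 : VW := [(5, false), (4, false), (3, false), (5, false), (4, false), (3, false)]

def z0 : List ℕ := [0, 8, 2, 0, 17, 0, 35, 42]
def z1 : List ℕ := [0, 1, 0, 1, 0, 34, 25, 27, 39]
def z2 : List ℕ := [8, 64, 43, 48, 16, 1, 35, 1, 15]
def z3 : List ℕ := [8, 8, 1, 0, 10, 0, 19, 2, 63]
def z4 : List ℕ := [1, 0, 1, 0, 1, 18, 0, 19, 39]
def z5 : List ℕ := [8, 8, 10, 8, 1, 50, 17, 26, 79]
def z6 : List ℕ := [0, 0, 1, 50, 17, 16, 1, 27, 79]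
def z7 : List ℕ := [0, 8, 10, 8, 1, 50, 17, 26, 71]
def z8 : List ℕ := [0, 1, 0, 34, 64, 1, 33, 19, 39]
def z9 : List ℕ := [0, 9, 0, 10, 8, 50, 17, 26, 71]
def z10 : List ℕ := [8, 1, 0, 1, 0, 34, 25, 27, 47]
def z11 : List ℕ := [16, 33, 16, 16, 1, 35, 48, 27, 39]
def z12 : List ℕ := [0, 3, 8, 1, 0, 33, 25, 50]
def z13 : List ℕ := [8, 9, 0, 0, 11, 48, 1, 27, 47]
def z14 : List ℕ := [8, 0, 1, 50, 17, 16, 1, 27, 71]
def z15 : List ℕ := [0, 1, 0, 10, 0, 2, 64, 27, 55]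
def z16 : List ℕ := [0, 0, 9, 18, 8, 42, 0, 19, 71]
def z17 : List ℕ := [0, 9, 0, 0, 11, 48, 1, 27, 39]
def z18 : List ℕ := [1, 16, 49, 16, 11, 48, 0, 11, 15]
def z19 : List ℕ := [16, 3, 48, 16, 1, 35, 1, 0, 15]
def z20 : List ℕ := [8, 10, 0, 3, 8, 1, 16, 18, 79]
def z21 : List ℕ := [32, 59, 2, 16, 16, 16, 1, 34]
def z22 : List ℕ := [0, 0, 1, 0, 1, 50, 17, 27, 55]
def z23 : List ℕ := [0, 1, 18, 8, 42, 8, 50, 17, 47]
def z24 : List ℕ := [8, 3, 8, 0, 1, 49, 25, 10, 39]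
def z25 : List ℕ := [8, 2, 0, 0, 1, 33, 25, 11, 47]
def z26 : List ℕ := [0, 9, 16, 3, 48, 16, 35, 1]
def z27 : List ℕ := [0, 1, 10, 0, 3, 8, 16, 18, 71]
def z28 : List ℕ := [32, 9, 16, 16, 1, 35, 48, 27, 47]
def z29 : List ℕ := [8, 0, 1, 10, 8, 50, 17, 26, 79]
def z30 : List ℕ := [32, 34, 16, 27, 8, 16, 35, 8]
def z31 : List ℕ := [0, 48, 43, 32, 16, 35, 8, 10]
def z32 : List ℕ := [0, 8, 10, 0, 3, 32, 17, 10, 47]
def z33 : List ℕ := [16, 49, 16, 11, 48, 0, 1, 11, 15]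
def z34 : List ℕ := [64, 50, 0, 2, 0, 3, 48, 17, 39]
def z35 : List ℕ := [0, 8, 0, 1, 10, 0, 19, 2, 55]
def z36 : List ℕ := [0, 8, 11, 8, 1, 16, 65, 27, 71]
def z37 : List ℕ := [0, 10, 0, 2, 8, 1, 50, 25, 79]
def z38 : List ℕ := [0, 0, 1, 10, 8, 50, 17, 26, 71]
def z39 : List ℕ := [0, 11, 1, 0, 0, 11, 48, 1, 63]
def z40 : List ℕ := [10, 0, 0, 16, 1, 8, 42, 11, 15]
def z41 : List ℕ := [8, 1, 11, 8, 1, 0, 34, 25, 55]
def z42 : List ℕ := [8, 1, 35, 32, 16, 1, 11, 32, 39]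
def z43 : List ℕ := [0, 1, 11, 8, 1, 0, 34, 25, 63]
def z44 : List ℕ := [8, 1, 10, 0, 3, 8, 16, 18, 79]
def z45 : List ℕ := [2, 0, 0, 16, 1, 8, 42, 11]
def z46 : List ℕ := [8, 1, 0, 34, 64, 1, 33, 19, 47]
def z47 : List ℕ := [0, 8, 1, 0, 10, 0, 19, 2, 55]
def z48 : List ℕ := [0, 10, 8, 1, 50, 17, 16, 10, 79]
def z49 : List ℕ := [0, 9, 18, 55]
def z50 : List ℕ := [0, 18, 63]
def z51 : List ℕ := [0, 0, 49, 59, 71]
def z52 : List ℕ := [8, 65, 42, 25, 47]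
def z53 : List ℕ := [8, 34, 71]
def z54 : List ℕ := [16, 35, 1, 16, 16, 1, 35, 48, 63]
def z55 : List ℕ := [32, 9, 42, 15]
def z56 : List ℕ := [32, 26, 39]
def z57 : List ℕ := [0, 9, 17, 18, 55]
def z58 : List ℕ := [0, 49, 26, 55]
def z59 : List ℕ := [8, 0, 9, 18, 8, 42, 0, 19, 79]
def z60 : List ℕ := [8, 0, 49, 59, 79]
def z61 : List ℕ := [8, 18, 55]
def z62 : List ℕ := [0, 10]
def z63 : List ℕ := [1, 15]
def z64 : List ℕ := [8, 9, 16, 3, 48, 16, 35, 1, 15]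
def z65 : List ℕ := [0, 34, 63]
def z66 : List ℕ := [1, 16, 3, 48, 16, 35, 1, 0, 15]
def z67 : List ℕ := [8, 8, 11, 8, 1, 16, 65, 27, 79]
def z68 : List ℕ := [8, 0, 19, 1, 71]
def z69 : List ℕ := [33, 0, 18, 47]
def z70 : List ℕ := [8, 8, 32, 43, 32, 16, 35, 42, 15]
def z71 : List ℕ := [16, 8, 34, 0, 11, 8, 16, 35, 39]
def z72 : List ℕ := [2, 0, 15]
def z73 : List ℕ := [8, 18, 71]
def z74 : List ℕ := [0, 0, 19, 1, 79]
def z75 : List ℕ := [17, 16, 26, 39]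
def z76 : List ℕ := [8, 33, 2, 47]
def z77 : List ℕ := [8, 8, 10, 0, 3, 32, 17, 10, 39]
def z78 : List ℕ := [8, 50, 17, 25, 95]
def z79 : List ℕ := [8, 50, 1, 55]
def z80 : List ℕ := [0, 8, 32, 43, 32, 16, 35, 42]
def z81 : List ℕ := [8, 9, 18, 63]
def z82 : List ℕ := [2, 0, 17, 79]
def z83 : List ℕ := [48, 49, 1, 18, 79]
def z84 : List ℕ := [32, 26, 9, 63]
def z85 : List ℕ := [8, 1, 0, 1, 50, 48, 9, 19, 71]
def z86 : List ℕ := [0, 50, 63]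
def z87 : List ℕ := [0, 34, 64, 18, 95]
def z88 : List ℕ := [16, 33, 42]
def z89 : List ℕ := [16, 18, 47]
def z90 : List ℕ := [0, 65, 17, 10, 71]
def z91 : List ℕ := [0, 50, 1, 63]
def z92 : List ℕ := [0, 0, 65, 27, 55]
def z93 : List ℕ := [2, 0, 0, 0, 1, 11, 48, 42, 79]
def z94 : List ℕ := [0, 65, 25, 18, 55]
def z95 : List ℕ := [0, 18, 0, 18, 79]
def z96 : List ℕ := [0, 49, 2, 39]
def z97 : List ℕ := [8, 49, 2, 47]

def bIa0 : Key × SegD × SegD := ((3, 1, 1, []),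
  ([], [0, 0, 0, 43, 23]),
  ([], [16, 16]))
def bIa1 : Key × SegD × SegD := ((4, 0, 0, []),
  ([], [0, 0, 0, 43, 23]),
  ([], [16, 32]))
def bIa2 : Key × SegD × SegD := ((3, 1, 2, [1]),
  ([], [0, 0, 0, 43, 23]),
  ([([], [([], 0, z0)], [1, 42])], []))
def bIa3 : Key × SegD × SegD := ((3, 2, 0, [1]),
  ([], [0, 0, 0, 43, 23]),
  ([([], [([], 0, z0)], [0, 25])], [0, 1]))
def bIa4 : Key × SegD × SegD := ((4, 0, 1, [1]),
  ([], [0, 0, 0, 43, 23]),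
  ([([], [([], 0, z0)], [0, 59])], []))
def bIa5 : Key × SegD × SegD := ((3, 2, 1, [2]),
  ([], [0, 0, 0, 43, 23]),
  ([([], [([], 0, z0)], [0, 9, 16, 9])], []))
def bIa6 : Key × SegD × SegD := ((4, 0, 2, [2]),
  ([], [0, 0, 0, 43, 23]),
  ([([], [([], 0, z0)], [0, 0, 42])], [0, 18, 0]))
def bIa7 : Key × SegD × SegD := ((4, 1, 0, [2]),
  ([], [0, 0, 0, 43, 23]),
  ([([], [([], 0, z0)], [0, 0, 42])], [0]))
def bIa8 : Key × SegD × SegD := ((3, 3, 0, [3]),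
  ([], [0, 0, 0, 43, 23]),
  ([([23], [([], 0, z1)], [1, 0, 0, 10, 48, 3])], []))
def bIa9 : Key × SegD × SegD := ((4, 0, 3, [3]),
  ([], [0, 0, 0, 43, 23]),
  ([([], [([], 0, z0)], [0, 9, 0, 42])], [42, 0]))
def bIa10 : Key × SegD × SegD := ((4, 1, 2, [4]),
  ([], [0, 0, 0, 43, 23]),
  ([([], [([], 0, z0)], [0, 9, 1, 0, 42])], [16]))
def bIa11 : Key × SegD × SegD := ((4, 2, 0, [4]),
  ([], [0, 0, 0, 43, 23]),
  ([([], [([], 0, z0)], [0, 0, 1, 34, 48, 43])], []))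
def bIa12 : Key × SegD × SegD := ((5, 0, 1, [4]),
  ([], [0, 0, 0, 43, 23]),
  ([([], [([], 0, z0)], [0, 8, 2, 8, 42])], [0]))
def bIa13 : Key × SegD × SegD := ((4, 2, 1, [5]),
  ([], [0, 0, 0, 43, 23]),
  ([([], [([], 0, z0)], [1, 0, 0, 2, 8, 59])], []))
def bIa14 : Key × SegD × SegD := ((5, 0, 2, [5]),
  ([], [0, 0, 0, 43, 23]),
  ([([], [([], 0, z0)], [0, 8, 2, 8, 1, 25])], [19, 8]))
def bIa15 : Key × SegD × SegD := ((5, 1, 0, [5]),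
  ([], [0, 0, 0, 43, 23]),
  ([([], [([], 0, z0)], [0, 0, 1, 34, 48, 1, 26])], [0]))
def bIa16 : Key × SegD × SegD := ((4, 3, 0, [6]),
  ([], [0, 0, 0, 43, 23]),
  ([([], [([], 0, z0)], [0, 0, 18, 8, 1, 42, 8, 59])], []))
def bIa17 : Key × SegD × SegD := ((5, 0, 3, [6]),
  ([], [0, 0, 0, 43, 23]),
  ([([], [([], 0, z0)], [0, 9, 0, 10, 8, 1, 27])], [8]))
def bIa18 : Key × SegD × SegD := ((3, 2, 1, [1, 1]),
  ([], [0, 0, 0, 43, 23]),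
  ([([], [([], 0, z0)], [0, 25]), ([39], [([9], 0, z2)], [27])], []))
def bIa19 : Key × SegD × SegD := ((4, 0, 2, [1, 1]),
  ([], [0, 0, 0, 43, 23]),
  ([([], [([], 0, z0)], [0, 26]), ([55], [([], 0, z3)], [0, 43])], []))
def bIa20 : Key × SegD × SegD := ((4, 1, 0, [1, 1]),
  ([], [0, 0, 0, 43, 23]),
  ([([], [([], 0, z0)], [0, 48, 3]), ([], [([], 0, z4)], [1, 26])], [0]))
def bIa21 : Key × SegD × SegD := ((3, 3, 0, [1, 2]),
  ([], [0, 0, 0, 43, 23]),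
  ([([], [([], 0, z0)], [0, 0, 42]), ([39], [([], 0, z5)], [8, 25])], [33]))
def bIa22 : Key × SegD × SegD := ((4, 0, 3, [1, 2]),
  ([], [0, 0, 0, 43, 23]),
  ([([], [([], 0, z0)], [0, 25]), ([39], [([48, 2, 39], 0, z6)], [0, 42])], []))
def bIa23 : Key × SegD × SegD := ((4, 2, 1, [1, 4]),
  ([], [0, 0, 0, 43, 23]),
  ([([], [([], 0, z0)], [0, 26]), ([55], [([], 0, z3)], [8, 9, 8, 1, 42])], [16]))
def bIa24 : Key × SegD × SegD := ((5, 0, 2, [1, 4]),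
  ([], [0, 0, 0, 43, 23]),
  ([([], [([], 0, z0)], [0, 25]), ([39], [([8, 2], 0, z7)], [1, 0, 42])], [16]))
def bIa25 : Key × SegD × SegD := ((5, 1, 0, [1, 4]),
  ([], [0, 0, 0, 43, 23]),
  ([([], [([], 0, z0)], [0, 8, 2, 8, 42]), ([55], [([1], 0, z8)], [0, 43])], []))
def bIa26 : Key × SegD × SegD := ((4, 3, 0, [1, 5]),
  ([], [0, 0, 0, 43, 23]),
  ([([], [([], 0, z0)], [0, 25]), ([39], [([8, 10], 0, z9)], [8, 2, 8, 59])], []))
def bIa27 : Key × SegD × SegD := ((5, 0, 3, [1, 5]),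
  ([], [0, 0, 0, 43, 23]),
  ([([], [([], 0, z0)], [0, 25]), ([39], [([8, 2], 0, z7)], [0, 2, 8, 42])], []))
def bIa28 : Key × SegD × SegD := ((4, 1, 2, [2, 2]),
  ([], [0, 0, 0, 43, 23]),
  ([([], [([], 0, z0)], [0, 0, 42]), ([39], [([], 0, z5)], [0, 1, 25])], []))
def bIa29 : Key × SegD × SegD := ((4, 2, 0, [2, 2]),
  ([], [0, 0, 0, 43, 23]),
  ([([], [([], 0, z0)], [0, 8, 25]), ([55], [([3], 0, z10)], [8, 43])], []))
def bIa30 : Key × SegD × SegD := ((5, 0, 1, [2, 2]),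
  ([], [0, 0, 0, 43, 23]),
  ([([], [([], 0, z0)], [0, 8, 27]), ([39], [([], 0, z4)], [1, 0, 1, 26])], [0]))
def bIa31 : Key × SegD × SegD := ((4, 3, 0, [2, 4]),
  ([], [0, 0, 0, 43, 23]),
  ([([], [([], 0, z0)], [0, 8, 25]), ([55], [([3], 0, z10)], [8, 1, 0, 43])], []))
def bIa32 : Key × SegD × SegD := ((5, 0, 3, [2, 4]),
  ([], [0, 0, 0, 43, 23]),
  ([([], [([], 0, z0)], [1, 0, 1, 0, 42]), ([], [([9], 0, z6)], [0, 42])], []))
def bIa33 : Key × SegD × SegD := ((5, 1, 2, [2, 5]),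
  ([], [0, 0, 0, 43, 23]),
  ([([], [([], 0, z0)], [0, 9, 42]), ([], [([], 0, z11)], [1, 0, 1, 0, 1, 26])], [0]))
def bIa34 : Key × SegD × SegD := ((5, 2, 0, [2, 5]),
  ([], [0, 0, 0, 43, 23]),
  ([([], [([], 0, z0)], [0, 8, 25]), ([55], [([3], 0, z10)], [8, 1, 0, 1, 26])], [0]))
def bIa35 : Key × SegD × SegD := ((6, 0, 1, [2, 5]),
  ([], [0, 0, 0, 43, 23]),
  ([([], [([], 0, z0)], [0, 8, 27]), ([39], [([], 0, z4)], [1, 0, 1, 0, 9, 18, 48, 2])], [0]))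
def bIa36 : Key × SegD × SegD := ((5, 2, 1, [4, 4]),
  ([], [0, 0, 0, 43, 23]),
  ([([], [([], 0, z0)], [0, 9, 0, 1, 59]), ([], [([], 0, z4)], [1, 0, 1, 0, 43])], []))
def bIa37 : Key × SegD × SegD := ((6, 0, 2, [4, 4]),
  ([], [0, 0, 0, 43, 23]),
  ([([], [([], 0, z0)], [0, 9, 0, 1, 25]), ([55], [([], 0, z12)], [2, 0, 3, 8, 43])], []))
def bIa38 : Key × SegD × SegD := ((6, 1, 0, [4, 4]),
  ([], [0, 0, 0, 43, 23]),
  ([([], [([], 0, z0)], [0, 8, 2, 0, 27]), ([39], [([], 0, z4)], [1, 0, 1, 0, 43])], []))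
def bIa39 : Key × SegD × SegD := ((5, 3, 0, [4, 5]),
  ([], [0, 0, 0, 43, 23]),
  ([([], [([], 0, z0)], [0, 0, 1, 1, 25]), ([87], [([11], 0, z13)], [8, 0, 1, 1, 26])], [0]))
def bIa40 : Key × SegD × SegD := ((6, 0, 3, [4, 5]),
  ([], [0, 0, 0, 43, 23]),
  ([([], [([], 0, z0)], [1, 9, 0, 8, 26]), ([39], [([8, 2, 1], 0, z8)], [0, 1, 26])], [0]))
def bIa41 : Key × SegD × SegD := ((6, 1, 2, [5, 5]),
  ([], [0, 0, 0, 43, 23]),
  ([([], [([], 0, z0)], [0, 9, 0, 1, 10, 25]), ([], [([0, 1, 10], 0, z14)], [8, 1, 25])], []))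
def bIa42 : Key × SegD × SegD := ((6, 2, 0, [5, 5]),
  ([], [0, 0, 0, 43, 23]),
  ([([], [([], 0, z0)], [0, 8, 2, 0, 2, 25]), ([], [([], 0, z15)], [0, 10, 8, 2, 8, 59])], []))
def bIa43 : Key × SegD × SegD := ((7, 0, 1, [5, 5]),
  ([], [0, 0, 0, 43, 23]),
  ([([], [([], 0, z0)], [0, 8, 2, 8, 34, 8, 49, 25]), ([11, 23], [([], 0, z4)], [1, 0, 1, 0, 1, 26])], [0]))
def bIa44 : Key × SegD × SegD := ((3, 3, 0, [1, 1, 1]),
  ([([], [([0, 1, 0, 1], 0, z16)], [26]), ([39], [([], 0, z13)], [8, 26]), ([55], [([], 0, z1)], [0, 26])], [39]),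
  ([], [17]))
def bIa45 : Key × SegD × SegD := ((4, 0, 3, [1, 1, 1]),
  ([([], [([0, 1, 0, 1], 0, z16)], [48, 33]), ([71], [([10], 0, z9)], [42])], []),
  ([([], [([], 0, z0)], [0, 59])], []))
def bIa46 : Key × SegD × SegD := ((4, 3, 0, [1, 1, 4]),
  ([], [0, 0, 0, 43, 23]),
  ([([], [([], 0, z0)], [0, 25]), ([39], [([9], 0, z2)], [42]), ([], [([], 0, z17)], [0, 0, 1, 1, 26])], [0]))
def bIa47 : Key × SegD × SegD := ((5, 0, 3, [1, 1, 4]),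
  ([([], [([0, 0, 1, 0, 3, 8], 0, z18)], [0, 43]), ([39], [([], 0, z1)], [0, 26])], [39]),
  ([([], [([], 0, z0)], [0, 59])], []))
def bIa48 : Key × SegD × SegD := ((5, 3, 0, [1, 4, 4]),
  ([], [0, 0, 0, 43, 23]),
  ([([], [([], 0, z0)], [0, 25]), ([39], [([0, 9], 0, z19)], [1, 9, 25]), ([55], [([], 0, z20)], [2, 8, 2, 0, 59])], []))
def bIa49 : Key × SegD × SegD := ((6, 0, 3, [1, 4, 4]),
  ([([], [([0, 0, 1, 0, 3, 8], 0, z18)], [0, 43]), ([39], [([], 0, z1)], [0, 26])], [39]),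
  ([([], [([], 0, z0)], [0, 8, 2, 8, 42])], [0]))
def bIa50 : Key × SegD × SegD := ((4, 3, 0, [2, 2, 2]),
  ([], [0, 0, 0, 43, 23]),
  ([([], [([], 0, z0)], [0, 8, 25]), ([55], [([9, 10], 0, z21)], [26]), ([], [([], 0, z22)], [0, 0, 42])], [0]))
def bIa51 : Key × SegD × SegD := ((5, 0, 3, [2, 2, 2]),
  ([([], [([0, 0, 1, 0, 1], 0, z23)], [25])], [27, 23]),
  ([([], [([], 0, z0)], [0, 0, 42]), ([39], [([], 0, z5)], [9, 0, 42])], [16]))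
def bIa52 : Key × SegD × SegD := ((5, 3, 0, [2, 2, 5]),
  ([], [0, 0, 0, 43, 23]),
  ([([], [([], 0, z0)], [0, 0, 42]), ([39], [([], 0, z5)], [0, 1, 25]), ([71], [([1], 0, z24)], [2, 0, 2, 0, 25])], []))
def bIa53 : Key × SegD × SegD := ((6, 0, 3, [2, 2, 5]),
  ([], [0, 0, 0, 43, 23]),
  ([([], [([], 0, z0)], [0, 0, 42]), ([39], [([], 0, z5)], [8, 2, 25]), ([55], [([], 0, z25)], [9, 0, 1, 10, 8, 42])], []))
def bIa54 : Key × SegD × SegD := ((6, 3, 0, [2, 5, 5]),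
  ([([], [([0, 0, 1, 1], 0, z26)], [0, 42]), ([71], [([1, 0, 1, 3], 0, z10)], [8, 26])], [39]),
  ([([], [([], 0, z0)], [0, 0, 1, 34, 48, 1, 26])], [0]))
def bIa55 : Key × SegD × SegD := ((7, 0, 3, [2, 5, 5]),
  ([], [0, 0, 0, 43, 23]),
  ([([], [([], 0, z0)], [0, 9, 0, 2, 8, 42]), ([55], [([1], 0, z8)], [0, 26]), ([39], [([8, 2, 1], 0, z8)], [0, 1, 26])], [0]))
def bIa56 : Key × SegD × SegD := ((6, 3, 0, [4, 4, 4]),
  ([([], [([0, 0, 1, 0, 1], 0, z23)], [10, 0, 25]), ([87], [([], 0, z27)], [10, 0, 3, 8, 26])], [39]),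
  ([([], [([], 0, z0)], [0, 8, 2, 0, 27])], []))
def bIa57 : Key × SegD × SegD := ((7, 0, 3, [4, 4, 4]),
  ([], [0, 0, 0, 43, 23]),
  ([([], [([], 0, z0)], [0, 9, 0, 1, 25]), ([55], [([], 0, z12)], [2, 8, 10, 0, 59]), ([23], [([], 0, z1)], [0, 1, 0, 1, 26])], [0]))
def bIa58 : Key × SegD × SegD := ((7, 3, 0, [5, 5, 5]),
  ([], [0, 0, 0, 43, 23]),
  ([([], [([], 0, z0)], [0, 8, 2, 0, 2, 25]), ([], [([], 0, z15)], [0, 1, 10, 8, 1, 25]), ([71], [([1], 0, z24)], [2, 0, 2, 0, 25])], []))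
def bIa59 : Key × SegD × SegD := ((8, 0, 3, [5, 5, 5]),
  ([], [0, 0, 0, 43, 23]),
  ([([], [([], 0, z0)], [0, 8, 2, 0, 2, 25]), ([], [([], 0, z15)], [0, 1, 10, 0, 2, 25]), ([55], [([], 0, z25)], [9, 0, 1, 10, 8, 42])], []))
def tIa : List (Key × SegD × SegD) := [bIa0, bIa1, bIa2, bIa3, bIa4, bIa5, bIa6, bIa7, bIa8, bIa9, bIa10, bIa11, bIa12, bIa13, bIa14, bIa15, bIa16, bIa17, bIa18, bIa19, bIa20, bIa21, bIa22, bIa23, bIa24, bIa25, bIa26, bIa27, bIa28, bIa29, bIa30, bIa31, bIa32, bIa33, bIa34, bIa35, bIa36, bIa37, bIa38, bIa39, bIa40, bIa41, bIa42, bIa43, bIa44, bIa45, bIa46, bIa47, bIa48, bIa49, bIa50, bIa51, bIa52, bIa53, bIa54, bIa55, bIa56, bIa57, bIa58, bIa59]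
def gIa0 : Key × SegD := ((1, 0, 0, [3]),
  ([([], [([], 0, z0)], [0, 48, 2, 16, 17])], [11, 23]))
def gIa1 : Key × SegD := ((2, 0, 0, [6]),
  ([([], [([], 0, z0)], [0, 8, 2, 0, 2, 0, 25])], [11, 23]))
def gIa2 : Key × SegD := ((1, 0, 0, [1, 2]),
  ([([], [([], 0, z0)], [0, 48, 3]), ([], [([], 0, z4)], [1, 0, 26])], [39]))
def gIa3 : Key × SegD := ((2, 0, 0, [1, 5]),
  ([([], [([], 0, z0)], [0, 48, 3]), ([], [([], 0, z4)], [1, 16, 0, 42, 16, 34, 0, 25])], [11, 23]))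
def gIa4 : Key × SegD := ((2, 0, 0, [2, 4]),
  ([([], [([], 0, z0)], [0, 8, 2, 0, 27]), ([39], [([], 0, z4)], [1, 0, 26])], [39]))
def gIa5 : Key × SegD := ((3, 0, 0, [4, 5]),
  ([([], [([], 0, z0)], [0, 8, 2, 8, 42]), ([55], [([1], 0, z8)], [0, 1, 18, 8, 34, 0, 25])], [11, 23]))
def gIa6 : Key × SegD := ((1, 0, 0, [1, 1, 1]),
  ([([], [([], 0, z0)], [0, 25]), ([55], [([1, 16, 49, 10, 55], 0, z8)], [0, 33, 19]), ([], [([], 0, z4)], [1, 0, 26])], [39]))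
def gIa7 : Key × SegD := ((2, 0, 0, [1, 1, 4]),
  ([([], [([], 0, z0)], [0, 8, 2, 8, 42]), ([55], [([1], 0, z8)], [0, 33, 19]), ([], [([], 0, z4)], [1, 0, 26])], [39]))
def gIa8 : Key × SegD := ((3, 0, 0, [1, 4, 4]),
  ([([], [([], 0, z0)], [0, 8, 2, 0, 27]), ([39], [([], 0, z4)], [1, 0, 1, 0, 33, 19]), ([], [([], 0, z4)], [1, 0, 26])], [39]))
def gIa9 : Key × SegD := ((4, 0, 0, [4, 4, 4]),
  ([([], [([], 0, z0)], [0, 8, 2, 0, 27]), ([39], [([], 0, z4)], [1, 0, 0, 1, 26]), ([17, 23], [([1], 0, z8)], [0, 1, 18, 8, 34, 0, 25])], [11, 23]))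
def gIa10 : Key × SegD := ((2, 0, 0, [2, 2, 2]),
  ([([], [([], 0, z0)], [0, 0, 42]), ([55], [([1], 0, z8)], [0, 1, 9, 25]), ([11, 23], [([], 0, z4)], [1, 0, 26])], [39]))
def gIa11 : Key × SegD := ((3, 0, 0, [2, 2, 5]),
  ([([], [([], 0, z0)], [0, 8, 27]), ([39], [([], 0, z4)], [1, 0, 1, 0, 1, 9, 25]), ([11, 23], [([], 0, z4)], [1, 0, 26])], [39]))
def gIa12 : Key × SegD := ((4, 0, 0, [2, 5, 5]),
  ([([], [([], 0, z0)], [0, 8, 2, 0, 2, 25]), ([71], [([1, 16, 49, 10, 55], 0, z8)], [0, 1, 9, 25]), ([11, 23], [([], 0, z4)], [1, 0, 26])], [39]))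
def gIa13 : Key × SegD := ((5, 0, 0, [5, 5, 5]),
  ([([], [([], 0, z0)], [0, 8, 2, 0, 2, 25]), ([71], [([1, 16, 49, 10, 55], 0, z8)], [0, 9, 18, 48, 2]), ([55], [([1], 0, z8)], [0, 1, 18, 8, 34, 0, 25])], [11, 23]))
def uIa : List (Key × SegD) := [gIa0, gIa1, gIa2, gIa3, gIa4, gIa5, gIa6, gIa7, gIa8, gIa9, gIa10, gIa11, gIa12, gIa13]
def bIb0 : Key × SegD × SegD := ((2, 3, 0, []),
  ([], [0, 0, 0, 43, 23]),
  ([], [17]))
def bIb1 : Key × SegD × SegD := ((3, 0, 3, []),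
  ([], [0, 0, 0, 43, 23]),
  ([], [16]))
def bIb2 : Key × SegD × SegD := ((3, 1, 2, [1]),
  ([], [0, 0, 0, 43, 23]),
  ([([], [([], 0, z0)], [0, 25])], [0]))
def bIb3 : Key × SegD × SegD := ((3, 2, 0, [1]),
  ([], [0, 0, 0, 43, 23]),
  ([([], [([], 0, z0)], [0, 48, 3])], []))
def bIb4 : Key × SegD × SegD := ((3, 2, 1, [2]),
  ([], [0, 0, 0, 43, 23]),
  ([([], [([], 0, z0)], [0, 8, 27])], []))
def bIb5 : Key × SegD × SegD := ((4, 0, 2, [2]),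
  ([], [0, 0, 0, 43, 23]),
  ([([], [([], 0, z0)], [1, 0, 43])], []))
def bIb6 : Key × SegD × SegD := ((4, 1, 2, [4]),
  ([], [0, 0, 0, 43, 23]),
  ([([], [([], 0, z0)], [1, 9, 0, 8, 43])], []))
def bIb7 : Key × SegD × SegD := ((4, 2, 0, [4]),
  ([], [0, 0, 0, 43, 23]),
  ([([], [([], 0, z0)], [0, 8, 2, 0, 27])], []))
def bIb8 : Key × SegD × SegD := ((4, 2, 1, [5]),
  ([], [0, 0, 0, 43, 23]),
  ([([], [([], 0, z0)], [0, 9, 1, 8, 1, 42])], [16]))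
def bIb9 : Key × SegD × SegD := ((5, 0, 2, [5]),
  ([], [0, 0, 0, 43, 23]),
  ([([], [([], 0, z0)], [0, 9, 0, 2, 8, 42])], [0]))
def bIb10 : Key × SegD × SegD := ((3, 2, 1, [1, 1]),
  ([], [0, 0, 0, 43, 23]),
  ([([], [([], 0, z0)], [0, 25]), ([39], [([9], 0, z2)], [16, 9])], []))
def bIb11 : Key × SegD × SegD := ((4, 0, 2, [1, 1]),
  ([], [0, 0, 0, 43, 23]),
  ([([], [([], 0, z0)], [0, 26]), ([39], [([], 0, z28)], [9, 0, 43])], []))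
def bIb12 : Key × SegD × SegD := ((4, 1, 0, [1, 1]),
  ([], [0, 0, 0, 43, 23]),
  ([([], [([], 0, z0)], [0, 25]), ([39], [([0, 34, 55], 0, z29)], [59])], []))
def bIb13 : Key × SegD × SegD := ((4, 1, 1, [1, 2]),
  ([], [0, 0, 0, 43, 23]),
  ([([], [([], 0, z0)], [0, 0, 42]), ([39], [([], 0, z5)], [0, 43])], []))
def bIb14 : Key × SegD × SegD := ((4, 2, 1, [1, 4]),
  ([], [0, 0, 0, 43, 23]),
  ([([], [([], 0, z0)], [0, 26]), ([55], [([], 0, z3)], [0, 0, 2, 8, 59])], []))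
def bIb15 : Key × SegD × SegD := ((5, 0, 2, [1, 4]),
  ([], [0, 0, 0, 43, 23]),
  ([([], [([], 0, z0)], [0, 59]), ([23], [([1, 0, 0], 0, z18)], [1, 27])], []))
def bIb16 : Key × SegD × SegD := ((5, 1, 0, [1, 4]),
  ([], [0, 0, 0, 43, 23]),
  ([([], [([], 0, z0)], [0, 59]), ([23], [([8, 0, 0], 0, z30)], [2, 27])], []))
def bIb17 : Key × SegD × SegD := ((5, 1, 1, [1, 5]),
  ([], [0, 0, 0, 43, 23]),
  ([([], [([], 0, z0)], [0, 25]), ([39], [([8, 2], 0, z7)], [0, 10, 8, 42])], [0]))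
def bIb18 : Key × SegD × SegD := ((4, 1, 2, [2, 2]),
  ([([], [([0, 0, 0, 2], 0, z31)], [8, 43]), ([23], [([], 0, z28)], [9, 0, 26])], [39]),
  ([], [16, 32]))
def bIb19 : Key × SegD × SegD := ((4, 2, 0, [2, 2]),
  ([([], [([0, 0, 0, 2], 0, z31)], [0, 27]), ([39], [([], 0, z4)], [1, 0, 26])], [39]),
  ([], [16, 32]))
def bIb20 : Key × SegD × SegD := ((5, 0, 1, [2, 2]),
  ([], [0, 0, 0, 43, 23]),
  ([([], [([], 0, z0)], [0, 0, 42]), ([39], [([], 0, z5)], [9, 0, 42])], [16]))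
def bIb21 : Key × SegD × SegD := ((5, 1, 1, [2, 4]),
  ([], [0, 0, 0, 43, 23]),
  ([([], [([], 0, z0)], [0, 9, 42]), ([55], [([], 0, z10)], [8, 1, 0, 1, 26])], [0]))
def bIb22 : Key × SegD × SegD := ((5, 1, 2, [2, 5]),
  ([], [0, 0, 0, 43, 23]),
  ([([], [([], 0, z0)], [0, 9, 25]), ([55], [([], 0, z32)], [8, 2, 0, 2, 8, 59])], []))
def bIb23 : Key × SegD × SegD := ((5, 2, 0, [2, 5]),
  ([], [0, 0, 0, 43, 23]),
  ([([], [([], 0, z0)], [0, 8, 27]), ([23], [([10, 0, 0, 0], 0, z30)], [2, 27])], []))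
def bIb24 : Key × SegD × SegD := ((6, 0, 1, [2, 5]),
  ([], [0, 0, 0, 43, 23]),
  ([([], [([], 0, z0)], [0, 9, 0, 1, 10, 25]), ([55], [([], 0, z25)], [8, 2, 27])], []))
def bIb25 : Key × SegD × SegD := ((5, 2, 1, [4, 4]),
  ([], [0, 0, 0, 43, 23]),
  ([([], [([], 0, z0)], [0, 9, 1, 0, 42]), ([71], [([9], 0, z33)], [1, 0, 1, 26])], [0]))
def bIb26 : Key × SegD × SegD := ((6, 0, 2, [4, 4]),
  ([], [0, 0, 0, 43, 23]),
  ([([], [([], 0, z0)], [0, 9, 0, 10, 25]), ([71], [([8, 9, 10], 0, z21)], [8, 42])], [48]))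
def bIb27 : Key × SegD × SegD := ((6, 1, 0, [4, 4]),
  ([], [0, 0, 0, 43, 23]),
  ([([], [([], 0, z0)], [0, 0, 3, 8, 26]), ([55], [([], 0, z1)], [0, 1, 0, 1, 26])], [0]))
def bIb28 : Key × SegD × SegD := ((6, 1, 1, [4, 5]),
  ([], [0, 0, 0, 43, 23]),
  ([([], [([], 0, z0)], [0, 8, 2, 0, 2, 25]), ([], [([], 0, z15)], [0, 1, 10, 8, 43])], []))
def bIb29 : Key × SegD × SegD := ((6, 1, 2, [5, 5]),
  ([], [0, 0, 0, 43, 23]),
  ([([], [([], 0, z0)], [0, 9, 0, 2, 0, 25]), ([55], [([], 0, z34)], [3, 8, 1, 0, 1, 26])], [0]))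
def bIb30 : Key × SegD × SegD := ((6, 2, 0, [5, 5]),
  ([], [0, 0, 0, 43, 23]),
  ([([], [([], 0, z0)], [0, 8, 2, 0, 2, 25]), ([71], [([2], 0, z17)], [0, 0, 1, 1, 26])], [0]))
def bIb31 : Key × SegD × SegD := ((7, 0, 1, [5, 5]),
  ([], [0, 0, 0, 43, 23]),
  ([([], [([], 0, z0)], [0, 9, 0, 1, 10, 25]), ([55], [([], 0, z25)], [8, 2, 0, 10, 8, 42])], [0]))
def bIb32 : Key × SegD × SegD := ((4, 1, 1, [1, 1, 1]),
  ([([], [([0, 0, 0, 2], 0, z31)], [26]), ([], [([], 0, z35)], [0, 26]), ([55], [([], 0, z1)], [0, 26])], [39]),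
  ([], [16, 32]))
def bIb33 : Key × SegD × SegD := ((5, 0, 0, [1, 1, 1]),
  ([([], [([0, 1, 0, 1], 0, z16)], [26]), ([39], [([], 0, z13)], [8, 26]), ([55], [([], 0, z1)], [0, 26])], [39]),
  ([], [16, 32]))
def bIb34 : Key × SegD × SegD := ((5, 0, 1, [1, 1, 2]),
  ([], [0, 0, 0, 43, 23]),
  ([([], [([], 0, z0)], [0, 26]), ([55], [([], 0, z3)], [8, 8, 27]), ([23], [([], 0, z10)], [8, 43])], []))
def bIb35 : Key × SegD × SegD := ((5, 1, 1, [1, 1, 4]),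
  ([], [0, 0, 0, 43, 23]),
  ([([], [([], 0, z0)], [0, 26]), ([55], [([], 0, z3)], [8, 59]), ([], [([8, 0, 0], 0, z30)], [2, 27])], []))
def bIb36 : Key × SegD × SegD := ((6, 0, 0, [1, 1, 4]),
  ([], [0, 0, 0, 43, 23]),
  ([([], [([], 0, z0)], [0, 59]), ([23], [([8, 0, 0], 0, z30)], [1, 27]), ([23], [([], 0, z35)], [0, 59])], []))
def bIb37 : Key × SegD × SegD := ((6, 0, 1, [1, 1, 5]),
  ([([], [([0, 1, 0, 1], 0, z16)], [26]), ([39], [([], 0, z13)], [2, 0, 0, 1, 0, 27]), ([23], [([], 0, z10)], [8, 26])], [39]),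
  ([], [16, 32]))
def bIb38 : Key × SegD × SegD := ((5, 1, 0, [1, 2, 2]),
  ([], [0, 0, 0, 43, 23]),
  ([([], [([], 0, z0)], [0, 25]), ([39], [([8, 10], 0, z9)], [26]), ([], [([], 0, z22)], [0, 0, 42])], [0]))
def bIb39 : Key × SegD × SegD := ((6, 0, 1, [1, 2, 4]),
  ([], [0, 0, 0, 43, 23]),
  ([([], [([], 0, z0)], [0, 26]), ([55], [([], 0, z3)], [8, 8, 27]), ([23], [([], 0, z10)], [8, 1, 0, 1, 26])], [0]))
def bIb40 : Key × SegD × SegD := ((6, 1, 0, [1, 2, 5]),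
  ([], [0, 0, 0, 43, 23]),
  ([([], [([], 0, z0)], [0, 25]), ([39], [([8, 1, 2], 0, z7)], [0, 2, 25]), ([55], [([], 0, z25)], [8, 2, 27])], []))
def bIb41 : Key × SegD × SegD := ((6, 1, 1, [1, 4, 4]),
  ([([], [([0, 0, 1, 0, 1], 0, z23)], [10, 0, 25]), ([87], [([], 0, z27)], [10, 0, 3, 8, 26])], [39]),
  ([([], [([], 0, z0)], [0, 59])], []))
def bIb42 : Key × SegD × SegD := ((7, 0, 0, [1, 4, 4]),
  ([], [0, 0, 0, 43, 23]),
  ([([], [([], 0, z0)], [0, 59]), ([23], [([1, 0, 0], 0, z18)], [0, 43]), ([39], [([], 0, z1)], [0, 1, 0, 1, 26])], [0]))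
def bIb43 : Key × SegD × SegD := ((7, 0, 1, [1, 4, 5]),
  ([], [0, 0, 0, 43, 23]),
  ([([], [([], 0, z0)], [0, 59]), ([23], [([1, 0, 0], 0, z18)], [1, 0, 26]), ([39], [([0, 2], 0, z36)], [8, 10, 27])], []))
def bIb44 : Key × SegD × SegD := ((7, 1, 0, [1, 5, 5]),
  ([], [0, 0, 0, 43, 23]),
  ([([], [([], 0, z0)], [0, 59]), ([23], [([8, 0, 0], 0, z30)], [2, 0, 27]), ([39], [([], 0, z4)], [1, 0, 1, 0, 1, 26])], [0]))
def bIb45 : Key × SegD × SegD := ((5, 1, 1, [2, 2, 2]),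
  ([], [0, 0, 0, 43, 23]),
  ([([], [([], 0, z0)], [0, 0, 42]), ([39], [([], 0, z5)], [9, 0, 42]), ([71], [([1], 0, z8)], [0, 43])], []))
def bIb46 : Key × SegD × SegD := ((6, 0, 0, [2, 2, 2]),
  ([], [0, 0, 0, 43, 23]),
  ([([], [([], 0, z0)], [0, 0, 42]), ([39], [([], 0, z5)], [8, 2, 25]), ([55], [([], 0, z25)], [8, 2, 27])], []))
def bIb47 : Key × SegD × SegD := ((6, 1, 0, [2, 2, 4]),
  ([], [0, 0, 0, 43, 23]),
  ([([], [([], 0, z0)], [0, 0, 42]), ([39], [([], 0, z5)], [8, 2, 8, 1, 25]), ([71], [([1], 0, z37)], [2, 27])], []))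
def bIb48 : Key × SegD × SegD := ((6, 1, 1, [2, 2, 5]),
  ([], [0, 0, 0, 43, 23]),
  ([([], [([], 0, z0)], [0, 0, 42]), ([39], [([], 0, z5)], [0, 1, 25]), ([87], [([11], 0, z13)], [8, 0, 1, 1, 26])], [0]))
def bIb49 : Key × SegD × SegD := ((7, 0, 0, [2, 2, 5]),
  ([], [0, 0, 0, 43, 23]),
  ([([], [([], 0, z0)], [0, 0, 42]), ([39], [([], 0, z5)], [8, 2, 25]), ([55], [([], 0, z25)], [8, 2, 0, 10, 8, 42])], [0]))
def bIb50 : Key × SegD × SegD := ((7, 0, 1, [2, 4, 4]),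
  ([], [0, 0, 0, 43, 23]),
  ([([], [([], 0, z0)], [0, 8, 2, 0, 27]), ([39], [([], 0, z4)], [1, 0, 1, 0, 26]), ([39], [([8, 10], 0, z38)], [27])], []))
def bIb51 : Key × SegD × SegD := ((7, 1, 0, [2, 4, 5]),
  ([], [0, 0, 0, 43, 23]),
  ([([], [([], 0, z0)], [0, 0, 42]), ([39], [([], 0, z5)], [8, 2, 8, 1, 25]), ([87], [([], 0, z39)], [11, 8, 0, 1, 1, 26])], [0]))
def bIb52 : Key × SegD × SegD := ((7, 1, 1, [2, 5, 5]),
  ([], [0, 0, 0, 43, 23]),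
  ([([], [([], 0, z0)], [0, 9, 0, 1, 10, 25]), ([71], [([1], 0, z33)], [0, 26]), ([39], [([0, 2], 0, z36)], [8, 2, 0, 59])], []))
def bIb53 : Key × SegD × SegD := ((8, 0, 0, [2, 5, 5]),
  ([], [0, 0, 0, 43, 23]),
  ([([], [([], 0, z0)], [0, 8, 2, 0, 2, 25]), ([], [([], 0, z15)], [0, 1, 10, 0, 2, 25]), ([55], [([], 0, z25)], [8, 2, 27])], []))
def bIb54 : Key × SegD × SegD := ((7, 1, 1, [4, 4, 4]),
  ([([], [([0, 0, 1, 0, 1], 0, z23)], [10, 0, 25]), ([87], [([], 0, z27)], [10, 0, 3, 8, 26])], [39]),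
  ([([], [([], 0, z0)], [0, 8, 2, 8, 42])], [0]))
def bIb55 : Key × SegD × SegD := ((8, 0, 0, [4, 4, 4]),
  ([], [0, 0, 0, 43, 23]),
  ([([23], [([], 0, z1)], [0, 1, 0, 1, 9, 25]), ([55], [([], 0, z20)], [2, 0, 3, 8, 26]), ([55], [([], 0, z1)], [0, 1, 0, 1, 26])], [0]))
def bIb56 : Key × SegD × SegD := ((8, 0, 1, [4, 4, 5]),
  ([], [0, 0, 0, 43, 23]),
  ([([], [([], 0, z0)], [0, 8, 2, 0, 27]), ([39], [([], 0, z4)], [1, 0, 1, 0, 26]), ([39], [([8, 2, 1], 0, z8)], [0, 1, 26])], [0]))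
def bIb57 : Key × SegD × SegD := ((8, 1, 0, [4, 5, 5]),
  ([], [0, 0, 0, 43, 23]),
  ([([], [([], 0, z0)], [0, 8, 2, 0, 2, 25]), ([], [([], 0, z15)], [0, 1, 10, 0, 59]), ([23], [([], 0, z40)], [10, 0, 0, 0, 2, 27])], []))
def bIb58 : Key × SegD × SegD := ((8, 1, 1, [5, 5, 5]),
  ([], [0, 0, 0, 43, 23]),
  ([([], [([], 0, z0)], [1, 0, 1, 0, 1, 25]), ([71], [([1], 0, z24)], [2, 0, 2, 0, 25]), ([39], [([], 0, z41)], [3, 8, 1, 0, 1, 26])], [0]))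
def bIb59 : Key × SegD × SegD := ((9, 0, 0, [5, 5, 5]),
  ([], [0, 0, 0, 43, 23]),
  ([([], [([], 0, z0)], [0, 8, 2, 0, 2, 25]), ([], [([], 0, z15)], [0, 1, 10, 0, 2, 25]), ([55], [([], 0, z25)], [8, 2, 0, 10, 8, 42])], [0]))
def bIb60 : Key × SegD × SegD := ((5, 0, 1, [1, 1, 1, 1]),
  ([([], [([0, 1, 0, 1], 0, z16)], [26]), ([39], [([], 0, z13)], [8, 26]), ([55], [([], 0, z1)], [0, 26])], [39]),
  ([([], [([], 0, z0)], [0, 59])], []))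
def bIb61 : Key × SegD × SegD := ((6, 0, 1, [1, 1, 1, 4]),
  ([([], [([0, 1, 0, 1], 0, z16)], [26]), ([39], [([], 0, z13)], [8, 26]), ([55], [([], 0, z1)], [0, 26])], [39]),
  ([([], [([], 0, z0)], [0, 8, 2, 8, 42])], [0]))
def bIb62 : Key × SegD × SegD := ((6, 0, 0, [1, 1, 2, 2]),
  ([], [0, 0, 0, 43, 23]),
  ([([], [([], 0, z0)], [0, 0, 42]), ([39], [([], 0, z5)], [0, 42]), ([], [([0, 9], 0, z42)], [25]), ([], [([], 0, z43)], [11, 8, 43])], []))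
def bIb63 : Key × SegD × SegD := ((7, 0, 0, [1, 1, 2, 5]),
  ([], [0, 0, 0, 43, 23]),
  ([([], [([], 0, z0)], [0, 0, 42]), ([39], [([], 0, z5)], [8, 59]), ([23], [([], 0, z40)], [10, 0, 0, 1, 0, 27]), ([23], [([], 0, z10)], [8, 43])], []))
def bIb64 : Key × SegD × SegD := ((7, 0, 1, [1, 1, 4, 4]),
  ([([], [([0, 1, 0, 1], 0, z16)], [26]), ([39], [([], 0, z13)], [8, 9, 0, 1, 25]), ([55], [([], 0, z44)], [2, 0, 3, 8, 26])], [39]),
  ([([], [([], 0, z0)], [0, 59])], []))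
def bIb65 : Key × SegD × SegD := ((8, 0, 0, [1, 1, 5, 5]),
  ([([], [([0, 1, 0, 1], 0, z16)], [25]), ([71], [([0, 2, 0, 2], 0, z36)], [8, 59]), ([23], [([], 0, z45)], [2, 0, 0, 1, 0, 27]), ([23], [([], 0, z10)], [8, 26])], [39]),
  ([], [16, 32]))
def bIb66 : Key × SegD × SegD := ((7, 0, 0, [1, 2, 2, 4]),
  ([], [0, 0, 0, 43, 23]),
  ([([], [([], 0, z0)], [0, 0, 42]), ([39], [([], 0, z5)], [0, 42]), ([], [([0, 9], 0, z42)], [25]), ([55], [([], 0, z44)], [2, 0, 3, 8, 43])], []))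
def bIb67 : Key × SegD × SegD := ((8, 0, 0, [1, 2, 4, 5]),
  ([], [0, 0, 0, 43, 23]),
  ([([], [([], 0, z0)], [0, 59]), ([23], [([1, 0, 0], 0, z18)], [1, 0, 26]), ([39], [([0, 2], 0, z36)], [8, 2, 25]), ([39], [([], 0, z46)], [8, 1, 26])], [0]))
def bIb68 : Key × SegD × SegD := ((8, 0, 1, [1, 4, 4, 4]),
  ([([], [([0, 1, 0, 1], 0, z16)], [26]), ([39], [([], 0, z13)], [8, 9, 0, 1, 25]), ([55], [([], 0, z44)], [2, 0, 3, 8, 26])], [39]),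
  ([([], [([], 0, z0)], [0, 8, 2, 8, 42])], [0]))
def bIb69 : Key × SegD × SegD := ((9, 0, 0, [1, 4, 5, 5]),
  ([], [0, 0, 0, 43, 23]),
  ([([], [([], 0, z0)], [0, 8, 2, 0, 2, 25]), ([], [([], 0, z15)], [0, 27]), ([23], [([], 0, z47)], [0, 8, 1, 10, 0, 25]), ([87], [([], 0, z27)], [10, 0, 3, 8, 43])], []))
def bIb70 : Key × SegD × SegD := ((6, 1, 0, [2, 2, 2, 2]),
  ([], [0, 0, 0, 43, 23]),
  ([([], [([], 0, z0)], [0, 0, 42]), ([39], [([], 0, z5)], [0, 1, 25]), ([71], [([1], 0, z24)], [2, 25]), ([39], [([], 0, z46)], [8, 1, 26])], [0]))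
def bIb71 : Key × SegD × SegD := ((7, 1, 0, [2, 2, 2, 5]),
  ([], [0, 0, 0, 43, 23]),
  ([([], [([], 0, z0)], [0, 0, 42]), ([39], [([], 0, z5)], [8, 2, 25]), ([71], [([1], 0, z33)], [0, 26]), ([39], [([0, 2], 0, z36)], [8, 2, 0, 59])], []))
def bIb72 : Key × SegD × SegD := ((8, 0, 0, [2, 2, 4, 4]),
  ([], [0, 0, 0, 43, 23]),
  ([([], [([], 0, z0)], [0, 0, 42]), ([39], [([], 0, z5)], [8, 2, 8, 1, 25]), ([87], [([], 0, z39)], [11, 8, 26]), ([55], [([], 0, z1)], [0, 1, 0, 1, 26])], [0]))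
def bIb73 : Key × SegD × SegD := ((8, 1, 0, [2, 2, 5, 5]),
  ([], [0, 0, 0, 43, 23]),
  ([([], [([], 0, z0)], [0, 0, 42]), ([39], [([], 0, z5)], [0, 1, 25]), ([71], [([1], 0, z24)], [2, 0, 2, 0, 25]), ([39], [([], 0, z41)], [3, 8, 1, 0, 1, 26])], [0]))
def bIb74 : Key × SegD × SegD := ((9, 0, 0, [2, 4, 4, 5]),
  ([], [0, 0, 0, 43, 23]),
  ([([], [([], 0, z0)], [0, 8, 2, 0, 27]), ([39], [([], 0, z4)], [1, 0, 1, 0, 26]), ([39], [([8, 2, 0, 9], 0, z48)], [10, 25]), ([55], [([], 0, z25)], [8, 2, 27])], []))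
def bIb75 : Key × SegD × SegD := ((9, 1, 0, [2, 5, 5, 5]),
  ([], [0, 0, 0, 43, 23]),
  ([([], [([], 0, z0)], [0, 8, 2, 0, 2, 25]), ([], [([], 0, z15)], [0, 1, 10, 0, 2, 25]), ([71], [([1], 0, z33)], [0, 26]), ([39], [([0, 2], 0, z36)], [8, 2, 0, 59])], []))
def bIb76 : Key × SegD × SegD := ((9, 0, 1, [4, 4, 4, 4]),
  ([], [0, 0, 0, 43, 23]),
  ([([], [([], 0, z0)], [0, 8, 2, 0, 27]), ([39], [([], 0, z4)], [1, 0, 1, 0, 26]), ([39], [([1, 0, 3], 0, z13)], [8, 26]), ([55], [([], 0, z1)], [0, 1, 0, 1, 26])], [0]))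
def bIb77 : Key × SegD × SegD := ((10, 0, 0, [4, 4, 5, 5]),
  ([], [0, 0, 0, 43, 23]),
  ([([], [([], 0, z0)], [0, 8, 2, 0, 2, 25]), ([], [([], 0, z15)], [0, 1, 10, 0, 59]), ([23], [([], 0, z40)], [10, 0, 0, 1, 0, 27]), ([23], [([], 0, z10)], [8, 1, 0, 1, 26])], [0]))
def bIb78 : Key × SegD × SegD := ((10, 1, 0, [5, 5, 5, 5]),
  ([], [0, 0, 0, 43, 23]),
  ([([], [([], 0, z0)], [0, 8, 2, 0, 2, 25]), ([], [([], 0, z15)], [0, 1, 10, 8, 1, 25]), ([71], [([1], 0, z24)], [2, 0, 2, 0, 25]), ([39], [([], 0, z41)], [3, 8, 1, 0, 1, 26])], [0]))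
def tIb : List (Key × SegD × SegD) := [bIb0, bIb1, bIb2, bIb3, bIb4, bIb5, bIb6, bIb7, bIb8, bIb9, bIb10, bIb11, bIb12, bIb13, bIb14, bIb15, bIb16, bIb17, bIb18, bIb19, bIb20, bIb21, bIb22, bIb23, bIb24, bIb25, bIb26, bIb27, bIb28, bIb29, bIb30, bIb31, bIb32, bIb33, bIb34, bIb35, bIb36, bIb37, bIb38, bIb39, bIb40, bIb41, bIb42, bIb43, bIb44, bIb45, bIb46, bIb47, bIb48, bIb49, bIb50, bIb51, bIb52, bIb53, bIb54, bIb55, bIb56, bIb57, bIb58, bIb59, bIb60, bIb61, bIb62, bIb63, bIb64, bIb65, bIb66, bIb67, bIb68, bIb69, bIb70, bIb71, bIb72, bIb73, bIb74, bIb75, bIb76, bIb77, bIb78]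
def bII0 : Key × SegD × SegD := ((0, 4, 4, []),
  ([], [0, 0, 0, 18, 2, 55]),
  ([], []))
def bII1 : Key × SegD × SegD := ((1, 2, 5, []),
  ([], [0, 0, 0, 18, 2, 55]),
  ([], [32]))
def bII2 : Key × SegD × SegD := ((1, 3, 3, []),
  ([], [0, 0, 1, 18, 55]),
  ([], []))
def bII3 : Key × SegD × SegD := ((2, 0, 6, []),
  ([], [0, 0, 1, 17, 17, 10]),
  ([], [32]))
def bII4 : Key × SegD × SegD := ((2, 1, 4, []),
  ([], [0, 0, 1, 18, 55]),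
  ([], [32]))
def bII5 : Key × SegD × SegD := ((2, 2, 2, []),
  ([], [0, 0, 1, 18, 55]),
  ([], [16]))
def bII6 : Key × SegD × SegD := ((0, 2, 9, [1]),
  ([], [0, 0, 0, 18, 2, 55]),
  ([([], [([], 0, z47), ([], 1, z49), ([], 2, z50)], [0, 25])], [0, 9, 25, 9, 25, 17, 17, 26]))
def bII7 : Key × SegD × SegD := ((0, 3, 7, [1]),
  ([], [0, 0, 0, 18, 2, 55]),
  ([([], [([], 0, z47), ([], 1, z49), ([], 2, z50)], [0, 48, 18])], [1]))
def bII8 : Key × SegD × SegD := ((0, 5, 3, [1]),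
  ([], [0, 0, 0, 18, 2, 55]),
  ([([], [([], 0, z47), ([], 1, z49), ([], 2, z50)], [0, 26])], []))
def bII9 : Key × SegD × SegD := ((1, 0, 10, [1]),
  ([], [0, 0, 1, 17, 17, 10]),
  ([([], [([], 0, z47), ([], 1, z49), ([], 2, z50)], [0, 25])], [0, 9, 25, 9, 25, 17, 17, 26]))
def bII10 : Key × SegD × SegD := ((1, 1, 8, [1]),
  ([], [0, 0, 1, 17, 17, 10]),
  ([([], [([], 0, z47), ([], 1, z49), ([], 2, z50)], [0, 48, 18])], [1]))
def bII11 : Key × SegD × SegD := ((1, 4, 2, [1]),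
  ([], [0, 0, 1, 18, 55]),
  ([([], [([], 0, z47), ([], 1, z49), ([], 2, z50)], [0, 26])], []))
def bII12 : Key × SegD × SegD := ((2, 3, 1, [1]),
  ([], [0, 0, 1, 18, 55]),
  ([([], [([], 0, z47), ([], 1, z49), ([], 2, z50)], [0, 48, 33])], []))
def bII13 : Key × SegD × SegD := ((3, 0, 4, [1]),
  ([([], [([0, 1, 0, 1], 0, z16), ([], 1, z51), ([18, 55], 2, z50)], [25])], [15]),
  ([], [32]))
def bII14 : Key × SegD × SegD := ((3, 1, 3, [2]),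
  ([], [0, 0, 1, 18, 55]),
  ([([], [([], 0, z47), ([], 1, z49), ([], 2, z50)], [0, 8, 42])], [16]))
def bII15 : Key × SegD × SegD := ((3, 3, 1, [4]),
  ([], [0, 0, 1, 18, 55]),
  ([([], [([], 0, z47), ([], 1, z49), ([], 2, z50)], [8, 0, 2, 8, 59])], []))
def bII16 : Key × SegD × SegD := ((4, 0, 4, [4]),
  ([([], [([0, 0, 1, 0, 1], 0, z23), ([], 1, z52), ([18, 8, 39], 2, z53)], [10, 25])], [26, 47]),
  ([], [32]))
def bII17 : Key × SegD × SegD := ((4, 1, 3, [5]),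
  ([], [0, 0, 1, 18, 55]),
  ([([], [([], 0, z47), ([], 1, z49), ([], 2, z50)], [0, 8, 1, 10, 8, 42])], []))
def bII18 : Key × SegD × SegD := ((0, 0, 14, [1, 1]),
  ([([0, 0, 16, 9, 25, 25, 17, 18, 0, 23], [([2, 0, 18, 0, 87], 0, z54), ([11], 1, z55), ([], 2, z56)], [8, 26])], [63]),
  ([([], [([], 0, z47), ([], 1, z49), ([], 2, z50)], [0, 25])], [0, 9, 25, 9, 25, 17, 17, 26]))
def bII19 : Key × SegD × SegD := ((0, 1, 12, [1, 1]),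
  ([([], [([0, 0, 16, 17, 25, 26, 55], 0, z21), ([], 1, z57), ([], 2, z58)], [2, 0, 25])], [10, 47]),
  ([([], [([], 0, z47), ([], 1, z49), ([], 2, z50)], [0, 25])], [0, 9, 25, 9, 25, 17, 17, 26]))
def bII20 : Key × SegD × SegD := ((0, 6, 2, [1, 1]),
  ([([], [([0, 0, 0, 18, 25, 39], 0, z59), ([], 1, z60), ([18, 55], 2, z61)], [25])], [39]),
  ([([], [([], 0, z47), ([], 1, z49), ([], 2, z50)], [0, 26])], []))
def bII21 : Key × SegD × SegD := ((1, 5, 1, [1, 1]),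
  ([([], [([0, 2], 1, z62), ([], 2, z63), ([0, 0], 0, z64)], [25])], [10, 47]),
  ([([], [([], 0, z47), ([], 1, z49), ([], 2, z50)], [0, 26])], []))
def bII22 : Key × SegD × SegD := ((2, 4, 0, [1, 1]),
  ([([], [([0, 2], 1, z62), ([], 2, z63), ([0, 0], 0, z64)], [25])], [10, 47]),
  ([([], [([], 0, z47), ([], 1, z49), ([], 2, z50)], [0, 48, 33])], []))
def bII23 : Key × SegD × SegD := ((3, 1, 3, [1, 1]),
  ([([], [([0, 1, 0, 1], 0, z16), ([], 1, z51), ([18, 55], 2, z50)], [25])], [15]),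
  ([([], [([], 0, z47), ([], 1, z49), ([], 2, z50)], [2, 25])], []))
def bII24 : Key × SegD × SegD := ((3, 4, 0, [1, 4]),
  ([([], [([0, 2], 1, z62), ([], 2, z63), ([0, 0], 0, z64)], [25])], [10, 47]),
  ([([], [([], 0, z47), ([], 1, z49), ([], 2, z50)], [8, 0, 2, 8, 59])], []))
def bII25 : Key × SegD × SegD := ((4, 1, 3, [1, 4]),
  ([([], [([0, 1, 0, 1], 0, z16), ([], 1, z51), ([18, 55], 2, z50)], [25])], [15]),
  ([([], [([], 0, z47), ([], 1, z49), ([], 2, z50)], [9, 0, 1, 0, 42])], []))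
def bII26 : Key × SegD × SegD := ((3, 3, 1, [2, 2]),
  ([([], [([0, 1, 2], 1, z62), ([], 2, z63), ([0, 0], 0, z64)], [25])], [10, 47]),
  ([([], [([], 0, z47), ([], 1, z49), ([], 2, z50)], [8, 1, 59])], []))
def bII27 : Key × SegD × SegD := ((4, 0, 4, [2, 2]),
  ([([], [([0, 1, 0, 1], 0, z16), ([], 1, z51), ([0, 18, 71], 2, z65)], [25])], [10]),
  ([([], [([], 0, z47), ([], 1, z49), ([], 2, z50)], [0, 8, 42])], [16]))
def bII28 : Key × SegD × SegD := ((3, 4, 0, [2, 3]),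
  ([([], [([0, 2], 1, z62), ([], 2, z63), ([0, 8, 8], 0, z66)], [26])], [18]),
  ([([], [([], 0, z47), ([], 1, z49), ([], 2, z50)], [0, 0, 1, 43])], []))
def bII29 : Key × SegD × SegD := ((4, 3, 1, [2, 5]),
  ([], [0, 0, 1, 18, 55]),
  ([([], [([], 0, z47), ([], 1, z49), ([], 2, z50)], [0, 8, 42]), ([], [([], 0, z67), ([], 1, z68), ([], 2, z69)], [0, 2, 0, 2, 0, 25])], []))
def bII30 : Key × SegD × SegD := ((5, 0, 4, [2, 5]),
  ([([], [([0, 1, 0, 1], 0, z16), ([], 1, z51), ([0, 3, 2], 2, z63)], [0, 25]), ([55], [([], 0, z70), ([8, 2], 1, z49), ([], 2, z50)], [25])], [15]),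
  ([], [32]))
def bII31 : Key × SegD × SegD := ((4, 4, 0, [2, 6]),
  ([([], [([0, 2], 1, z62), ([], 2, z63), ([0, 8, 8], 0, z66)], [26])], [18]),
  ([([], [([], 0, z47), ([], 1, z49), ([], 2, z50)], [8, 0, 2, 8, 2, 0, 25])], []))
def bII32 : Key × SegD × SegD := ((4, 4, 0, [3, 5]),
  ([([], [([0, 2], 1, z62), ([], 2, z63), ([9, 0, 16, 71], 0, z71)], [1, 0, 27])], [23]),
  ([([], [([], 0, z47), ([], 1, z49), ([], 2, z50)], [0, 8, 1, 2, 8, 42])], [0]))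
def bII33 : Key × SegD × SegD := ((4, 4, 0, [4, 4]),
  ([([], [([0, 1, 1], 1, z72), ([8], 0, z64), ([1], 2, z73)], [0, 10, 25])], [26, 47]),
  ([([], [([], 0, z47), ([], 1, z49), ([], 2, z50)], [8, 0, 2, 8, 59])], []))
def bII34 : Key × SegD × SegD := ((5, 1, 3, [4, 4]),
  ([([], [([0, 0, 0, 1, 10], 0, z21), ([], 1, z57), ([], 2, z58)], [2, 0, 25])], [10, 47]),
  ([([], [([], 0, z47), ([], 1, z49), ([], 2, z50)], [0, 8, 2, 8, 42])], [0]))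
def bII35 : Key × SegD × SegD := ((5, 3, 1, [5, 5]),
  ([], [0, 0, 1, 18, 55]),
  ([([], [([], 0, z47), ([], 1, z49), ([], 2, z50)], [0, 2, 0, 0, 1, 25]), ([55], [([1, 2], 0, z36), ([], 1, z74), ([], 2, z75)], [8, 2, 0, 59])], []))
def bII36 : Key × SegD × SegD := ((6, 0, 4, [5, 5]),
  ([([], [([0, 1, 0, 2], 1, z76), ([2], 2, z63), ([0, 8, 8], 0, z66)], [26])], [18]),
  ([([], [([], 0, z47), ([], 1, z49), ([], 2, z50)], [0, 8, 1, 10, 8, 42])], []))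
def bII37 : Key × SegD × SegD := ((5, 4, 0, [5, 6]),
  ([([], [([0, 2], 1, z62), ([], 2, z63), ([9, 0, 0], 0, z18)], [1, 0, 9, 2, 25])], [26, 47]),
  ([([], [([], 0, z47), ([], 1, z49), ([], 2, z50)], [0, 8, 1, 2, 8, 42])], [0]))
def bII38 : Key × SegD × SegD := ((0, 7, 1, [1, 1, 1]),
  ([([], [([0, 0, 0, 18, 25, 39], 0, z59), ([], 1, z60), ([18, 55], 2, z61)], [25])], [39]),
  ([([], [([], 0, z47), ([], 1, z49), ([], 2, z50)], [0, 25]), ([71], [([], 0, z77), ([8, 49, 55], 1, z78), ([], 2, z79)], [25])], []))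
def bII39 : Key × SegD × SegD := ((1, 6, 0, [1, 1, 1]),
  ([([], [([0, 2], 1, z62), ([], 2, z63), ([0, 0], 0, z64)], [25])], [10, 47]),
  ([([], [([], 0, z47), ([], 1, z49), ([], 2, z50)], [0, 25]), ([71], [([], 0, z77), ([8, 49, 55], 1, z78), ([], 2, z79)], [25])], []))
def bII40 : Key × SegD × SegD := ((3, 4, 0, [1, 2, 2]),
  ([([], [([0, 2], 1, z62), ([], 2, z63), ([0, 0], 0, z64)], [0, 27]), ([23], [([], 0, z80), ([9], 1, z81), ([], 2, z61)], [25])], [39]),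
  ([([], [([], 0, z47), ([], 1, z49), ([], 2, z50)], [8, 1, 59])], []))
def bII41 : Key × SegD × SegD := ((4, 4, 0, [1, 2, 5]),
  ([([], [([0, 2], 1, z62), ([], 2, z63), ([9, 0, 0], 0, z18)], [1, 0, 9, 59]), ([], [([], 0, z28), ([], 1, z55), ([], 2, z56)], [8, 26])], [63]),
  ([([], [([], 0, z47), ([], 1, z49), ([], 2, z50)], [8, 1, 59])], []))
def bII42 : Key × SegD × SegD := ((5, 4, 0, [1, 5, 5]),
  ([([], [([0, 2], 1, z62), ([], 2, z63), ([9, 0, 0], 0, z18)], [1, 0, 9, 59]), ([], [([], 0, z28), ([], 1, z55), ([], 2, z56)], [8, 26])], [63]),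
  ([([], [([], 0, z47), ([], 1, z49), ([], 2, z50)], [0, 8, 1, 2, 8, 42])], [0]))
def bII43 : Key × SegD × SegD := ((4, 4, 0, [2, 2, 4]),
  ([([], [([0, 2], 1, z62), ([], 2, z63), ([0, 8, 8], 0, z66)], [26]), ([55], [([9], 1, z82), ([2], 0, z47), ([], 2, z50)], [25])], [15]),
  ([([], [([], 0, z47), ([], 1, z49), ([], 2, z50)], [8, 0, 2, 8, 59])], []))
def bII44 : Key × SegD × SegD := ((5, 4, 0, [2, 4, 5]),
  ([([], [([0, 2], 1, z62), ([], 2, z63), ([0, 8, 8], 0, z66)], [3, 8, 0, 27]), ([23], [([], 0, z80), ([0, 2], 1, z49), ([], 2, z50)], [25])], [15]),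
  ([([], [([], 0, z47), ([], 1, z49), ([], 2, z50)], [8, 0, 2, 8, 59])], []))
def bII45 : Key × SegD × SegD := ((6, 4, 0, [4, 5, 5]),
  ([([], [([0, 1, 1], 1, z72), ([8], 0, z64), ([1], 2, z73)], [0, 10, 25])], [26, 47]),
  ([([], [([], 0, z47), ([], 1, z49), ([], 2, z50)], [0, 2, 0, 0, 1, 25]), ([55], [([1, 2], 0, z36), ([], 1, z74), ([], 2, z75)], [8, 2, 0, 59])], []))
def bII46 : Key × SegD × SegD := ((0, 8, 0, [1, 1, 1, 1]),
  ([([], [([0, 0, 18, 0, 0, 18, 55], 1, z83), ([], 2, z84), ([8, 10], 0, z85)], [25]), ([], [([], 0, z15), ([10], 1, z49), ([], 2, z50)], [25])], [15]),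
  ([([], [([], 0, z47), ([], 1, z49), ([], 2, z50)], [0, 25]), ([71], [([], 0, z77), ([8, 49, 55], 1, z78), ([], 2, z79)], [25])], []))
def bII47 : Key × SegD × SegD := ((4, 4, 0, [2, 2, 2, 2]),
  ([([], [([0, 2], 1, z62), ([], 2, z63), ([0, 8, 8], 0, z66)], [26]), ([55], [([9], 1, z82), ([2], 0, z47), ([], 2, z50)], [25])], [15]),
  ([([], [([], 0, z47), ([], 1, z49), ([], 2, z50)], [0, 8, 42]), ([], [([], 0, z67), ([], 1, z68), ([], 2, z69)], [16, 42, 16, 17])], []))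
def bII48 : Key × SegD × SegD := ((5, 4, 0, [2, 2, 2, 5]),
  ([([], [([0, 2], 1, z62), ([], 2, z63), ([0, 8, 8], 0, z66)], [26]), ([55], [([9], 1, z82), ([2], 0, z47), ([], 2, z50)], [25])], [15]),
  ([([], [([], 0, z47), ([], 1, z49), ([], 2, z50)], [0, 8, 42]), ([], [([], 0, z67), ([], 1, z68), ([], 2, z69)], [0, 2, 0, 2, 0, 25])], []))
def bII49 : Key × SegD × SegD := ((6, 4, 0, [2, 2, 5, 5]),
  ([([], [([0, 2], 1, z62), ([], 2, z63), ([0, 8, 8], 0, z66)], [3, 8, 0, 27]), ([23], [([], 0, z80), ([0, 2], 1, z49), ([], 2, z50)], [25])], [15]),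
  ([([], [([], 0, z47), ([], 1, z49), ([], 2, z50)], [0, 8, 42]), ([], [([], 0, z67), ([], 1, z68), ([], 2, z69)], [0, 2, 0, 2, 0, 25])], []))
def bII50 : Key × SegD × SegD := ((7, 4, 0, [2, 5, 5, 5]),
  ([([], [([0, 2], 1, z62), ([], 2, z63), ([0, 8, 8], 0, z66)], [3, 8, 0, 27]), ([23], [([], 0, z80), ([0, 2], 1, z49), ([], 2, z50)], [25])], [15]),
  ([([], [([], 0, z47), ([], 1, z49), ([], 2, z50)], [0, 2, 0, 0, 1, 25]), ([55], [([1, 2], 0, z36), ([], 1, z74), ([], 2, z75)], [8, 2, 0, 59])], []))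
def bII51 : Key × SegD × SegD := ((8, 4, 0, [5, 5, 5, 5]),
  ([([], [([0, 0, 1, 1], 0, z26), ([0, 9], 2, z86), ([9], 1, z87)], [9, 25]), ([55], [([], 0, z20), ([2], 1, z74), ([], 2, z75)], [0, 3, 8, 0, 33, 19])], [31]),
  ([([], [([], 0, z47), ([], 1, z49), ([], 2, z50)], [0, 2, 0, 0, 1, 25]), ([55], [([1, 2], 0, z36), ([], 1, z74), ([], 2, z75)], [8, 2, 0, 59])], []))
def tII : List (Key × SegD × SegD) := [bII0, bII1, bII2, bII3, bII4, bII5, bII6, bII7, bII8, bII9, bII10, bII11, bII12, bII13, bII14, bII15, bII16, bII17, bII18, bII19, bII20, bII21, bII22, bII23, bII24, bII25, bII26, bII27, bII28, bII29, bII30, bII31, bII32, bII33, bII34, bII35, bII36, bII37, bII38, bII39, bII40, bII41, bII42, bII43, bII44, bII45, bII46, bII47, bII48, bII49, bII50, bII51]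
def gII0 : Key × SegD := ((0, 0, 1, [1]),
  ([([], [([], 0, z47), ([], 1, z49), ([], 2, z50)], [0, 25])], [10, 47]))
def gII1 : Key × SegD := ((0, 1, 0, [2]),
  ([([], [([], 0, z47), ([], 1, z49), ([], 2, z50)], [0, 9, 25])], [10]))
def gII2 : Key × SegD := ((0, 1, 0, [1, 1]),
  ([([], [([], 0, z47), ([], 1, z49), ([], 2, z50)], [0, 26]), ([39], [([], 0, z28), ([], 1, z55), ([], 2, z56)], [8, 26])], [63]))
def gII3 : Key × SegD := ((1, 0, 0, [3]),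
  ([([], [([], 0, z47), ([], 1, z49), ([], 2, z50)], [0, 8, 10, 25])], [26, 47]))
def gII4 : Key × SegD := ((2, 0, 0, [6]),
  ([([], [([], 0, z47), ([], 1, z49), ([], 2, z50)], [0, 8, 1, 10, 8, 34, 48, 33, 19])], [31]))
def gII5 : Key × SegD := ((1, 0, 0, [1, 2]),
  ([([], [([], 0, z47), ([], 1, z49), ([], 2, z50)], [0, 8, 27]), ([39], [([], 0, z11), ([], 1, z88), ([], 2, z89)], [0, 26])], [63]))
def gII6 : Key × SegD := ((2, 0, 0, [1, 5]),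
  ([([], [([], 0, z47), ([], 1, z49), ([], 2, z50)], [0, 59]), ([], [([8, 10], 1, z62), ([], 2, z63), ([0, 8, 8], 0, z66)], [26])], [18]))
def gII7 : Key × SegD := ((2, 0, 0, [2, 4]),
  ([([], [([], 0, z47), ([], 1, z49), ([], 2, z50)], [0, 8, 42]), ([], [([], 0, z67), ([], 1, z68), ([], 2, z69)], [8, 3, 8, 0, 33, 19])], [31]))
def gII8 : Key × SegD := ((3, 0, 0, [4, 5]),
  ([([], [([], 0, z47), ([], 1, z49), ([], 2, z50)], [0, 8, 10, 8, 42]), ([39], [([8, 9], 0, z48), ([], 1, z90), ([17, 87], 2, z91)], [11, 8, 0, 33, 19])], [31]))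
def gII9 : Key × SegD := ((1, 0, 0, [1, 1, 1]),
  ([([], [([], 0, z47), ([], 1, z49), ([], 2, z50)], [0, 25]), ([23], [([], 0, z7), ([], 1, z92), ([0, 49, 55], 2, z79)], [3, 8, 26]), ([39], [([], 0, z28), ([], 1, z55), ([], 2, z56)], [8, 26])], [63]))
def gII10 : Key × SegD := ((2, 0, 0, [1, 1, 4]),
  ([([], [([], 0, z47), ([], 1, z49), ([], 2, z50)], [0, 59]), ([], [([8, 10], 1, z62), ([], 2, z63), ([0, 0], 0, z64)], [42]), ([], [([], 0, z17), ([16, 18, 39], 1, z55), ([], 2, z56)], [8, 26])], [63]))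
def gII11 : Key × SegD := ((3, 0, 0, [1, 4, 4]),
  ([([], [([], 0, z47), ([], 1, z49), ([], 2, z50)], [0, 8, 10, 8, 42]), ([39], [([8, 9], 0, z48), ([], 1, z90), ([17, 87], 2, z91)], [11, 8, 26]), ([39], [([], 0, z28), ([], 1, z55), ([], 2, z56)], [8, 26])], [63]))
def gII12 : Key × SegD := ((4, 0, 0, [4, 4, 4]),
  ([([], [([], 0, z47), ([], 1, z49), ([], 2, z50)], [0, 8, 1, 10, 25]), ([71], [([9, 0, 9], 0, z19), ([], 2, z86), ([9], 1, z87)], [25]), ([55], [([], 0, z20), ([2], 1, z74), ([], 2, z75)], [0, 3, 8, 0, 33, 19])], [31]))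
def gII13 : Key × SegD := ((2, 0, 0, [2, 2, 2]),
  ([([], [([], 0, z47), ([], 1, z49), ([], 2, z50)], [0, 8, 42]), ([], [([], 0, z67), ([], 1, z68), ([], 2, z69)], [0, 2, 25]), ([71], [([1, 16, 87], 0, z54), ([11], 1, z55), ([], 2, z56)], [8, 26])], [63]))
def gII14 : Key × SegD := ((3, 0, 0, [2, 2, 5]),
  ([([], [([], 0, z47), ([], 1, z49), ([], 2, z50)], [0, 8, 42]), ([], [([], 0, z67), ([], 1, z68), ([], 2, z69)], [8, 3, 42]), ([], [([0, 10], 1, z62), ([], 2, z63), ([0, 8, 8], 0, z66)], [26])], [18]))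
def gII15 : Key × SegD := ((4, 0, 0, [2, 5, 5]),
  ([([], [([], 0, z47), ([], 1, z49), ([], 2, z50)], [0, 8, 1, 10, 8, 42]), ([55], [([], 0, z93), ([9, 0, 11, 2], 1, z62), ([], 2, z63)], [0, 25]), ([55], [([], 0, z70), ([8, 2], 1, z49), ([], 2, z50)], [25])], [15]))
def gII16 : Key × SegD := ((5, 0, 0, [5, 5, 5]),
  ([([], [([], 0, z47), ([], 1, z49), ([], 2, z50)], [0, 8, 1, 10, 8, 42]), ([55], [([], 0, z93), ([9, 0, 11, 2], 1, z62), ([], 2, z63)], [0, 25]), ([55], [([], 0, z70), ([8, 2], 1, z49), ([], 2, z50)], [0, 8, 10, 25])], [26, 47]))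
def uII : List (Key × SegD) := [gII0, gII1, gII2, gII3, gII4, gII5, gII6, gII7, gII8, gII9, gII10, gII11, gII12, gII13, gII14, gII15, gII16]
def bIII0 : Key × SegD × SegD := ((0, 5, 2, []),
  ([], [0, 0, 0, 17, 1, 18, 55]),
  ([], [17]))
def bIII1 : Key × SegD × SegD := ((0, 6, 0, []),
  ([], [0, 0, 0, 17, 1, 18, 55]),
  ([], [16, 17]))
def bIII2 : Key × SegD × SegD := ((1, 4, 1, []),
  ([], [0, 0, 0, 17, 1, 18, 55]),
  ([], [16]))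
def bIII3 : Key × SegD × SegD := ((0, 6, 1, [1]),
  ([], [0, 0, 0, 17, 1, 18, 55]),
  ([([], [([], 1, z57)], [0, 27])], []))
def bIII4 : Key × SegD × SegD := ((1, 5, 0, [1]),
  ([], [0, 0, 0, 17, 1, 18, 55]),
  ([([], [([], 1, z57)], [9, 59])], []))
def bIII5 : Key × SegD × SegD := ((2, 4, 0, [2]),
  ([([], [([0, 0, 0, 1, 10], 1, z57)], [25])], [15]),
  ([], [16, 17]))
def bIII6 : Key × SegD × SegD := ((0, 7, 0, [1, 1]),
  ([], [0, 0, 0, 17, 1, 18, 55]),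
  ([([], [([], 1, z57)], [0, 26]), ([39], [([], 1, z74)], [0, 25])], []))
def tIII : List (Key × SegD × SegD) := [bIII0, bIII1, bIII2, bIII3, bIII4, bIII5, bIII6]
def gIII0 : Key × SegD := ((0, 1, 0, [2]),
  ([([], [([], 1, z57)], [0, 9, 25])], [9, 18, 71]))
def uIII : List (Key × SegD) := [gIII0]
def bIV0 : Key × SegD × SegD := ((0, 0, 12, []),
  ([], [0, 0, 16, 9, 25, 25, 17, 9, 25, 17, 39]),
  ([], [34]))
def bIV1 : Key × SegD × SegD := ((0, 1, 10, []),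
  ([], [0, 0, 16, 9, 25, 25, 17, 9, 25, 17, 39]),
  ([], []))
def bIV2 : Key × SegD × SegD := ((0, 2, 8, []),
  ([], [0, 0, 0, 17, 17, 17, 33, 25, 17, 39]),
  ([], []))
def bIV3 : Key × SegD × SegD := ((0, 3, 6, []),
  ([], [0, 0, 16, 9, 17, 17, 17, 1, 15]),
  ([], []))
def bIV4 : Key × SegD × SegD := ((1, 0, 9, []),
  ([], [0, 0, 16, 9, 25, 25, 17, 9, 25, 17, 39]),
  ([], [34, 16]))
def bIV5 : Key × SegD × SegD := ((1, 1, 7, []),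
  ([], [0, 0, 1, 48, 33, 25, 1, 15]),
  ([], [34]))
def bIV6 : Key × SegD × SegD := ((0, 0, 13, [1]),
  ([], [0, 0, 16, 9, 25, 25, 17, 9, 25, 17, 39]),
  ([([], [([], 2, z94)], [1, 49, 18])], []))
def bIV7 : Key × SegD × SegD := ((0, 1, 11, [1]),
  ([([], [([0, 0, 0, 17, 17, 25, 9, 25, 25, 55], 2, z95)], [9, 25])], [39]),
  ([], [34]))
def tIV : List (Key × SegD × SegD) := [bIV0, bIV1, bIV2, bIV3, bIV4, bIV5, bIV6, bIV7]
def bV0 : Key × SegD × SegD := ((3, 4, 0, [5]),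
  ([([], [([0, 0, 16, 42, 39], 1, z96), ([8, 3, 8], 0, z18)], [0, 1, 26])], [47]),
  ([], [16, 17]))
def bV1 : Key × SegD × SegD := ((4, 4, 0, [8]),
  ([([], [([0, 0, 0, 2], 0, z31), ([0, 2], 1, z97)], [0, 3, 8, 0, 1, 26])], [47]),
  ([], [16, 17]))
def tV : List (Key × SegD × SegD) := [bV0, bV1]
def bX0 : SegD × SegD := (([], []),
  ([], [0, 0, 1, 48, 16, 0, 50, 64, 17, 65, 18, 0, 17, 2, 16, 59]))
def bX1 : SegD × SegD := (([], [0, 0, 1, 48, 16, 0, 16, 0, 1, 15]),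
  ([], [32, 17, 1, 98, 64, 34, 25, 43, 3]))
def bX2 : SegD × SegD := (([], [0, 0, 1, 48, 1, 15]),
  ([], [16, 34, 25, 16, 43]))
def pB : List ℕ := [49, 17, 55]
def pC : List ℕ := [49, 39]
def pW4 : List ℕ := [65, 39]
def pW5 : List ℕ := [81, 39]
def pX1 : List ℕ := [65, 81, 39]
def pX2 : List ℕ := [33, 49, 39]

end Pool.Agent.P.MP_b50a78_co
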