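import Pool.Agent.P.MP_b50a78_co.ThmA

set_option autoImplicit false

namespace Pool.Agent.P.MP_b50a78_co

open MeasureTheory

theorem mem_hull_level {S : Set E} (A : E →ₗ[ℝ] ℝ) (r : ℝ) (h : ∀ p ∈ S, A p ≤ r) {z : E}
    (hz : z ∈ convexHull ℝ S) (he : A z = r) : z ∈ convexHull ℝ {p | p ∈ S ∧ A p = r} := by
  have : convexHull ℝ S ⊆ {w | A w ≤ r ∧ (A w = r → w ∈ convexHull ℝ {p | p ∈ S ∧ A p = r})} := by
    apply convexHull_min
    · intro p hp
      exact ⟨h p hp, fun e => subset_convexHull ℝ _ ⟨hp, e⟩⟩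
    · rw [convex_iff_openSegment_subset]
      intro u hu v hv w hw
      constructor
      · exact (convex_halfSpace_le A.isLinear r).openSegment_subset hu.1 hv.1 hw
      · intro e
        have e1 := eq_of_openSegment A r hu.1 hv.1 e hw
        have e2 := eq_of_openSegment A r hv.1 hu.1 e (by rwa [openSegment_symm])
        exact (convex_convexHull ℝ _).openSegment_subset (hu.2 e1) (hv.2 e2) hw
  exact (this hz).2 he

theorem exists_generic (U : Set E) (hU : IsOpen U) (hne : U.Nonempty) (P : Finset E) (z : E) :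
    ∃ o ∈ U, ∀ p ∈ P, ∀ q ∈ P, o - z ∉ Submodule.span ℝ ({p - z, q - z} : Set E) := by
  classical
  by_contra hcon
  push Not at hcon
  have hV : IsOpen ((fun w : E => w + z) ⁻¹' U) := hU.preimage (by fun_prop)
  have hVne : ((fun w : E => w + z) ⁻¹' U).Nonempty := by
    obtain ⟨o, ho⟩ := hne
    exact ⟨o - z, by simpa using ho⟩
  have hsub : ((fun w : E => w + z) ⁻¹' U) ⊆ ⋃ pq ∈ ((P ×ˢ P : Finset (E × E)) : Set (E × E)),
      (Submodule.span ℝ ({pq.1 - z, pq.2 - z} : Set E) : Set E) := by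
    intro w hw
    obtain ⟨p, hp, q, hq, hm⟩ := hcon (w + z) hw
    simp only [Set.mem_iUnion]
    exact ⟨(p, q), by simp [hp, hq], by simpa using hm⟩
  have h0 : volume (⋃ pq ∈ ((P ×ˢ P : Finset (E × E)) : Set (E × E)),
      (Submodule.span ℝ ({pq.1 - z, pq.2 - z} : Set E) : Set E)) = 0 := by
    rw [measure_biUnion_null_iff (Finset.countable_toSet _)]
    intro pq _
    apply Measure.addHaar_submodule
    apply ne_of_lt
    apply span_lt_top_of_card_lt_finrank
    rw [finrank_E]
    have : ({pq.1 - z, pq.2 - z} : Set E).toFinset.card ≤ 2 := by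
      rw [Set.toFinset_insert, Set.toFinset_singleton]
      exact Finset.card_le_two
    omega
  exact (hV.measure_pos volume hVne).ne' (measure_mono_null hsub h0)

theorem exists_face_of_not_mem (P : Finset E)
    (hint : (interior (convexHull ℝ (↑P : Set E))).Nonempty) {z : E}
    (hz : z ∉ convexHull ℝ (↑P : Set E)) :
    ∃ F, IsFace (convexHull ℝ (↑P : Set E)) F ∧ ∃ o ∈ interior (convexHull ℝ (↑P : Set E)),
      ∃ y ∈ F, y ∈ openSegment ℝ o z := by
  set K := convexHull ℝ (↑P : Set E) with hK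
  have hcl : IsClosed K := (P.finite_toSet.isCompact_convexHull ℝ).isClosed
  obtain ⟨o, ho, hgen⟩ := exists_generic (interior K) isOpen_interior hint P z
  obtain ⟨y, hy1, hy2, hy3⟩ : ∃ y ∈ segment ℝ o z, y ∈ K ∧ y ∉ interior K := by
    by_contra hcon
    push Not at hcon
    have := (convex_segment o z).isPreconnected.subset_left_of_subset_union isOpen_interior
      hcl.isOpen_compl (Set.disjoint_left.2 (fun a ha hb => hb (interior_subset ha)))
      (fun y hy => by
        by_cases h : y ∈ K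
        · exact Or.inl (hcon y hy h)
        · exact Or.inr h) ⟨o, left_mem_segment ℝ o z, ho⟩
    exact hz (interior_subset (this (right_mem_segment ℝ o z)))
  have hyo : y ∈ openSegment ℝ o z :=
    mem_openSegment_of_ne_left_right (fun e => hy3 (e ▸ ho)) (fun e => hz (e ▸ hy2)) hy1
  obtain ⟨f, hf0, hf⟩ := geometric_hahn_banach_of_nonempty_interior_point
    (convex_convexHull ℝ _) hy3 hint
  refine ⟨{x | x ∈ K ∧ ∀ w ∈ K, f w ≤ f x}, ⟨f, hf0, rfl, ?_⟩, o, ho, y, ⟨hy2, hf⟩, hyo⟩
  set F := {x | x ∈ K ∧ ∀ w ∈ K, f w ≤ f x} with hF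
  have hFe : ∀ x ∈ F, (f : E →ₗ[ℝ] ℝ) x = f y := fun x hx => le_antisymm (hf x hx.1) (hx.2 y hy2)
  have hfl : (f : E →ₗ[ℝ] ℝ) ≠ 0 := by
    intro h0
    apply hf0
    ext1 v
    exact congrArg (fun g : E →ₗ[ℝ] ℝ => g v) h0
  have h2 : Module.finrank ℝ (vectorSpan ℝ F) ≤ 2 := by
    rw [← finrank_ker hfl]
    exact Submodule.finrank_mono (vectorSpan_le_ker _ _ hFe)
  by_contra hne
  have h1 : Module.finrank ℝ (vectorSpan ℝ F) ≤ 1 := by omega
  have hyc := mem_hull_level (f : E →ₗ[ℝ] ℝ) (f y) (fun p hp => hf p (subset_convexHull ℝ _ hp))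
    hy2 rfl
  have hPF : ∀ p, p ∈ (↑P : Set E) ∧ (f : E →ₗ[ℝ] ℝ) p = f y → p ∈ F := fun p hp =>
    ⟨subset_convexHull ℝ _ hp.1, fun w hw => (hf w hw).trans (le_of_eq hp.2.symm)⟩
  obtain ⟨p, hp⟩ : {p | p ∈ (↑P : Set E) ∧ (f : E →ₗ[ℝ] ℝ) p = f y}.Nonempty :=
    convexHull_nonempty_iff.1 ⟨y, hyc⟩
  obtain ⟨q, hq, s, hs⟩ : ∃ q ∈ P, ∃ s : ℝ, y - p = s • (q - p) := by
    by_cases hq : ∃ q, (q ∈ (↑P : Set E) ∧ (f : E →ₗ[ℝ] ℝ) q = f y) ∧ q ≠ p
    · obtain ⟨q, hq, hqp⟩ := hq
      have hm : q - p ∈ vectorSpan ℝ F := vsub_mem_vectorSpan ℝ (hPF q hq) (hPF p hp)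
      have e : (ℝ ∙ (q - p)) = vectorSpan ℝ F := by
        apply Submodule.eq_of_le_of_finrank_le ((Submodule.span_singleton_le_iff_mem _ _).2 hm)
        rw [finrank_span_singleton (sub_ne_zero.2 hqp)]
        exact h1
      have hm' : y - p ∈ vectorSpan ℝ F := vsub_mem_vectorSpan ℝ ⟨hy2, hf⟩ (hPF p hp)
      rw [← e, Submodule.mem_span_singleton] at hm'
      obtain ⟨s, hs⟩ := hm'
      exact ⟨q, hq.1, s, hs.symm⟩
    · push Not at hq
      have : y ∈ convexHull ℝ ({p} : Set E) := convexHull_mono (fun q h => hq q h) hyc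
      rw [convexHull_singleton] at this
      exact ⟨p, hp.1, 0, by rw [Set.mem_singleton_iff.1 this]; simp⟩
  apply hgen p hp.1 q hq
  obtain ⟨a, b, ha, hb, hab, hy⟩ := hyo
  rw [Submodule.mem_span_pair]
  refine ⟨(1 - s) / a, s / a, ?_⟩
  have e1 : a • (o - z) = (1 - s) • (p - z) + s • (q - z) := by
    have e2 : y = p + s • (q - p) := by rw [← hs]; simp
    have e3 : b = 1 - a := by linarith
    rw [e3, e2] at hy
    have : a • o = p + s • (q - p) - (1 - a) • z := by rw [← hy]; simp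
    rw [smul_sub, this]
    module
  have : o - z = a⁻¹ • (a • (o - z)) := by rw [smul_smul, inv_mul_cancel₀ ha.ne', one_smul]
  rw [this, e1, div_eq_inv_mul, div_eq_inv_mul]
  module

theorem IsFace.spec {K F : Set E} (h : IsFace K F) :
    ∃ q : (E →ₗ[ℝ] ℝ) × ℝ, q.1 ≠ 0 ∧ (∀ y ∈ K, q.1 y ≤ q.2) ∧ F = {x | x ∈ K ∧ q.1 x = q.2} := by
  obtain ⟨l, hl, hF, hd⟩ := h
  obtain ⟨y, hy⟩ : F.Nonempty := by
    by_contra hne
    rw [Set.not_nonempty_iff_eq_empty] at hne
    rw [hne, vectorSpan_empty] at hd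
    simp at hd
  have hy' := hy
  rw [hF] at hy'
  refine ⟨((l : E →ₗ[ℝ] ℝ), l y), ?_, hy'.2, ?_⟩
  · intro h0
    apply hl
    ext1 v
    exact congrArg (fun g : E →ₗ[ℝ] ℝ => g v) h0
  · rw [hF]
    ext x
    exact and_congr_right (fun hx => ⟨fun hm => le_antisymm (hy'.2 x hx) (hm y hy'.1),
      fun he w hw => (hy'.2 w hw).trans (le_of_eq he.symm)⟩)

theorem lt_of_interior {K : Set E} (A : E →ₗ[ℝ] ℝ) (hA : A ≠ 0) (r : ℝ) (h : ∀ y ∈ K, A y ≤ r)
    {o : E} (ho : o ∈ interior K) : A o < r := by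
  obtain ⟨v, hv⟩ : ∃ v, A v = 1 := LinearMap.surjective hA 1
  have hc : Continuous (fun t : ℝ => o + t • v) := by fun_prop
  have : ∀ᶠ t in nhds (0 : ℝ), o + t • v ∈ interior K :=
    hc.continuousAt.preimage_mem_nhds (by simpa using isOpen_interior.mem_nhds ho)
  obtain ⟨δ, hδ, hb⟩ := Metric.eventually_nhds_iff.1 this
  have := h _ (interior_subset (hb (y := δ / 2) (by
    rw [Real.dist_eq, sub_zero, abs_of_pos (by linarith)]; linarith)))
  simp only [map_add, map_smul, hv, smul_eq_mul] at this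
  linarith

open Classical in
theorem Poly.cert {f : ℕ → ℕ} (h : Poly f) :
    ∃ (I : Finset (Set E)) (J : Finset E) (L : Set E → E →ₗ[ℝ] ℝ) (c : Set E → ℝ)
      (τ : E → Finset (Set E)), Cert I J L c id τ ∧
      ∀ m, (I.filter (fun i => deg J τ i = m)).card = f m := by
  obtain ⟨P, hint, h3, hf⟩ := h
  set K := convexHull ℝ (↑P : Set E) with hK
  have e1 : ∀ F : Set E, ∃ q : (E →ₗ[ℝ] ℝ) × ℝ, IsFace K F →
      q.1 ≠ 0 ∧ (∀ y ∈ K, q.1 y ≤ q.2) ∧ F = {x | x ∈ K ∧ q.1 x = q.2} := by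
    intro F
    by_cases hF : IsFace K F
    · obtain ⟨q, hq⟩ := hF.spec
      exact ⟨q, fun _ => hq⟩
    · exact ⟨(0, 0), fun h => absurd h hF⟩
  choose q hq using e1
  have hfin : {F | IsFace K F}.Finite := by
    refine ((P.finite_toSet.finite_subsets).image (convexHull ℝ)).subset ?_
    intro F hF
    obtain ⟨-, a, b⟩ := hq F hF
    refine ⟨{p | p ∈ (↑P : Set E) ∧ (q F).1 p = (q F).2}, fun p hp => hp.1, ?_⟩
    apply Set.Subset.antisymm
    · apply convexHull_min
      · intro p hp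
        rw [b]
        exact ⟨subset_convexHull ℝ _ hp.1, hp.2⟩
      · rw [b]
        exact (convex_convexHull ℝ _).inter (convex_hyperplane (q F).1.isLinear _)
    · intro x hx
      rw [b] at hx
      exact mem_hull_level _ _ (fun p hp => a p (subset_convexHull ℝ _ hp)) hx.1 hx.2
  have hvfin : (Set.extremePoints ℝ K).Finite :=
    P.finite_toSet.subset extremePoints_convexHull_subset
  let I := hfin.toFinset
  let J := hvfin.toFinset
  let τ : E → Finset (Set E) := fun v => I.filter (fun F => v ∈ F)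
  have hI : ∀ F, F ∈ I ↔ IsFace K F := fun F => by simp [I]
  have hJ : ∀ v, v ∈ J ↔ v ∈ Set.extremePoints ℝ K := fun v => by simp [J]
  have hτ : ∀ v F, F ∈ τ v ↔ IsFace K F ∧ v ∈ F := fun v F => by simp [τ, hI]
  have hmem : ∀ F, IsFace K F → ∀ v, v ∈ F ↔ v ∈ K ∧ (q F).1 v = (q F).2 := by
    intro F hF v
    conv_lhs => rw [(hq F hF).2.2]
    rfl
  have hH : ∀ z, (∀ F ∈ I, (q F).1 z ≤ (q F).2) → z ∈ K := by
    intro z hz
    by_contra hzK
    obtain ⟨F, hF, o, ho, y, hy, a, b, ha, hb, hab, rfl⟩ := exists_face_of_not_mem P hint hzK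
    have h1 := lt_of_interior _ (hq F hF).1 _ (hq F hF).2.1 ho
    have h2 := hz F ((hI F).2 hF)
    have h4 := ((hmem F hF _).1 hy).2
    simp only [map_add, map_smul, smul_eq_mul] at h4
    have : (q F).2 = a * (q F).2 + b * (q F).2 := by rw [← add_mul, hab, one_mul]
    nlinarith
  have hcard : ∀ v ∈ J, (τ v).card = 3 := by
    intro v hv
    rw [← h3 v ((hJ v).1 hv), ← Set.ncard_coe_finset]
    congr 1
    ext F
    simp [hτ]
  have hzero : ∀ v, ∀ F ∈ τ v, (q F).1 v = (q F).2 := fun v F hF =>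
    ((hmem F ((hτ v F).1 hF).1 v).1 ((hτ v F).1 hF).2).2
  have hpos : ∀ v ∈ K, ∀ F ∈ I, F ∉ τ v → (q F).1 v < (q F).2 := by
    intro v hv F hF hn
    have hF' := (hI F).1 hF
    exact lt_of_le_of_ne ((hq F hF').2.1 v hv)
      (fun e => hn ((hτ v F).2 ⟨hF', (hmem F hF' v).2 ⟨hv, e⟩⟩))
  have hker : ∀ v ∈ J, ∀ d : E, (∀ F ∈ τ v, (q F).1 d = 0) → d = 0 := by
    intro v hv d hd
    have hv' := (hJ v).1 hv
    have : ∀ᶠ t in nhds (0 : ℝ), ∀ F ∈ I, (q F).1 (v + t • d) ≤ (q F).2 := by
      rw [Filter.eventually_all_finset]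
      intro F hF
      by_cases hm : F ∈ τ v
      · exact Filter.Eventually.of_forall (fun t => by simp [hd F hm, hzero v F hm])
      · have hc : Continuous (fun t : ℝ => (q F).1 v + t * (q F).1 d) := by fun_prop
        have := hc.continuousAt.eventually_lt (continuousAt_const (y := (q F).2)) (x₀ := 0)
          (by simpa using hpos v hv'.1 F hF hm)
        exact this.mono (fun t ht => by simpa using ht.le)
    obtain ⟨δ, hδ, hb⟩ := Metric.eventually_nhds_iff.1 this
    have a1 := hH _ (hb (y := δ / 2) (by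
      rw [Real.dist_eq, sub_zero, abs_of_pos (by linarith)]; linarith))
    have a2 := hH _ (hb (y := -(δ / 2)) (by
      rw [Real.dist_eq, sub_zero, abs_of_neg (by linarith)]; linarith))
    have := hv'.2 a1 a2 ⟨1 / 2, 1 / 2, by norm_num, by norm_num, by norm_num, by module⟩
    have h0 : (δ / 2) • d = 0 := by simpa using this
    exact (smul_eq_zero.1 h0).resolve_left (by linarith)
  refine ⟨I, J, fun F => (q F).1, fun F => (q F).2, τ,
    ⟨fun v _ => Finset.filter_subset _ _, hcard, fun v _ => hzero v,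
      fun v hv => hpos v ((hJ v).1 hv).1, ?_, ?_, ?_⟩, ?_⟩
  · intro v hv w _ he
    rw [← sub_eq_zero]
    refine hker v hv _ (fun F hF => ?_)
    rw [map_sub, hzero v F hF, hzero w F (he ▸ hF), sub_self]
  · intro v hv i hi
    have hvK := ((hJ v).1 hv).1
    let Φ : E →ₗ[ℝ] (τ v → ℝ) := LinearMap.pi (fun F : τ v => (q F).1)
    have hinj : Function.Injective Φ := by
      rw [injective_iff_map_eq_zero]
      intro d hd
      exact hker v hv d (fun F hF => congrFun hd ⟨F, hF⟩)
    have hs : Function.Surjective Φ :=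
      (LinearMap.injective_iff_surjective_of_finrank_eq_finrank (by simp [hcard v hv])).1 hinj
    obtain ⟨d, hd⟩ := hs (fun F => if (F : Set E) = i then -1 else 0)
    have hdi : (q i).1 d = -1 := by simpa [Φ] using congrFun hd ⟨i, hi⟩
    have hdj : ∀ F ∈ τ v, F ≠ i → (q F).1 d = 0 := fun F hF hne => by
      simpa [Φ, hne] using congrFun hd ⟨F, hF⟩
    have hT : (I.filter (fun F => 0 < (q F).1 d)).Nonempty := by
      by_contra hne
      rw [Finset.not_nonempty_iff_eq_empty, Finset.filter_eq_empty_iff] at hne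
      obtain ⟨r, hr⟩ := (P.finite_toSet.image (fun p => (-(q i).1) p)).bddAbove
      have hvr := le_of_mem_hull (-(q i).1) r (fun p hp => hr ⟨p, hp, rfl⟩) hvK
      have : v + (r + (q i).1 v + 1) • d ∈ K := by
        apply hH
        intro F hF
        have b1 := (hq F ((hI F).1 hF)).2.1 v hvK
        have b2 := not_lt.1 (hne hF)
        simp only [map_add, map_smul, smul_eq_mul, LinearMap.neg_apply] at hvr ⊢
        nlinarith
      have := le_of_mem_hull (-(q i).1) r (fun p hp => hr ⟨p, hp, rfl⟩) this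
      simp only [map_add, map_smul, smul_eq_mul, LinearMap.neg_apply, hdi] at this
      linarith
    obtain ⟨g, hg, hmin⟩ := Finset.exists_min_image _
      (fun F => ((q F).2 - (q F).1 v) / (q F).1 d) hT
    rw [Finset.mem_filter] at hg
    have hgv : g ∉ τ v := by
      intro hm
      by_cases e : g = i
      · rw [e, hdi] at hg
        linarith [hg.2]
      · linarith [hg.2, hdj g hm e]
    set t := ((q g).2 - (q g).1 v) / (q g).1 d with ht
    have ht0 : 0 < t := div_pos (sub_pos.2 (hpos v hvK g hg.1 hgv)) hg.2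
    have hwK : v + t • d ∈ K := by
      apply hH
      intro F hF
      have b1 := (hq F ((hI F).1 hF)).2.1 v hvK
      simp only [map_add, map_smul, smul_eq_mul]
      by_cases hp : 0 < (q F).1 d
      · have := hmin F (Finset.mem_filter.2 ⟨hF, hp⟩)
        rw [le_div_iff₀ hp] at this
        linarith
      · nlinarith [not_lt.1 hp]
    have hwg : (q g).1 (v + t • d) = (q g).2 := by
      simp only [map_add, map_smul, smul_eq_mul, ht]
      field_simp [hg.2.ne']
      ring
    have hwj : ∀ F ∈ τ v, F ≠ i → (q F).1 (v + t • d) = (q F).2 := fun F hF hne => by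
      simp [hdj F hF hne, hzero v F hF]
    refine ⟨v + t • d, (hJ _).2 ⟨hwK, fun y hy y' hy' hs => ?_⟩, ?_, ?_⟩
    · have c1 : ∀ F, IsFace K F → (q F).1 (v + t • d) = (q F).2 →
          (q F).1 (y - (v + t • d)) = 0 := fun F hF he => by
        rw [map_sub, he, eq_of_openSegment _ _ ((hq F hF).2.1 y hy) ((hq F hF).2.1 y' hy') he hs,
          sub_self]
      set u := y - (v + t • d) with hu
      have c2 : u + (q i).1 u • d = 0 := by
        refine hker v hv _ (fun F hF => ?_)
        by_cases e : F = i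
        · simp [e, hdi]
        · simp [hdj F hF e, c1 F ((hτ v F).1 hF).1 (hwj F hF e)]
      have c3 := congrArg (q g).1 c2
      simp only [map_add, map_smul, smul_eq_mul, map_zero, c1 g ((hI g).1 hg.1) hwg,
        zero_add] at c3
      have c4 := (mul_eq_zero.1 c3).resolve_right hg.2.ne'
      rw [c4, zero_smul, add_zero] at c2
      exact sub_eq_zero.1 c2
    · intro hm
      have := hzero _ i hm
      simp only [map_add, map_smul, smul_eq_mul, hdi, hzero v i hi] at this
      linarith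
    · intro F hF
      rw [Finset.mem_erase] at hF
      have hF' := ((hτ v F).1 hF.2).1
      exact (hτ _ F).2 ⟨hF', (hmem F hF' _).2 ⟨hwK, hwj F hF.2 hF.1⟩⟩
  · obtain ⟨o, ho⟩ := hint
    obtain ⟨v, hv⟩ := (P.finite_toSet.isCompact_convexHull ℝ).extremePoints_nonempty
      ⟨o, interior_subset ho⟩
    exact ⟨v, (hJ v).2 hv⟩
  · intro m
    have hdeg : ∀ F, IsFace K F → deg J τ F = (Set.extremePoints ℝ F).ncard := by
      intro F hF
      have := (isExtreme_level (q F).1 (q F).2 (hq F hF).2.1).extremePoints_eq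
      rw [← (hq F hF).2.2] at this
      rw [this, deg, ← Set.ncard_coe_finset]
      congr 1
      ext v
      simp only [Finset.coe_filter, Set.mem_setOf_eq, hJ, hτ, Set.mem_inter_iff]
      tauto
    rw [← hf m, ← Set.ncard_coe_finset]
    congr 1
    ext F
    simp only [Finset.coe_filter, Set.mem_setOf_eq, hI]
    exact and_congr_right (fun hF => by rw [hdeg F hF])

end Pool.Agent.P.MP_b50a78_co
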