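import Pool.Agent.P.MP_b50a78_co.Par1

set_option autoImplicit false

namespace Pool.Agent.P.MP_b50a78_co

section
variable {ι κ : Type} [DecidableEq ι] [DecidableEq κ] {I : Finset ι} {J : Finset κ}
  {L : ι → E →ₗ[ℝ] ℝ} {c : ι → ℝ} {x : κ → E} {τ : κ → Finset ι}

omit [DecidableEq κ] in
theorem Cert.lex_mono (h : Cert I J L c x τ) (a0 b0 : ℝ) (A B lam : E →ₗ[ℝ] ℝ)
    (hB : ∀ k ∈ J, 0 < b0 + B (x k)) {k z : κ} (hk : k ∈ J) (hz : z ∈ J) (n : ι → κ)
    (hn : ∀ i ∈ τ k, Nb J τ k i (n i)) (φ : κ → ℝ)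
    (hφ : ∀ k, φ k = (a0 + A (x k)) / (b0 + B (x k)))
    (H : ∀ i ∈ τ k, i ∉ τ z → φ (n i) ≤ φ k ∧ (φ (n i) = φ k → lam (x (n i)) ≤ lam (x k))) :
    φ z ≤ φ k ∧ (φ z = φ k → lam (x z) ≤ lam (x k)) := by
  have hG : ∀ y ∈ J, (A - φ k • B) (x y) - (A - φ k • B) (x k) = (φ y - φ k) * (b0 + B (x y)) := by
    intro y hy
    have e1 := hφ y
    have e2 := hφ k
    rw [eq_div_iff (hB y hy).ne'] at e1
    rw [eq_div_iff (hB k hk).ne'] at e2
    simp only [LinearMap.sub_apply, LinearMap.smul_apply, smul_eq_mul]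
    linarith
  have h1 := h.cone_map hk n hn (A - φ k • B) (x z)
  have h2 := h.cone_map hk n hn lam (x z)
  rw [hG z hz] at h1
  have hα : ∀ i ∈ τ k, 0 ≤ (c i - L i (x z)) / (c i - L i (x (n i))) := fun i hi =>
    div_nonneg (sub_nonneg.2 (h.le hz (h.sub k hk hi))) (sub_nonneg.2 (h.nb_lt hk hi (hn i hi)).le)
  have hα0 : ∀ i ∈ τ z, (c i - L i (x z)) / (c i - L i (x (n i))) = 0 := fun i hi => by
    rw [h.zero z hz i hi]
    simp
  have hterm : ∀ i ∈ τ k, (c i - L i (x z)) / (c i - L i (x (n i))) *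
      ((A - φ k • B) (x (n i)) - (A - φ k • B) (x k)) ≤ 0 := by
    intro i hi
    by_cases hiz : i ∈ τ z
    · rw [hα0 i hiz, zero_mul]
    · rw [hG _ (hn i hi).1]
      exact mul_nonpos_of_nonneg_of_nonpos (hα i hi)
        (mul_nonpos_of_nonpos_of_nonneg (sub_nonpos.2 (H i hi hiz).1) (hB _ (hn i hi).1).le)
  constructor
  · have := Finset.sum_nonpos hterm
    rw [← h1] at this
    by_contra hc
    push Not at hc
    have := mul_pos (sub_pos.2 hc) (hB z hz)
    linarith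
  · intro he
    rw [he, sub_self, zero_mul] at h1
    have h3 := (Finset.sum_eq_zero_iff_of_nonpos hterm).1 h1.symm
    rw [← sub_nonpos, h2]
    refine Finset.sum_nonpos (fun i hi => ?_)
    by_cases hiz : i ∈ τ z
    · rw [hα0 i hiz, zero_mul]
    · rcases mul_eq_zero.1 (h3 i hi) with h4 | h4
      · rw [h4, zero_mul]
      · rw [hG _ (hn i hi).1] at h4
        rcases mul_eq_zero.1 h4 with h5 | h5
        · exact mul_nonpos_of_nonneg_of_nonpos (hα i hi)
            (sub_nonpos.2 ((H i hi hiz).2 (sub_eq_zero.1 h5)))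
        · exact absurd h5 (hB _ (hn i hi).1).ne'

omit [DecidableEq κ] in
theorem Cert.slack (h : Cert I J L c x τ) {z : κ} (hz : z ∈ J) :
    ∃ (a0 : ℝ) (A : E →ₗ[ℝ] ℝ), a0 + A (x z) = 0 ∧ ∀ k ∈ J, k ≠ z → 0 < a0 + A (x k) := by
  refine ⟨∑ i ∈ τ z, c i, -∑ i ∈ τ z, L i, ?_, ?_⟩
  · simp only [LinearMap.neg_apply, LinearMap.coe_sum, Finset.sum_apply]
    rw [Finset.sum_congr rfl (fun i hi => h.zero z hz i hi)]
    ring
  · intro k hk hne
    simp only [LinearMap.neg_apply, LinearMap.coe_sum, Finset.sum_apply]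
    rw [← sub_eq_add_neg, sub_pos]
    refine Finset.sum_lt_sum (fun i hi => h.le hk (h.sub z hz hi)) ?_
    have hns : ¬ τ z ⊆ τ k := by
      intro hs
      exact hne (h.inj k hk z hz
        (Finset.eq_of_subset_of_card_le hs (by rw [h.card k hk, h.card z hz])).symm)
    obtain ⟨i, a, b⟩ := Finset.not_subset.1 hns
    exact ⟨i, a, h.pos k hk i (h.sub z hz a) b⟩

theorem Cert.exists_gr (h : Cert I J L c x τ) :
    ∃ (n : κ → ι → κ) (o : κ → ι → ι), Gr J τ n o ∧ ∀ k ∈ J, ∀ i ∈ τ k, Nb J τ k i (n k i) := by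
  have e1 : ∀ k i, ∃ p : κ × ι, k ∈ J → i ∈ τ k → Nb J τ k i p.1 ∧
      τ p.1 = insert p.2 ((τ k).erase i) ∧ p.2 ∉ τ k := by
    intro k i
    by_cases hki : k ∈ J ∧ i ∈ τ k
    · obtain ⟨hk, hi⟩ := hki
      obtain ⟨k', a, b, d⟩ := h.nb k hk i hi
      have h2 : ((τ k).erase i).card = 2 := by rw [Finset.card_erase_of_mem hi, h.card k hk]
      have hns : ¬ τ k' ⊆ (τ k).erase i := by
        intro hs
        have := Finset.card_le_card hs
        rw [h2, h.card k' a] at this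
        omega
      obtain ⟨g, g1, g2⟩ := Finset.not_subset.1 hns
      refine ⟨(k', g), fun _ _ => ⟨⟨a, b, d⟩, ?_, ?_⟩⟩
      · symm
        apply Finset.eq_of_subset_of_card_le (Finset.insert_subset g1 d)
        rw [Finset.card_insert_of_notMem g2, h2, h.card k' a]
      · intro hg
        exact g2 (Finset.mem_erase.2 ⟨fun e => b (e ▸ g1), hg⟩)
    · exact ⟨(k, i), fun a b => absurd ⟨a, b⟩ hki⟩
  choose p hp using e1
  have hnb : ∀ k ∈ J, ∀ i ∈ τ k, Nb J τ k i (p k i).1 := fun k hk i hi => (hp k i hk hi).1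
  have hback : ∀ k ∈ J, ∀ i ∈ τ k, (p (p k i).1 (p k i).2).1 = k := by
    intro k hk i hi
    obtain ⟨a, b, d⟩ := hp k i hk hi
    have hm : (p k i).2 ∈ τ (p k i).1 := b ▸ Finset.mem_insert_self _ _
    refine h.nb_unique a.1 hm (hnb _ a.1 _ hm) ⟨hk, d, ?_⟩
    rw [b, Finset.erase_insert (fun hh => d (Finset.mem_of_mem_erase hh))]
    exact Finset.erase_subset _ _
  refine ⟨fun k i => (p k i).1, fun k i => (p k i).2, ⟨h.card, fun k hk i hi => (hnb k hk i hi).1,
    fun k hk i hi => (hp k i hk hi).2.1, fun k hk i hi => (hp k i hk hi).2.2, hback, ?_, ?_⟩, hnb⟩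
  · intro k hk i hi
    obtain ⟨a, b, d⟩ := hp k i hk hi
    have hm : (p k i).2 ∈ τ (p k i).1 := b ▸ Finset.mem_insert_self _ _
    obtain ⟨-, b', -⟩ := hp _ _ a.1 hm
    rw [hback k hk i hi] at b'
    have : i ∈ insert (p (p k i).1 (p k i).2).2 ((τ (p k i).1).erase (p k i).2) := b' ▸ hi
    rcases Finset.mem_insert.1 this with e | e
    · exact e.symm
    · exact absurd (Finset.mem_of_mem_erase e) a.2.1
  · intro f U hU hne hcl z hz hfz
    obtain ⟨a0, A, hA0, hA⟩ := h.slack hz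
    obtain ⟨v, hv, hmin⟩ := U.exists_min_image (fun k => a0 + A (x k)) hne
    have := (h.lex_mono (-a0) 1 (-A) 0 0 (by simp) (hU v hv).1 hz (fun i => (p v i).1)
      (hnb v (hU v hv).1) (fun k => -(a0 + A (x k))) (by intro k; simp; ring) (by
        intro i hi hiz
        refine ⟨?_, by simp⟩
        have := hmin _ (hcl v hv i hi (fun e => hiz (e ▸ hfz)))
        linarith)).1
    by_contra hzU
    have := hA v (hU v hv).1 (fun e => hzU (e ▸ hv))
    linarith

theorem Cert.four_dvd (h : Cert I J L c x τ) (f e : ι) (hf : ∃ k ∈ J, f ∈ τ k)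
    (he : ∃ k ∈ J, e ∈ τ k) (hex : ∀ i ∈ I, i ≠ f → i ≠ e → 3 ∣ deg J τ i) : 4 ∣ J.card := by
  obtain ⟨n, o, g, hn⟩ := h.exists_gr
  obtain ⟨b, hb, hfb⟩ := hf
  obtain ⟨t, ht, het, hbt⟩ : ∃ t ∈ J, e ∈ τ t ∧ b ≠ t := by
    obtain ⟨t, ht, het⟩ := he
    by_cases hbt : b = t
    · subst hbt
      obtain ⟨j, hj⟩ : ((τ b).erase e).Nonempty := by
        rw [← Finset.card_pos, Finset.card_erase_of_mem het, h.card b hb]
        norm_num
      rw [Finset.mem_erase] at hj
      exact ⟨n b j, g.nJ b hb j hj.2, g.mem_n hb hj.2 het hj.1.symm, (g.n_ne hb hj.2).symm⟩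
    · exact ⟨t, ht, het, hbt⟩
  obtain ⟨a0, A, hA0, hA⟩ := h.slack hb
  obtain ⟨a1, A', hA0', hA'⟩ := h.slack ht
  obtain ⟨lam, hlam⟩ := Module.exists_dual_forall_apply_ne_zero (K := ℝ)
    (fun q : {q : J × J // q.1 ≠ q.2} => x q.1.1 - x q.1.2) (by
      rintro ⟨⟨u, v⟩, huv⟩ h0
      exact huv (Subtype.ext (h.x_inj u.2 v.2 (sub_eq_zero.1 h0))))
  have hAn : ∀ k ∈ J, 0 ≤ a0 + A (x k) := fun k hk => by
    by_cases e : k = b
    · rw [e, hA0]
    · exact (hA k hk e).le
  have hAn' : ∀ k ∈ J, 0 ≤ a1 + A' (x k) := fun k hk => by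
    by_cases e : k = t
    · rw [e, hA0']
    · exact (hA' k hk e).le
  have hB : ∀ k ∈ J, 0 < (a0 + a1) + (A + A') (x k) := by
    intro k hk
    simp only [LinearMap.add_apply]
    by_cases e : k = b
    · have := hA' k hk (fun e' => hbt (e.symm.trans e'))
      have := hAn k hk
      linarith
    · have := hA k hk e
      have := hAn' k hk
      linarith
  let φ : κ → ℝ := fun k => (a0 + A (x k)) / ((a0 + a1) + (A + A') (x k))
  refine g.four_dvd_of_key (fun k => toLex (φ k, lam (x k))) ?_ ?_ ?_ f e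
    (fun k hk i hi => hex i (h.sub k hk hi)) b t hb ht hfb het hbt ?_ ?_
  · intro k hk k' hk' he
    by_contra hne
    have h1 : lam (x k) = lam (x k') := congrArg (fun q : ℝ ×ₗ ℝ => (ofLex q).2) he
    apply hlam ⟨(⟨k, hk⟩, ⟨k', hk'⟩), fun e => hne (congrArg Subtype.val e)⟩
    simp only [map_sub]
    rw [h1, sub_self]
  · intro k hk z hz H
    simp only [Prod.Lex.toLex_le_toLex'] at H ⊢
    exact h.lex_mono a0 (a0 + a1) A (A + A') lam hB hk hz (n k) (hn k hk) φ (fun _ => rfl) H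
  · intro k hk z hz H
    simp only [Prod.Lex.toLex_le_toLex'] at H ⊢
    have := h.lex_mono (-a0) (a0 + a1) (-A) (A + A') (-lam) hB hk hz (n k) (hn k hk)
      (fun k => -φ k) (by
        intro k
        simp only [φ, LinearMap.neg_apply]
        rw [← neg_div]
        congr 1
        ring) (by
        intro i hi hiz
        obtain ⟨h1, h2⟩ := H i hi hiz
        refine ⟨neg_le_neg h1, fun e => ?_⟩
        simp only [LinearMap.neg_apply]
        exact neg_le_neg (h2 (neg_inj.1 e).symm))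
    refine ⟨neg_le_neg_iff.1 this.1, fun e => ?_⟩
    have := this.2 (by rw [e])
    simpa using this
  · intro k hk
    by_cases e : k = b
    · rw [e]
    · apply le_of_lt
      rw [Prod.Lex.toLex_lt_toLex]
      left
      simp only [φ, hA0, zero_div]
      exact div_pos (hA k hk e) (hB k hk)
  · intro k hk
    by_cases e : k = t
    · rw [e]
    · apply le_of_lt
      rw [Prod.Lex.toLex_lt_toLex]
      left
      simp only [φ]
      rw [div_lt_div_iff₀ (hB k hk) (hB t ht)]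
      simp only [LinearMap.add_apply]
      have h1 := hA' k hk e
      have h2 := hA t ht (Ne.symm hbt)
      have h3 : a0 + a1 + (A (x t) + A' (x t)) = a0 + A (x t) := by linarith
      rw [h3]
      nlinarith

theorem Cert.sum_deg (h : Cert I J L c x τ) : ∑ i ∈ I, deg J τ i = 3 * J.card := by
  unfold deg
  simp only [Finset.card_filter]
  rw [Finset.sum_comm, Finset.card_eq_sum_ones J, Finset.mul_sum]
  refine Finset.sum_congr rfl (fun k hk => ?_)
  rw [← Finset.card_filter, Finset.filter_mem_eq_inter, Finset.inter_eq_right.2 (h.sub k hk),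
    h.card k hk, mul_one]

end

end Pool.Agent.P.MP_b50a78_co
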