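import Pool.Agent.P.MP_b50a78_co.Cls
import Pool.Agent.P.MP_b50a78_co.ThmB
import Pool.Agent.P.MP_b50a78_co.ThmC

set_option autoImplicit false

namespace Pool.Agent.P.MP_b50a78_co

open Classical in
theorem PolyM.parity {O : Multiset ℕ} (h : PolyM O) (h2 : O.countP (fun k => k % 3 ≠ 0) ≤ 2)
    (hs : 6 * O.card = O.sum + 12) : O.card % 2 = 0 := by
  obtain ⟨I, J, L, c, τ, hc, hf⟩ := Poly.cert h
  have e : I.val.map (deg J τ) = O := by
    ext m
    rw [Multiset.count_map, ← hf m]
    simp only [Finset.card, Finset.filter_val, eq_comm]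
  have e1 : O.sum = 3 * J.card := by
    rw [← e, ← hc.sum_deg]
    rfl
  have e2 : (I.filter (fun i => deg J τ i % 3 ≠ 0)).card ≤ 2 := by
    rw [← e, Multiset.countP_map] at h2
    exact h2
  have e3 : ∀ i ∈ I.filter (fun i => deg J τ i % 3 ≠ 0), ∃ k ∈ J, i ∈ τ k := by
    intro i hi
    have := (Finset.mem_filter.1 hi).2
    obtain ⟨k, hk⟩ : (J.filter (fun k => i ∈ τ k)).Nonempty := by
      rw [← Finset.card_pos]
      unfold deg at this
      omega
    exact ⟨k, (Finset.mem_filter.1 hk).1, (Finset.mem_filter.1 hk).2⟩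
  obtain ⟨f, e, hf, he, hx⟩ : ∃ f e, (∃ k ∈ J, f ∈ τ k) ∧ (∃ k ∈ J, e ∈ τ k) ∧
      I.filter (fun i => deg J τ i % 3 ≠ 0) ⊆ {f, e} := by
    generalize I.filter (fun i => deg J τ i % 3 ≠ 0) = T at e2 e3
    obtain h0 | h1 | h2 : T.card = 0 ∨ T.card = 1 ∨ T.card = 2 := by omega
    · obtain ⟨k, hk⟩ := hc.ne
      obtain ⟨i, hi⟩ : (τ k).Nonempty := by
        rw [← Finset.card_pos, hc.card k hk]
        omega
      exact ⟨i, i, ⟨k, hk, hi⟩, ⟨k, hk, hi⟩, by simp [Finset.card_eq_zero.1 h0]⟩
    · obtain ⟨i, rfl⟩ := Finset.card_eq_one.1 h1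
      exact ⟨i, i, e3 i (by simp), e3 i (by simp), by simp⟩
    · obtain ⟨i, j, -, rfl⟩ := Finset.card_eq_two.1 h2
      exact ⟨i, j, e3 i (by simp), e3 j (by simp), by simp⟩
  have := hc.four_dvd f e hf he (fun i hi h1 h2 => by
    by_contra h3
    have := hx (Finset.mem_filter.2 ⟨hi, fun h4 => h3 (Nat.dvd_of_mod_eq_zero h4)⟩)
    simp [h1, h2] at this)
  omega

theorem parity {a b c n : ℕ} {ts : Multiset ℕ} (hb : Bal a b c ts) (h2 : b + c + nm ts ≤ 2)
    (h : PolyM (sm a b c n + ts.map (6 + ·))) : n % 2 = (a + b + c + ts.card) % 2 := by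
  have e1 : (ts.map (6 + ·)).sum = 6 * ts.card + ts.sum := by
    rw [Multiset.sum_map_add]
    simp [mul_comm]
  have e2 : (ts.map (6 + ·)).countP (fun k => k % 3 ≠ 0) = nm ts := by
    rw [Multiset.countP_map, ← Multiset.countP_eq_card_filter]
    exact Multiset.countP_congr rfl (fun t _ => by
      simp only [eq_iff_iff]
      omega)
  have e3 : ∀ r k : ℕ, (Multiset.replicate r k).countP (fun k => k % 3 ≠ 0) =
      if k % 3 = 0 then 0 else r := by
    intro r k
    split_ifs with hk
    · exact Multiset.countP_eq_zero.2 (fun x hx => by simp [Multiset.eq_of_mem_replicate hx, hk])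
    · rw [Multiset.countP_eq_card.2 (fun x hx => by simp [Multiset.eq_of_mem_replicate hx, hk]),
        Multiset.card_replicate]
  have := h.parity (by
    simp only [sm, Multiset.countP_add, e2, e3]
    norm_num
    omega) (by
    have := hb.1
    simp only [sm, Multiset.card_add, Multiset.sum_add, e1, Multiset.card_replicate,
      Multiset.sum_replicate, Multiset.card_map, smul_eq_mul]
    omega)
  simp only [sm, Multiset.card_add, Multiset.card_replicate, Multiset.card_map] at this
  omega

theorem main (p : ℕ → ℕ) (N : ℕ) (h0 : ∀ k : ℕ, k < 3 ∨ k = 6 ∨ N ≤ k → p k = 0)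
    (h1 : 3 * p 3 + 2 * p 4 + p 5 = 12 + ∑ k ∈ Finset.Ico 7 N, (k - 6) * p k) (n : ℕ)
    (hn : 3 * (∑ k ∈ Finset.range N, p k) ≤ n) (m : ℕ) (hm : m % 2 = n % 2)
    (h : Poly (fun k => if k = 6 then m else p k)) : Poly (fun k => if k = 6 then n else p k) := by
  set ts : Multiset ℕ := ∑ k ∈ Finset.Ico 7 N, Multiset.replicate (p k) (k - 6) with hts
  have hb : Bal (p 3) (p 4) (p 5) ts := by
    constructor
    · rw [h1, hts, Multiset.sum_sum]
      simp [mul_comm]
    · intro t ht
      rw [hts, Multiset.mem_sum] at ht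
      obtain ⟨k, hk, ht⟩ := ht
      have := Multiset.eq_of_mem_replicate ht
      have := (Finset.mem_Ico.1 hk).1
      omega
  have hc : ∀ j k, (sm (p 3) (p 4) (p 5) j + ts.map (6 + ·)).count k =
      if k = 6 then j else p k := by
    intro j k
    have e : (ts.map (6 + ·)).count k = if k ∈ Finset.Ico 7 N then p k else 0 := by
      rw [hts, ← Multiset.coe_mapAddMonoidHom, map_sum, Multiset.count_sum', ← Finset.sum_ite_eq]
      refine Finset.sum_congr rfl (fun i hi => ?_)
      have := (Finset.mem_Ico.1 hi).1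
      rw [Multiset.coe_mapAddMonoidHom, Multiset.map_replicate, Multiset.count_replicate, show 6 + (i - 6) = i by omega]
      simp only [eq_comm]
    simp only [sm, Multiset.count_add, e, Multiset.count_replicate, Finset.mem_Ico]
    have := h0 k
    by_cases h3 : k = 3
    · simp [h3]
    by_cases h4 : k = 4
    · simp [h4]
    by_cases h5 : k = 5
    · simp [h5]
    split_ifs <;> omega
  have hS : ∑ k ∈ Finset.range N, p k = p 3 + p 4 + p 5 + ts.card := by
    have := Multiset.sum_count_eq_card (s := Finset.range N)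
      (m := sm (p 3) (p 4) (p 5) 0 + ts.map (6 + ·)) (fun k hk => by
        rw [← Multiset.one_le_count_iff_mem, hc] at hk
        have := h0 k
        rw [Finset.mem_range]
        split_ifs at hk <;> omega)
    simp only [hc] at this
    simp only [sm, Multiset.card_add, Multiset.card_replicate, Multiset.card_map, add_zero] at this
    rw [← this]
    refine Finset.sum_congr rfl (fun k _ => ?_)
    have := h0 k
    split_ifs <;> omega
  have hP : ∀ j, PolyM (sm (p 3) (p 4) (p 5) j + ts.map (6 + ·)) ↔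
      Poly (fun k => if k = 6 then j else p k) := by
    intro j
    unfold PolyM
    simp only [hc]
  rw [hS] at hn
  rw [← hP] at h ⊢
  exact comb hb hn (fun h2 => hm ▸ parity hb h2 h)

end Pool.Agent.P.MP_b50a78_co
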