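import Pool.Agent.P.MP_b50a78_co.Seg

set_option autoImplicit false

namespace Pool.Agent.P.MP_b50a78_co

abbrev Key := ℕ × ℕ × ℕ × List ℕ

def Good (K : Kd) (hw : VW) (pf : Bool) (ε a b c : ℕ) (ts : Multiset ℕ) : Prop :=
  ∃ n, n ≤ 3 * (a + b + c + ts.card) + ε ∧
    (pf = true → n % 2 = (a + b + c + ts.card + ε) % 2) ∧ Full K hw ts a b c n

def baseOK (K : Kd) (hw : VW) (pf : Bool) (ε : ℕ) (k : Key) (d : SegD × SegD) : Bool :=
  match baseRun K hw d with
  | none => false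
  | some ((a, b, c, n), ts) => a == k.1 && b == k.2.1 && c == k.2.2.1 && ts.isPerm k.2.2.2 &&
      Nat.ble n (3 * (a + b + c + ts.length) + ε) &&
      (!pf || n % 2 == (a + b + c + ts.length + ε) % 2)

theorem baseOK_sound {K : Kd} {hw : VW} {pf : Bool} {ε : ℕ} {k : Key} {d : SegD × SegD}
    (h : baseOK K hw pf ε k d = true) : Good K hw pf ε k.1 k.2.1 k.2.2.1 ↑k.2.2.2 := by
  unfold baseOK at h
  split at h
  · simp at h
  · rename_i a b c n ts hr
    simp only [Bool.and_eq_true, beq_iff_eq, List.isPerm_iff, Nat.ble_eq, Bool.or_eq_true,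
      Bool.not_eq_true'] at h
    obtain ⟨⟨⟨⟨⟨rfl, rfl⟩, rfl⟩, hp⟩, h1⟩, h2⟩ := h
    rw [← Multiset.coe_eq_coe.2 hp]
    refine ⟨n, by simpa using h1, fun e => ?_, baseRun_sound hr⟩
    rcases h2 with h2 | h2
    · simp [e] at h2
    · simpa using h2

def grpOK (K : Kd) (hw : VW) (pf : Bool) (k : Key) (d : SegD) : Bool :=
  match segRun K d.1 d.2 hw with
  | none => false
  | some (w, (a, b, c, n), ts) => w == hw && a == k.1 && b == k.2.1 && c == k.2.2.1 &&
      ts.isPerm k.2.2.2 && Nat.ble n (3 * (a + b + c + ts.length)) &&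
      (!pf || n % 2 == (a + b + c + ts.length) % 2) && 3 * a + 2 * b + c == ts.sum &&
      Nat.ble 1 (a + b + c)

def GrpGood (K : Kd) (hw : VW) (pf : Bool) (k : Key) : Prop :=
  (∀ ε a b c ts, Good K hw pf ε a b c ts →
    Good K hw pf ε (a + k.1) (b + k.2.1) (c + k.2.2.1) (ts + ↑k.2.2.2)) ∧
  3 * k.1 + 2 * k.2.1 + k.2.2.1 = k.2.2.2.sum ∧ 1 ≤ k.1 + k.2.1 + k.2.2.1

theorem grpOK_sound {K : Kd} {hw : VW} {pf : Bool} {k : Key} {d : SegD}
    (h : grpOK K hw pf k d = true) : GrpGood K hw pf k := by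
  unfold grpOK at h
  split at h
  · simp at h
  · rename_i w a b c n ts hr
    simp only [Bool.and_eq_true, beq_iff_eq, List.isPerm_iff, Nat.ble_eq, Bool.or_eq_true,
      Bool.not_eq_true'] at h
    obtain ⟨⟨⟨⟨⟨⟨⟨⟨rfl, rfl⟩, rfl⟩, rfl⟩, hp⟩, h1⟩, h2⟩, h3⟩, h4⟩ := h
    refine ⟨?_, by rw [h3, hp.sum_eq], h4⟩
    rintro ε a b c s ⟨m, m1, m2, m3⟩
    rw [← Multiset.coe_eq_coe.2 hp]
    refine ⟨m + n, ?_, fun e => ?_, m3.group (segRun_sound hr)⟩
    · simp only [Multiset.card_add, Multiset.coe_card]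
      omega
    · have := m2 e
      simp only [Multiset.card_add, Multiset.coe_card]
      rcases h2 with h2 | h2
      · simp [e] at h2
      · omega

def pumpOK (hw : VW) (p : ℕ) (s : List ℕ) : Bool := runT s hw == some (hw, (0, 0, 0, p), [])

theorem pumpOK_sound (K : Kd) {hw : VW} {p : ℕ} {s : List ℕ} (h : pumpOK hw p s = true) :
    Seg K hw hw 0 0 0 0 p := Seg.plain K (by simpa [pumpOK] using h)

theorem Good.ins {K : Kd} {hw : VW} {pf : Bool} {ε a b c t : ℕ} {s : Multiset ℕ} (α β γ : ℕ)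
    (hi : allowed K (α, β, γ)) (h : Good K hw pf ε a b c (t ::ₘ s)) :
    Good K hw pf ε (a + 2 * α) (b + β) (c + γ) ((t + (6 * α + 2 * β + γ)) ::ₘ s) := by
  obtain ⟨n, h1, h2, h3⟩ := h
  refine ⟨_, ?_, fun e => ?_, h3.ins α β γ hi⟩
  · simp only [Multiset.card_cons] at h1 ⊢
    omega
  · have := h2 e
    simp only [Multiset.card_cons] at this ⊢
    omega

def Bal (a b c : ℕ) (ts : Multiset ℕ) : Prop := 3 * a + 2 * b + c = 12 + ts.sum ∧ ∀ t ∈ ts, 1 ≤ t

def Red (K : Kd) (G : List Key) (a' b' c' : ℕ) (ts' : Multiset ℕ) (a b c : ℕ) (ts : Multiset ℕ) :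
    Prop :=
  (∃ g ∈ G, a = a' + g.1 ∧ b = b' + g.2.1 ∧ c = c' + g.2.2.1 ∧ ts = ts' + ↑g.2.2.2) ∨
  (∃ t R α β γ, allowed K (α, β, γ) ∧ 1 ≤ α + β + γ ∧ 1 ≤ t ∧ ts' = t ::ₘ R ∧
    ts = (t + (6 * α + 2 * β + γ)) ::ₘ R ∧ a = a' + 2 * α ∧ b = b' + β ∧ c = c' + γ)

theorem good_ind {K : Kd} {hw : VW} {pf : Bool} {ε : ℕ} {G : List Key}
    (hG : ∀ g ∈ G, GrpGood K hw pf g) (cls : ℕ → ℕ → ℕ → Multiset ℕ → Prop)
    (step : ∀ a b c ts, Bal a b c ts → cls a b c ts → Good K hw pf ε a b c ts ∨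
      ∃ a' b' c' ts', Red K G a' b' c' ts' a b c ts ∧ cls a' b' c' ts') :
    ∀ a b c ts, Bal a b c ts → cls a b c ts → Good K hw pf ε a b c ts := by
  intro a b c
  induction h : a + b + c using Nat.strong_induction_on generalizing a b c with
  | _ n ih =>
    intro ts hb hc
    rcases step a b c ts hb hc with h1 | ⟨a', b', c', ts', hr, hc'⟩
    · exact h1
    · rcases hr with ⟨g, hg, rfl, rfl, rfl, rfl⟩ | ⟨t, R, α, β, γ, h1, h2, h3, rfl, rfl, rfl, rfl, rfl⟩
      · obtain ⟨g1, g2, g3⟩ := hG g hg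
        refine g1 _ _ _ _ _ (ih (a' + b' + c') (by omega) a' b' c' rfl ts' ⟨?_, ?_⟩ hc')
        · have := hb.1
          simp only [Multiset.sum_add, Multiset.sum_coe] at this
          omega
        · exact fun t ht => hb.2 t (Multiset.mem_add.2 (Or.inl ht))
      · refine Good.ins α β γ h1 (ih (a' + b' + c') (by omega) a' b' c' rfl _ ⟨?_, ?_⟩ hc')
        · have := hb.1
          simp only [Multiset.sum_cons] at this ⊢
          omega
        · intro s hs
          rcases Multiset.mem_cons.1 hs with rfl | hs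
          · exact h3
          · exact hb.2 s (Multiset.mem_cons_of_mem hs)

def rem : List ℕ → List ℕ → Option (List ℕ)
  | l, [] => some l
  | l, x :: g => bif l.elem x then rem (l.erase x) g else none

theorem rem_sound {l g r : List ℕ} (h : rem l g = some r) : (↑l : Multiset ℕ) = ↑r + ↑g := by
  induction g generalizing l with
  | nil =>
    simp only [rem, Option.some.injEq] at h
    simp [h]
  | cons x g ih =>
    simp only [rem, Bool.cond_eq_ite, List.elem_eq_mem, decide_eq_true_eq] at h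
    split_ifs at h with hx
    rw [← Multiset.cons_coe, Multiset.add_cons, ← ih h, ← Multiset.coe_erase,
      Multiset.cons_erase (Multiset.mem_coe.2 hx)]

def redsG (G : List Key) (a b c : ℕ) (l : List ℕ) : List Key :=
  G.filterMap (fun g => bif Nat.ble g.1 a && Nat.ble g.2.1 b && Nat.ble g.2.2.1 c then
    (rem l g.2.2.2).map (fun r => (a - g.1, b - g.2.1, c - g.2.2.1, r)) else none)

def redsI (K : Kd) (a b c : ℕ) (l : List ℕ) : List Key :=
  l.flatMap (fun t =>
    (bif K.2.2 && Nat.ble 1 c && Nat.ble 2 t then [(a, b, c - 1, (t - 1) :: l.erase t)] else []) ++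
    (bif K.2.1 && Nat.ble 1 b && Nat.ble 3 t then [(a, b - 1, c, (t - 2) :: l.erase t)] else []) ++
    (bif K.1 && Nat.ble 2 a && Nat.ble 7 t then [(a - 2, b, c, (t - 6) :: l.erase t)] else []))

theorem reds_sound {K : Kd} {G : List Key} {a b c : ℕ} {l : List ℕ} {D : Key}
    (h : D ∈ redsI K a b c l ++ redsG G a b c l) : Red K G D.1 D.2.1 D.2.2.1 ↑D.2.2.2 a b c ↑l := by
  rcases List.mem_append.1 h with h | h
  · right
    simp only [redsI, List.mem_flatMap, List.mem_append, Bool.cond_eq_ite, Bool.and_eq_true,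
      Nat.ble_eq] at h
    obtain ⟨t, ht, h⟩ := h
    have e : ∀ s, s = t → (↑l : Multiset ℕ) = s ::ₘ ↑(l.erase t) := by
      rintro s rfl
      rw [← Multiset.coe_erase, Multiset.cons_erase (Multiset.mem_coe.2 ht)]
    rcases h with (h | h) | h <;> split_ifs at h with hc <;> simp only [List.mem_singleton,
      List.not_mem_nil] at h <;> subst h
    · exact ⟨t - 1, ↑(l.erase t), 0, 0, 1, by simp [allowed, hc.1.1], by omega, by omega, rfl,
        e _ (by omega), by simp, by simp, by simp only; omega⟩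
    · exact ⟨t - 2, ↑(l.erase t), 0, 1, 0, by simp [allowed, hc.1.1], by omega, by omega, rfl,
        e _ (by omega), by simp, by simp only; omega, by simp⟩
    · exact ⟨t - 6, ↑(l.erase t), 1, 0, 0, by simp [allowed, hc.1.1], by omega, by omega, rfl,
        e _ (by omega), by simp only; omega, by simp, by simp⟩
  · left
    simp only [redsG, List.mem_filterMap, Bool.cond_eq_ite, Bool.and_eq_true, Nat.ble_eq] at h
    obtain ⟨g, hg, h⟩ := h
    split_ifs at h with hc
    simp only [Option.map_eq_some_iff] at h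
    obtain ⟨r, hr, rfl⟩ := h
    exact ⟨g, hg, by simp only; omega, by simp only; omega, by simp only; omega, rem_sound hr⟩

/-- sorted lists of length at most `n` with entries in `[lo, hi]` -/
def sl (hi : ℕ) : ℕ → ℕ → List (List ℕ)
  | 0, _ => [[]]
  | n + 1, lo => [] :: (List.range' lo (hi + 1 - lo)).flatMap (fun x => (sl hi n x).map (x :: ·))

theorem mem_sl (hi n lo : ℕ) (l : List ℕ) (h1 : l.Pairwise (· ≤ ·)) (h2 : ∀ t ∈ l, lo ≤ t ∧ t ≤ hi)
    (h3 : l.length ≤ n) : l ∈ sl hi n lo := by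
  induction n generalizing l lo with
  | zero =>
    simp only [Nat.le_zero_eq, List.length_eq_zero_iff] at h3
    simp [sl, h3]
  | succ n ih =>
    cases l with
    | nil => simp [sl]
    | cons x l =>
      rw [List.pairwise_cons] at h1
      simp only [sl, List.mem_cons, reduceCtorEq, List.mem_flatMap, List.mem_range'_1, List.mem_map,
        List.cons.injEq, false_or]
      have := h2 x (by simp)
      exact ⟨x, by omega, l, ih x l h1.2 (fun t ht => ⟨h1.1 t ht, (h2 t (by simp [ht])).2⟩)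
        (by simpa using h3), rfl, rfl⟩

abbrev Cl := ℕ → ℕ → ℕ → ℕ → ℕ → ℕ → Bool

def od (ts : Multiset ℕ) : ℕ := ts.countP (fun t => t % 2 = 1)
def nm (ts : Multiset ℕ) : ℕ := ts.countP (fun t => t % 3 ≠ 0)

def clsM (cl : Cl) (a b c : ℕ) (ts : Multiset ℕ) : Prop := cl a b c ts.card (od ts) (nm ts) = true

def clsL (cl : Cl) (D : Key) : Bool :=
  cl D.1 D.2.1 D.2.2.1 D.2.2.2.length (D.2.2.2.countP (fun t => t % 2 == 1))
    (D.2.2.2.countP (fun t => !(t % 3 == 0)))

theorem clsL_iff (cl : Cl) (D : Key) : clsL cl D = true ↔ clsM cl D.1 D.2.1 D.2.2.1 ↑D.2.2.2 := by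
  unfold clsL clsM od nm
  rw [Multiset.coe_countP, Multiset.coe_countP, Multiset.coe_card]
  congr! 3
  ext t
  simp
  rfl

def boxChk (cl : Cl) (K : Kd) (G base : List Key) (L : List (List ℕ)) : Bool :=
  L.all fun l => (List.range ((12 + l.sum) / 3 + 1)).all fun a =>
    (List.range ((12 + l.sum - 3 * a) / 2 + 1)).all fun b =>
      !(clsL cl (a, b, 12 + l.sum - 3 * a - 2 * b, l)) ||
      (redsI K a b (12 + l.sum - 3 * a - 2 * b) l ++
        redsG G a b (12 + l.sum - 3 * a - 2 * b) l).any (clsL cl) ||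
      base.elem (a, b, 12 + l.sum - 3 * a - 2 * b, l)

theorem good_box {K : Kd} {hw : VW} {pf : Bool} {ε : ℕ} {G base : List Key} {cl : Cl} {hi n : ℕ}
    (hG : ∀ g ∈ G, GrpGood K hw pf g)
    (hB : ∀ k ∈ base, Good K hw pf ε k.1 k.2.1 k.2.2.1 ↑k.2.2.2)
    (hbox : boxChk cl K G base (sl hi n 1) = true)
    (hbig : ∀ a b c t R, Bal a b c (t ::ₘ R) → clsM cl a b c (t ::ₘ R) → hi < t →
      ∃ a' b' c' ts', Red K G a' b' c' ts' a b c (t ::ₘ R) ∧ clsM cl a' b' c' ts')
    (hmany : ∀ a b c ts, Bal a b c ts → clsM cl a b c ts → (∀ t ∈ ts, t ≤ hi) → n < ts.card →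
      ∃ a' b' c' ts', Red K G a' b' c' ts' a b c ts ∧ clsM cl a' b' c' ts') :
    ∀ a b c ts, Bal a b c ts → clsM cl a b c ts → Good K hw pf ε a b c ts := by
  refine good_ind hG _ (fun a b c ts hb hc => ?_)
  by_cases h1 : ∃ t ∈ ts, hi < t
  · obtain ⟨t, ht, h1⟩ := h1
    obtain ⟨R, rfl⟩ := Multiset.exists_cons_of_mem ht
    exact Or.inr (hbig a b c t R hb hc h1)
  push Not at h1
  by_cases h2 : n < ts.card
  · exact Or.inr (hmany a b c ts hb hc h1 h2)
  obtain ⟨l, rfl, hl⟩ : ∃ l : List ℕ, ts = ↑l ∧ l.Pairwise (· ≤ ·) :=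
    ⟨ts.sort (· ≤ ·), (Multiset.sort_eq _ _).symm, Multiset.pairwise_sort _ _⟩
  have hm := mem_sl hi n 1 l hl (fun t ht => ⟨hb.2 t ht, h1 t ht⟩) (by simpa using h2)
  have e := hb.1
  simp only [Multiset.sum_coe] at e
  simp only [boxChk, List.all_eq_true, List.mem_range] at hbox
  have := hbox l hm a (by omega) b (by omega)
  rw [show 12 + l.sum - 3 * a - 2 * b = c by omega] at this
  simp only [Bool.or_eq_true, Bool.not_eq_true', List.any_eq_true, List.elem_eq_mem,
    decide_eq_true_eq] at this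
  rcases this with (h | ⟨D, hD, h⟩) | h
  · rw [(clsL_iff cl (a, b, c, l)).2 hc] at h
    simp at h
  · exact Or.inr ⟨_, _, _, _, reds_sound hD, (clsL_iff cl D).1 h⟩
  · exact Or.inl (hB _ h)

theorem all_base {K : Kd} {hw : VW} {pf : Bool} {ε : ℕ} {T : List (Key × SegD × SegD)}
    (h : T.all (fun e => baseOK K hw pf ε e.1 e.2) = true) :
    ∀ k ∈ T.map Prod.fst, Good K hw pf ε k.1 k.2.1 k.2.2.1 ↑k.2.2.2 := by
  intro k hk
  obtain ⟨e, he, rfl⟩ := List.mem_map.1 hk
  exact baseOK_sound (List.all_eq_true.1 h e he)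

theorem all_grp {K : Kd} {hw : VW} {pf : Bool} {T : List (Key × SegD)}
    (h : T.all (fun e => grpOK K hw pf e.1 e.2) = true) :
    ∀ k ∈ T.map Prod.fst, GrpGood K hw pf k := by
  intro k hk
  obtain ⟨e, he, rfl⟩ := List.mem_map.1 hk
  exact grpOK_sound (List.all_eq_true.1 h e he)

end Pool.Agent.P.MP_b50a78_co
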