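import Pool.Agent.P.MP_b50a78_co.Move

set_option autoImplicit false

namespace Pool.Agent.P.MP_b50a78_co

abbrev VW := List (ℕ × Bool)

def conc (δ : ℕ) (w : VW) : List ℕ := w.map (fun p => bif p.2 then p.1 + δ else p.1)

def rotN : ℕ → VW → VW
  | 0, w => w
  | _ + 1, [] => []
  | n + 1, e :: w => rotN n (w ++ [e])

def rfl1 : VW → VW
  | [] => []
  | e :: w => e :: w.reverse

def inc (p : ℕ × Bool) : ℕ × Bool := (p.1 + 1, p.2)

def mv (j : ℕ) : VW → Option (VW × VW)
  | [] => none
  | a :: t => match t.drop j with
    | [] => none
    | b :: r => some (inc a :: (j + 2, false) :: inc b :: r, (t.take j).map inc)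

def step (s : ℕ) (w : VW) : Option (VW × VW) :=
  bif s % 8 == 7 then some (bif s % 16 / 8 == 1 then rfl1 (rotN (s / 16) w) else rotN (s / 16) w, [])
  else mv (s % 8) (bif s % 16 / 8 == 1 then rfl1 (rotN (s / 16) w) else rotN (s / 16) w)

def run : List ℕ → VW → Option (VW × VW)
  | [], w => some (w, [])
  | s :: ss, w => match step s w with
    | none => none
    | some p => match run ss p.1 with
      | none => none
      | some q => some (q.1, p.2 ++ q.2)

def sm (a b c n : ℕ) : Multiset ℕ :=
  Multiset.replicate a 3 + Multiset.replicate b 4 + Multiset.replicate c 5 + Multiset.replicate n 6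

theorem sm_add (a b c n a' b' c' n' : ℕ) :
    sm a b c n + sm a' b' c' n' = sm (a + a') (b + b') (c + c') (n + n') := by
  simp only [sm, Multiset.replicate_add]
  abel

theorem sm_zero : sm 0 0 0 0 = 0 := by simp [sm]

theorem Real.congr {w w' : List ℕ} {O O' : Multiset ℕ} (h : Real w O) (e1 : w = w') (e2 : O = O') :
    Real w' O' := e1 ▸ e2 ▸ h

theorem rotN_sound (δ n : ℕ) (w : VW) (O : Multiset ℕ) (h : Real (conc δ w) O) :
    Real (conc δ (rotN n w)) O := by
  induction n generalizing w with
  | zero => exact h
  | succ n ih =>
    cases w with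
    | nil => exact h
    | cons e w => exact ih _ (h.rot.congr (by simp [conc]) rfl)

theorem rfl1_sound (δ : ℕ) (w : VW) (O : Multiset ℕ) (h : Real (conc δ w) O) :
    Real (conc δ (rfl1 w)) O := by
  cases w with
  | nil => exact h
  | cons e w => exact h.refl.congr (by simp [conc, rfl1]) rfl

theorem conc_inc (δ : ℕ) (w : VW) : conc δ (w.map inc) = (conc δ w).map (· + 1) := by
  simp only [conc, List.map_map]
  refine List.map_congr_left (fun p _ => ?_)
  obtain ⟨e, b⟩ := p
  cases b <;> simp [inc]
  omega

theorem mv_sound (δ j : ℕ) (w : VW) (O : Multiset ℕ) (p : VW × VW) (hm : mv j w = some p)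
    (h : Real (conc δ w) O) : Real (conc δ p.1) (O + ↑(conc δ p.2)) := by
  cases w with
  | nil => simp [mv] at hm
  | cons a t =>
    simp only [mv] at hm
    split at hm
    · simp at hm
    · rename_i b r hd
      simp only [Option.some.injEq] at hm
      subst hm
      have ht : t = t.take j ++ b :: r := by rw [← hd, List.take_append_drop]
      have hl : (t.take j).length = j := by
        have := congrArg List.length hd
        simp only [List.length_drop, List.length_cons] at this
        rw [List.length_take]
        omega
      have h2 : Real ((bif a.2 then a.1 + δ else a.1) :: (conc δ (t.take j) ++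
          (bif b.2 then b.1 + δ else b.1) :: conc δ r)) O := by
        refine h.congr ?_ rfl
        conv_lhs => rw [ht]
        simp [conc]
      refine h2.move.congr ?_ (by rw [conc_inc])
      obtain ⟨a1, a2⟩ := a
      obtain ⟨b1, b2⟩ := b
      have : (conc δ (t.take j)).length = j := by rw [conc, List.length_map, hl]
      rw [this]
      cases a2 <;> cases b2 <;> simp [conc, inc] <;> omega

theorem step_sound (δ s : ℕ) (w : VW) (O : Multiset ℕ) (p : VW × VW) (hm : step s w = some p)
    (h : Real (conc δ w) O) : Real (conc δ p.1) (O + ↑(conc δ p.2)) := by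
  have h1 : Real (conc δ (bif s % 16 / 8 == 1 then rfl1 (rotN (s / 16) w) else rotN (s / 16) w))
      O := by
    cases (s % 16 / 8 == 1)
    · exact rotN_sound δ _ w O h
    · exact rfl1_sound δ _ O (rotN_sound δ _ w O h)
  unfold step at hm
  cases hs : (s % 8 == 7) <;> rw [hs] at hm
  · exact mv_sound δ _ _ O p hm h1
  · simp only [cond_true, Option.some.injEq] at hm
    subst hm
    simpa [conc] using h1

theorem run_sound (δ : ℕ) (s : List ℕ) (w : VW) (O : Multiset ℕ) (p : VW × VW)
    (hm : run s w = some p) (h : Real (conc δ w) O) : Real (conc δ p.1) (O + ↑(conc δ p.2)) := by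
  induction s generalizing w O p with
  | nil =>
    simp only [run, Option.some.injEq] at hm
    subst hm
    simpa [conc] using h
  | cons s ss ih =>
    simp only [run] at hm
    split at hm
    · simp at hm
    · rename_i p1 h1
      split at hm
      · simp at hm
      · rename_i q h2
        simp only [Option.some.injEq] at hm
        subst hm
        refine (ih _ _ q h2 (step_sound δ s w O p1 h1 h)).congr rfl ?_
        simp only [conc, List.map_append]
        rw [add_assoc, Multiset.coe_add]

abbrev Cnt := ℕ × ℕ × ℕ × ℕ

def tal : VW → Option (Cnt × List ℕ)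
  | [] => some ((0, 0, 0, 0), [])
  | p :: o => match tal o with
    | none => none
    | some ((a, b, c, n), m) =>
      bif p.2 then some ((a, b, c, n), p.1 :: m) else
      bif p.1 == 6 then some ((a, b, c, n + 1), m) else
      bif p.1 == 3 then some ((a + 1, b, c, n), m) else
      bif p.1 == 4 then some ((a, b + 1, c, n), m) else
      bif p.1 == 5 then some ((a, b, c + 1, n), m) else none

theorem tal_sound (δ : ℕ) (o : VW) (a b c n : ℕ) (m : List ℕ)
    (h : tal o = some ((a, b, c, n), m)) :
    (↑(conc δ o) : Multiset ℕ) = sm a b c n + ↑(m.map (· + δ)) := by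
  induction o generalizing a b c n m with
  | nil =>
    simp only [tal, Option.some.injEq, Prod.mk.injEq] at h
    obtain ⟨⟨rfl, rfl, rfl, rfl⟩, rfl⟩ := h
    simp [conc, sm]
  | cons p o ih =>
    simp only [tal] at h
    split at h
    · simp at h
    · rename_i a' b' c' n' m' h'
      have := ih _ _ _ _ _ h'
      obtain ⟨e, f⟩ := p
      have e0 : (↑(conc δ ((e, f) :: o)) : Multiset ℕ) =
          {bif f then e + δ else e} + ↑(conc δ o) := by
        simp [conc]
      rw [e0, this]
      cases f
      · simp only [cond_false] at h ⊢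
        simp only [Bool.cond_eq_ite, beq_iff_eq] at h
        split_ifs at h with h6 h3 h4 h5 <;>
          simp only [Option.some.injEq, Prod.mk.injEq] at h <;>
          obtain ⟨⟨rfl, rfl, rfl, rfl⟩, rfl⟩ := h <;> subst_vars <;>
          simp only [sm, Multiset.replicate_succ, ← Multiset.singleton_add] <;> ac_rfl
      · simp only [cond_true, Option.some.injEq, Prod.mk.injEq] at h ⊢
        obtain ⟨⟨rfl, rfl, rfl, rfl⟩, rfl⟩ := h
        simp only [List.map_cons, ← Multiset.cons_coe, ← Multiset.singleton_add]
        abel

def runT (s : List ℕ) (w : VW) : Option (VW × Cnt × List ℕ) :=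
  match run s w with
  | none => none
  | some p => match tal p.2 with
    | none => none
    | some q => some (p.1, q)

theorem runT_sound {s : List ℕ} {w w' : VW} {a b c n : ℕ} {m : List ℕ}
    (hm : runT s w = some (w', (a, b, c, n), m)) (δ : ℕ) (O : Multiset ℕ)
    (h : Real (conc δ w) O) : Real (conc δ w') (O + (sm a b c n + ↑(m.map (· + δ)))) := by
  unfold runT at hm
  split at hm
  · simp at hm
  · rename_i p h1
    split at hm
    · simp at hm
    · rename_i q h2
      simp only [Option.some.injEq, Prod.mk.injEq] at hm
      obtain ⟨rfl, rfl⟩ := hm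
      exact (run_sound δ s w O p h1 h).congr rfl (by rw [tal_sound δ _ _ _ _ _ _ h2])

def unm (w : VW) : Bool := w.all (fun p => !p.2)

theorem conc_unm {w : VW} (h : unm w = true) (δ δ' : ℕ) : conc δ w = conc δ' w := by
  simp only [unm, List.all_eq_true] at h
  refine List.map_congr_left (fun p hp => ?_)
  have := h p hp
  obtain ⟨e, f⟩ := p
  cases f <;> simp_all

/-- stable block: marked head gains `κ`, the tail is restored, outputs counted by `q` -/
def chkBlk (κ : ℕ) (st : List ℕ) (w : VW) : Option Cnt :=
  match w with
  | [] => none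
  | p :: t => bif p.2 && unm t then
      match runT st ((0, true) :: t) with
      | some (w', q, []) => bif w' == (κ, true) :: t then some q else none
      | _ => none
    else none

theorem chkBlk_sound {κ : ℕ} {st : List ℕ} {w : VW} {a b c n : ℕ}
    (hm : chkBlk κ st w = some (a, b, c, n)) (y δ : ℕ) (O : Multiset ℕ) (h : Real (conc δ w) O) :
    Real (conc (δ + κ * y) w) (O + sm (a * y) (b * y) (c * y) (n * y)) := by
  unfold chkBlk at hm
  split at hm
  · simp at hm
  · rename_i p t
    obtain ⟨e, f⟩ := p
    cases f
    · simp at hm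
    cases hu : unm t
    · simp [hu] at hm
    simp only [hu, Bool.and_self, cond_true] at hm
    split at hm
    · rename_i w' q hr
      simp only [Bool.cond_eq_ite, beq_iff_eq] at hm
      split_ifs at hm with hw
      simp only [Option.some.injEq] at hm
      subst hm hw
      induction y with
      | zero => simpa [sm_zero] using h
      | succ y ih =>
        have := runT_sound hr (e + (δ + κ * y)) _ (ih.congr (by
          simp only [conc, List.map_cons, cond_true, zero_add, List.cons.injEq, true_and]
          exact conc_unm hu _ _) rfl)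
        refine this.congr ?_ ?_
        · simp only [conc, List.map_cons, cond_true, List.cons.injEq]
          exact ⟨by ring, conc_unm hu _ _⟩
        · simp only [List.map_nil, Multiset.coe_nil, add_zero, add_assoc, sm_add, Nat.mul_succ]
    · simp at hm

abbrev Ins := ℕ × ℕ × ℕ

def phase : List (List ℕ × ℕ × List ℕ) → VW → Option (VW × Cnt × Ins)
  | [], w => some (w, (0, 0, 0, 0), (0, 0, 0))
  | (s, k, st) :: r, w => match runT s w with
    | some (w1, (a, b, c, n), []) =>
      match phase r w1 with
      | none => none
      | some (w2, (a', b', c', n'), (u0, u1, u2)) =>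
        bif k == 0 then
          (bif chkBlk 6 st w1 == some (2, 0, 0, 6) then
            some (w2, (a + a', b + b', c + c', n + n'), (u0 + 1, u1, u2)) else none)
        else bif k == 1 then
          (bif (List.range 4).any (fun h => chkBlk 2 st w1 == some (0, 1, 0, h)) then
            some (w2, (a + a', b + b', c + c', n + n'), (u0, u1 + 1, u2)) else none)
        else
          (bif (List.range 4).any (fun h => chkBlk 1 st w1 == some (0, 0, 1, h)) then
            some (w2, (a + a', b + b', c + c', n + n'), (u0, u1, u2 + 1)) else none)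
    | _ => none

theorem phase_sound {l : List (List ℕ × ℕ × List ℕ)} {w w' : VW} {a b c n u0 u1 u2 : ℕ}
    (hm : phase l w = some (w', (a, b, c, n), (u0, u1, u2))) (α β γ : ℕ) :
    ∃ x ≤ 3 * (u1 * β + u2 * γ), ∀ (δ : ℕ) (O : Multiset ℕ), Real (conc δ w) O →
      Real (conc (δ + (6 * (u0 * α) + 2 * (u1 * β) + u2 * γ)) w')
        (O + sm (a + 2 * (u0 * α)) (b + u1 * β) (c + u2 * γ) (n + 6 * (u0 * α) + x)) := by
  induction l generalizing w a b c n u0 u1 u2 with
  | nil =>
    simp only [phase, Option.some.injEq, Prod.mk.injEq] at hm
    obtain ⟨rfl, ⟨rfl, rfl, rfl, rfl⟩, rfl, rfl, rfl⟩ := hm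
    exact ⟨0, by simp, fun δ O h => by simpa [sm_zero] using h⟩
  | cons e r ih =>
    obtain ⟨s, k, st⟩ := e
    simp only [phase] at hm
    split at hm
    · rename_i w1 a1 b1 c1 n1 hr
      have h1 := runT_sound hr
      simp only [List.map_nil, Multiset.coe_nil, add_zero] at h1
      split at hm
      · simp at hm
      · rename_i w2 a2 b2 c2 n2 v0 v1 v2 hp
        simp only [Bool.cond_eq_ite, beq_iff_eq, List.any_eq_true, List.mem_range] at hm
        split_ifs at hm with k0 hb k1 hb hb <;>
          simp only [Option.some.injEq, Prod.mk.injEq] at hm <;>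
          obtain ⟨rfl, ⟨rfl, rfl, rfl, rfl⟩, rfl, rfl, rfl⟩ := hm <;>
          obtain ⟨x, hx, h2⟩ := ih hp
        · refine ⟨x, hx, fun δ O h =>
            (h2 _ _ (chkBlk_sound hb α _ _ (h1 δ O h))).congr (by congr 1; ring) ?_⟩
          simp only [add_assoc, sm_add]
          congr 2 <;> ring
        · obtain ⟨y, hy, hb⟩ := hb
          refine ⟨x + y * β, by nlinarith, fun δ O h =>
            (h2 _ _ (chkBlk_sound hb β _ _ (h1 δ O h))).congr (by congr 1; ring) ?_⟩
          simp only [add_assoc, sm_add]
          congr 2 <;> ring
        · obtain ⟨y, hy, hb⟩ := hb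
          refine ⟨x + y * γ, by nlinarith, fun δ O h =>
            (h2 _ _ (chkBlk_sound hb γ _ _ (h1 δ O h))).congr (by congr 1; ring) ?_⟩
          simp only [add_assoc, sm_add]
          congr 2 <;> ring
    · simp at hm

end Pool.Agent.P.MP_b50a78_co
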