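import Pool.Agent.P.MP_b50a78_co.Real

set_option autoImplicit false

namespace Pool.Agent.P.MP_b50a78_co

theorem deg_insert {J : Finset ℕ} {τ : ℕ → Finset ℕ} {k : ℕ} (hk : k ∉ J) (i : ℕ) :
    deg (insert k J) τ i = deg J τ i + if i ∈ τ k then 1 else 0 := by
  unfold deg
  rw [Finset.filter_insert]
  split_ifs with h
  · rw [Finset.card_insert_of_notMem (fun e => hk (Finset.mem_of_mem_filter _ e))]
  · rfl

theorem Real.move {a b : ℕ} {ms r : List ℕ} {O : Multiset ℕ} (h : Real (a :: (ms ++ b :: r)) O) :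
    Real ((a + 1) :: (ms.length + 2) :: (b + 1) :: r) (O + ↑(ms.map (· + 1))) := by
  obtain ⟨I, J, L, c, x, τ, A, l, hc, h⟩ := h
  have hw := h.degw
  simp only [List.map_cons, List.cons.injEq, List.map_append] at hw
  obtain ⟨hA, hw⟩ := hw
  obtain ⟨M, l2, rfl, hM, hw⟩ := List.map_eq_append_iff.1 hw
  obtain ⟨B, R, rfl, hB, hR⟩ := List.map_eq_cons_iff.1 hw
  have hnd := h.nodup
  have hnz := h.nz
  simp only [List.nodup_cons, List.mem_append, List.mem_cons, not_or, List.nodup_append] at hnd hnz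
  obtain ⟨⟨AM, AB, AR⟩, ndM, ⟨BR, ndR⟩, dj⟩ := hnd
  obtain ⟨A0, M0, B0, R0⟩ := hnz
  have BM : B ∉ M := fun e => dj B e B (Or.inl rfl) rfl
  have MR : ∀ i ∈ M, i ∉ R := fun i a b => dj i a i (Or.inr b) rfl
  have hlen : 1 ≤ M.length + R.length := by
    have := h.len
    simp only [List.length_append, List.length_cons] at this
    omega
  have htop : ∀ s, s ∈ trip (A :: (M ++ [B])) ∨ s ∈ trip (B :: (R ++ [A])) ↔
      ∃ k ∈ J, 0 ∈ τ k ∧ τ k = s := by
    intro s
    have := trip_append (A :: M) B (R ++ [A])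
    simp only [List.cons_append] at this
    rw [← h.top s, List.append_assoc, List.cons_append, this, List.mem_append]
  obtain ⟨m1, a1, b1, c1⟩ := trip_first A M B
  obtain ⟨m2, a2, b2⟩ := trip_last B R A
  obtain ⟨m3, a3, b3⟩ := trip_last A M B
  obtain ⟨m4, a4, b4, c4⟩ := trip_first B R A
  obtain ⟨k1, h1, T1, e1⟩ := (htop _).1 (Or.inl a1)
  obtain ⟨k2, h2, T2, e2⟩ := (htop _).1 (Or.inr a2)
  obtain ⟨k3, h3, T3, e3⟩ := (htop _).1 (Or.inl a3)
  obtain ⟨k4, h4, T4, e4⟩ := (htop _).1 (Or.inr a4)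
  have h12 : k1 ≠ k2 := by
    rintro rfl
    have : m1 ∈ ({0, m2, A} : Finset ℕ) := by rw [← e2, e1]; simp
    simp only [Finset.mem_insert, Finset.mem_singleton] at this
    rcases b1 with b1 | ⟨rfl, rfl⟩ <;> rcases b2 with b2 | ⟨rfl, rfl⟩
    · rcases this with rfl | rfl | rfl
      · exact M0 b1
      · exact MR _ b1 b2
      · exact AM b1
    · rcases this with rfl | rfl | rfl
      · exact M0 b1
      · exact BM b1
      · exact AM b1
    · rcases this with rfl | rfl | rfl
      · exact B0 rfl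
      · exact BR b2
      · exact AB rfl
    · simp at hlen
  have h34 : k3 ≠ k4 := by
    rintro rfl
    have : m3 ∈ ({0, B, m4} : Finset ℕ) := by rw [← e4, e3]; simp
    simp only [Finset.mem_insert, Finset.mem_singleton] at this
    rcases b3 with b3 | ⟨rfl, rfl⟩ <;> rcases b4 with b4 | ⟨rfl, rfl⟩
    · rcases this with rfl | rfl | rfl
      · exact M0 b3
      · exact BM b3
      · exact MR _ b3 b4
    · rcases this with rfl | rfl | rfl
      · exact M0 b3
      · exact BM b3
      · exact AM b3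
    · rcases this with rfl | rfl | rfl
      · exact A0 rfl
      · exact AB rfl
      · exact AR b4
    · simp at hlen
  obtain ⟨n, hn⟩ := Infinite.exists_notMem_finset I
  obtain ⟨kq, hkq⟩ := Infinite.exists_notMem_finset J
  obtain ⟨kp, hkp'⟩ := Infinite.exists_notMem_finset (insert kq J)
  have hkp := hkp'
  rw [Finset.mem_insert, not_or] at hkp
  obtain ⟨C, L', c', x', CJ, CT, C1, C2, C34, hcl, hc'⟩ := hc.cut (T := 0) (A := A) (B := B) A0 B0 AB
    hn hkp.2 hkq hkp.1 h1 h2 h3 h4 h12 h34 T1 T2 T3 T4 (by rw [e1]; simp) (by rw [e2]; simp)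
    (by rw [e3]; simp) (by rw [e4]; simp)
  have P1 : ∀ s ∈ trip (A :: (M ++ [B])), ∀ k ∈ J, τ k = s → k ∈ C := by
    refine trip_path (fun s => ∀ k ∈ J, τ k = s → k ∈ C) A M B ?_ ?_
    · intro m hm k hk e
      rw [c1] at hm
      cases hm
      rw [hc.inj k hk k1 h1 (e.trans e1.symm)]
      exact C1
    · intro d hd s hs s' hs' ds ds' q k' hk' e'
      obtain ⟨k, hk, -, e⟩ := (htop _).1 (Or.inl hs)
      obtain ⟨k'', -, T'', e''⟩ := (htop _).1 (Or.inl hs')
      exact hcl k (q k hk e) k' hk' d (fun z => M0 (z ▸ hd)) (fun z => AM (z ▸ hd))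
        (fun z => BM (z ▸ hd)) (by rw [e', ← e'']; exact T'') (e ▸ ds) (e' ▸ ds')
  have P2 : ∀ s ∈ trip (B :: (R ++ [A])), ∀ k ∈ J, τ k = s → k ∉ C := by
    refine trip_path (fun s => ∀ k ∈ J, τ k = s → k ∉ C) B R A ?_ ?_
    · intro m hm k hk e
      rw [c4] at hm
      cases hm
      rw [hc.inj k hk k4 h4 (e.trans e4.symm)]
      exact C34.1 (P1 _ a3 k3 h3 e3)
    · intro d hd s hs s' hs' ds ds' q k' hk' e' hC
      obtain ⟨k, hk, T, e⟩ := (htop _).1 (Or.inr hs)
      exact q k hk e (hcl k' hC k hk d (fun z => R0 (z ▸ hd)) (fun z => AR (z ▸ hd))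
        (fun z => BR (z ▸ hd)) T (e' ▸ ds') (e ▸ ds))
  have hCcard : C.card = M.length + 1 := by
    have nd : (A :: (M ++ [B])).Nodup := by
      simp only [List.nodup_cons, List.mem_append, List.mem_singleton, not_or, List.nodup_append]
      refine ⟨⟨AM, AB⟩, ndM, by simp, ?_⟩
      rintro i hi j rfl rfl
      exact BM hi
    have e : C.image τ = (trip (A :: (M ++ [B]))).toFinset := by
      ext s
      simp only [Finset.mem_image, List.mem_toFinset]
      constructor
      · rintro ⟨k, hk, rfl⟩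
        rcases (htop _).2 ⟨k, CJ hk, CT k hk, rfl⟩ with e | e
        · exact e
        · exact absurd hk (P2 _ e k (CJ hk) rfl)
      · intro hs
        obtain ⟨k, hk, -, e⟩ := (htop _).1 (Or.inl hs)
        exact ⟨k, P1 s hs k hk e, e⟩
    rw [← Finset.card_image_of_injOn (f := τ) (fun a ha b hb e => hc.inj a (CJ ha) b (CJ hb) e), e,
      List.toFinset_card_of_nodup (trip_nodup nd (by simp [A0, M0, B0])), trip_length]
    simp
  have AI := h.sub A (by simp)
  have BI := h.sub B (by simp)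
  have n0 : n ≠ 0 := fun e => hn (e ▸ h.zero)
  have nA : n ≠ A := fun e => hn (e ▸ AI)
  have nB : n ≠ B := fun e => hn (e ▸ BI)
  have nτ : ∀ k ∈ J, n ∉ τ k := fun k hk e => hn (hc.sub k hk e)
  set τ' := newτ τ C 0 A B n kp kq with hτ'
  have τp : τ' kp = {0, A, n} := by simp [hτ', newτ]
  have τq : τ' kq = {0, n, B} := by simp [hτ', newτ, Ne.symm hkp.1]
  have neJ : ∀ k ∈ J, k ≠ kp ∧ k ≠ kq := fun k hk =>
    ⟨fun e => hkp.2 (e ▸ hk), fun e => hkq (e ▸ hk)⟩
  have τC : ∀ k ∈ C, τ' k = insert n ((τ k).erase 0) := fun k hk => by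
    simp [hτ', newτ, neJ k (CJ hk), hk]
  have τN : ∀ k ∈ J, k ∉ C → τ' k = τ k := fun k hk hk' => by simp [hτ', newτ, neJ k hk, hk']
  clear hτ'
  clear_value τ'
  have hmem : ∀ i ∈ I, i ≠ 0 → ∀ k ∈ J, (i ∈ τ' k ↔ i ∈ τ k) := by
    intro i hi i0 k hk
    have : i ≠ n := fun e => hn (e ▸ hi)
    by_cases e : k ∈ C
    · simp [τC k e, this, i0]
    · rw [τN k hk e]
  have hdeg : ∀ i, deg (insert kp (insert kq J)) τ' i = deg J τ' i +
      (if i ∈ ({0, n, B} : Finset ℕ) then 1 else 0) +
      (if i ∈ ({0, A, n} : Finset ℕ) then 1 else 0) := by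
    intro i
    rw [deg_insert hkp', deg_insert hkq, τp, τq]
  have hdI : ∀ i ∈ I, i ≠ 0 → deg J τ' i = deg J τ i := by
    intro i hi i0
    unfold deg
    rw [Finset.filter_congr (hmem i hi i0)]
  have hdn : deg J τ' n = C.card := by
    unfold deg
    congr 1
    ext k
    rw [Finset.mem_filter]
    constructor
    · rintro ⟨hk, e⟩
      by_contra e'
      exact nτ k hk (τN k hk e' ▸ e)
    · intro hk
      exact ⟨CJ hk, by simp [τC k hk]⟩
  have hd0 : deg J τ' 0 + C.card = deg J τ 0 := by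
    unfold deg
    rw [← Finset.card_union_of_disjoint]
    · congr 1
      ext k
      simp only [Finset.mem_union, Finset.mem_filter]
      by_cases e : k ∈ C
      · simp [e, CJ e, CT k e]
      · simp only [e, or_false]
        exact and_congr_right (fun hk => by rw [τN k hk e])
    · rw [Finset.disjoint_right]
      intro k hk
      simp [τC k hk, n0.symm]
  have hsame : ∀ i ∈ I, i ≠ 0 → i ≠ A → i ≠ B →
      deg (insert kp (insert kq J)) τ' i = deg J τ i := by
    intro i hi i0 iA iB
    have : i ≠ n := fun e => hn (e ▸ hi)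
    rw [hdeg, hdI i hi i0]
    simp [i0, iA, iB, this]
  have RI : ∀ i ∈ R, i ∈ I := fun i hi => h.sub i (by simp [hi])
  have MI : ∀ i ∈ M, i ∈ I := fun i hi => h.sub i (by simp [hi])
  have nR : n ∉ R := fun e => hn (RI n e)
  refine ⟨_, _, L', c', x', τ', A, n :: B :: R, hc', ?_, Finset.mem_insert_of_mem h.zero, ?_, ?_,
    by simp, ?_, ?_, ?_, ?_, ?_⟩
  · intro i hi
    by_cases e : i = n ∨ i = 0
    · exact ⟨kp, by simp, by rcases e with rfl | rfl <;> simp [τp]⟩
    · rw [not_or] at e
      have hi' := (Finset.mem_insert.1 hi).resolve_left e.1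
      obtain ⟨k, hk, hik⟩ := h.used i hi'
      exact ⟨k, by simp [hk], (hmem i hi' e.2 k hk).2 hik⟩
  · simp [nA.symm, AB, AR, nB, nR, BR, ndR]
  · simp [A0, n0.symm, B0, R0]
  · intro i hi
    simp only [List.mem_cons] at hi
    rcases hi with rfl | rfl | rfl | hi
    · exact Finset.mem_insert_of_mem AI
    · exact Finset.mem_insert_self _ _
    · exact Finset.mem_insert_of_mem BI
    · exact Finset.mem_insert_of_mem (RI i hi)
  · intro s
    simp only [List.cons_append, trip, List.mem_cons]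
    constructor
    · rintro (rfl | rfl | hs)
      · exact ⟨kp, by simp, by simp [τp], τp⟩
      · exact ⟨kq, by simp, by simp [τq], τq⟩
      · obtain ⟨k, hk, T, e⟩ := (htop _).1 (Or.inr hs)
        have := τN k hk (P2 s hs k hk e)
        exact ⟨k, by simp [hk], this ▸ T, this.trans e⟩
    · rintro ⟨k, hk, T, rfl⟩
      simp only [Finset.mem_insert] at hk
      rcases hk with rfl | rfl | hk
      · exact Or.inl τp
      · exact Or.inr (Or.inl τq)
      · have e : k ∉ C := by
          intro e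
          simp [τC k e, n0.symm] at T
        rw [τN k hk e] at T ⊢
        rcases (htop _).2 ⟨k, hk, T, rfl⟩ with e' | e'
        · exact absurd (P1 _ e' k hk rfl) e
        · exact Or.inr (Or.inr e')
  · have := h.deg0
    rw [hdeg]
    simp only [List.length_append, List.length_cons] at this ⊢
    simp
    omega
  · simp only [List.map_cons, List.cons.injEq]
    refine ⟨?_, ?_, ?_, ?_⟩
    · rw [hdeg, hdI A AI (Ne.symm A0), hA]
      simp [Ne.symm A0, nA.symm, AB]
    · rw [hdeg, hdn, hCcard]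
      have := congrArg List.length hM
      simp only [List.length_map] at this
      simp [this]
    · rw [hdeg, hdI B BI (Ne.symm B0), hB]
      simp [Ne.symm B0, nB.symm, Ne.symm AB]
    · rw [← hR]
      exact List.map_congr_left (fun i hi => hsame i (RI i hi) (fun z => R0 (z ▸ hi))
        (fun z => AR (z ▸ hi)) (fun z => BR (z ▸ hi)))
  · have e : ((insert n I).filter (fun i => i ≠ 0 ∧ i ∉ A :: n :: B :: R)).val =
        (I.filter (fun i => i ≠ 0 ∧ i ∉ A :: (M ++ B :: R))).val + ↑M := by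
      ext i
      rw [Multiset.count_add, Multiset.count_eq_of_nodup (Finset.nodup _),
        Multiset.count_eq_of_nodup (Finset.nodup _),
        Multiset.count_eq_of_nodup (Multiset.coe_nodup.2 ndM)]
      simp only [Finset.mem_val, Finset.mem_filter, Multiset.mem_coe, Finset.mem_insert,
        List.mem_cons, List.mem_append, not_or]
      by_cases hi : i ∈ M
      · have i0 : i ≠ 0 := fun z => M0 (z ▸ hi)
        have iA : i ≠ A := fun z => AM (z ▸ hi)
        have iB : i ≠ B := fun z => BM (z ▸ hi)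
        have i_n : i ≠ n := fun z => hn (z ▸ MI i hi)
        simp [hi, MI i hi, i0, iA, iB, i_n, MR i hi]
      · by_cases i_n : i = n
        · simp [i_n, hn, i_n ▸ hi]
        · simp [hi, i_n]
    rw [e, Multiset.map_add, ← h.degO, Multiset.map_coe, ← hM]
    congr 1
    · refine Multiset.map_congr rfl (fun i hi => ?_)
      simp only [Finset.mem_val, Finset.mem_filter, List.mem_cons, List.mem_append, not_or] at hi
      exact hsame i hi.1 hi.2.1 hi.2.2.1 hi.2.2.2.2.1
    · rw [List.map_congr_left (fun i hi => hsame i (MI i hi) (fun z => M0 (z ▸ hi))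
        (fun z => AM (z ▸ hi)) (fun z => BM (z ▸ hi)))]

end Pool.Agent.P.MP_b50a78_co
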