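import Pool.Agent.P.MP_b50a78_co.Cert

set_option autoImplicit false

namespace Pool.Agent.P.MP_b50a78_co

theorem sum_invol {α R : Type} [DecidableEq α] [AddCommGroup R] (D : Finset α) (θ : α → α)
    (u : α → R) (hm : ∀ d ∈ D, θ d ∈ D) (hi : ∀ d ∈ D, θ (θ d) = d) (hne : ∀ d ∈ D, θ d ≠ d)
    (d0 : α) (h0 : d0 ∈ D) (hz : ∀ d ∈ D, d ≠ d0 → d ≠ θ d0 → u d + u (θ d) = 0) :
    ∑ d ∈ D, u d = u d0 + u (θ d0) := by
  have h1 : θ d0 ∈ D.erase d0 := Finset.mem_erase.2 ⟨hne d0 h0, hm d0 h0⟩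
  rw [← Finset.add_sum_erase D u h0, ← Finset.add_sum_erase _ u h1]
  have : ∑ d ∈ (D.erase d0).erase (θ d0), u d = 0 := by
    refine Finset.sum_involution (fun d _ => θ d) ?_ ?_ ?_ ?_
    · intro d hd
      simp only [Finset.mem_erase] at hd
      exact hz d hd.2.2 hd.2.1 hd.1
    · intro d hd _
      simp only [Finset.mem_erase] at hd
      exact hne d hd.2.2
    · intro d hd
      simp only [Finset.mem_erase] at hd ⊢
      refine ⟨fun h => hd.2.1 ?_, fun h => hd.1 ?_, hm d hd.2.2⟩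
      · rw [← hi d hd.2.2, h, hi d0 h0]
      · rw [← hi d hd.2.2, h]
    · intro d hd
      simp only [Finset.mem_erase] at hd
      exact hi d hd.2.2
  rw [this, add_zero]

structure Gr {ι κ : Type} [DecidableEq ι] (J : Finset κ) (τ : κ → Finset ι) (n : κ → ι → κ)
    (o : κ → ι → ι) : Prop where
  card : ∀ k ∈ J, (τ k).card = 3
  nJ : ∀ k ∈ J, ∀ i ∈ τ k, n k i ∈ J
  τn : ∀ k ∈ J, ∀ i ∈ τ k, τ (n k i) = insert (o k i) ((τ k).erase i)
  oN : ∀ k ∈ J, ∀ i ∈ τ k, o k i ∉ τ k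
  nn : ∀ k ∈ J, ∀ i ∈ τ k, n (n k i) (o k i) = k
  oo : ∀ k ∈ J, ∀ i ∈ τ k, o (n k i) (o k i) = i
  conn : ∀ (c : ι) (U : Finset κ), (∀ k ∈ U, k ∈ J ∧ c ∈ τ k) → U.Nonempty →
    (∀ k ∈ U, ∀ i ∈ τ k, i ≠ c → n k i ∈ U) → ∀ z ∈ J, c ∈ τ z → z ∈ U

section
variable {ι κ : Type} [DecidableEq ι] [DecidableEq κ] {J : Finset κ} {τ : κ → Finset ι}
  {n : κ → ι → κ} {o : κ → ι → ι}

/-- transport of a label across an edge: `i` is dropped, `h` is gained -/
def tr (i h : ι) (l : Option ι) : Option ι :=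
  if l = some i then none else if l = none then some h else l

def Valid (τ : κ → Finset ι) (ℓ : κ → Option ι) (k : κ) : Prop := ∀ i, ℓ k = some i → i ∈ τ k

def Flat (n : κ → ι → κ) (o : κ → ι → ι) (ℓ : κ → Option ι) (k : κ) (i : ι) : Prop :=
  ℓ (n k i) = tr i (o k i) (ℓ k)

def wt (ℓ : κ → Option ι) (k : κ) (i : ι) : ℤ :=
  (if ℓ k = none then 1 else 0) - (if ℓ k = some i then 1 else 0)

omit [DecidableEq κ] in
theorem Gr.o_mem (g : Gr J τ n o) {k : κ} (hk : k ∈ J) {i : ι} (hi : i ∈ τ k) :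
    o k i ∈ τ (n k i) := by
  rw [g.τn k hk i hi]
  exact Finset.mem_insert_self _ _

omit [DecidableEq κ] in
theorem Gr.mem_n (g : Gr J τ n o) {k : κ} (hk : k ∈ J) {i j : ι} (hi : i ∈ τ k) (hj : j ∈ τ k)
    (hne : j ≠ i) : j ∈ τ (n k i) := by
  rw [g.τn k hk i hi]
  exact Finset.mem_insert_of_mem (Finset.mem_erase.2 ⟨hne, hj⟩)

omit [DecidableEq κ] in
theorem Gr.n_ne (g : Gr J τ n o) {k : κ} (hk : k ∈ J) {i : ι} (hi : i ∈ τ k) : n k i ≠ k := by
  intro h
  have := g.o_mem hk hi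
  rw [h] at this
  exact g.oN k hk i hi this

omit [DecidableEq κ] in
theorem Gr.flat_symm (g : Gr J τ n o) {ℓ : κ → Option ι} {k : κ} (hk : k ∈ J) {i : ι}
    (hi : i ∈ τ k) (hv : Valid τ ℓ k) (hf : Flat n o ℓ k i) : Flat n o ℓ (n k i) (o k i) := by
  unfold Flat at hf ⊢
  rw [g.nn k hk i hi, g.oo k hk i hi, hf]
  have := g.oN k hk i hi
  unfold tr
  rcases hl : ℓ k with _ | j
  · simp
  · have hj := hv j hl
    have : j ≠ o k i := fun h => this (h ▸ hj)
    by_cases hji : j = i <;> simp [hji, this]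

omit [DecidableEq κ] in
theorem Gr.valid_tr (g : Gr J τ n o) {k : κ} (hk : k ∈ J) {i : ι}
    (hi : i ∈ τ k) {l : Option ι} (hv : ∀ j, l = some j → j ∈ τ k) (j : ι)
    (h : tr i (o k i) l = some j) : j ∈ τ (n k i) := by
  unfold tr at h
  rcases l with _ | m
  · simp at h
    exact h ▸ g.o_mem hk hi
  · by_cases hm : m = i
    · simp [hm] at h
    · simp [hm] at h
      exact h ▸ g.mem_n hk hi (hv m rfl) hm

omit [DecidableEq κ] in
theorem Gr.wt_flat (g : Gr J τ n o) {ℓ : κ → Option ι} {k : κ} (hk : k ∈ J) {i : ι}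
    (hi : i ∈ τ k) (hv : Valid τ ℓ k) (hf : Flat n o ℓ k i) :
    wt ℓ k i + wt ℓ (n k i) (o k i) = 0 := by
  unfold Flat at hf
  unfold wt
  rw [hf]
  have := g.oN k hk i hi
  unfold tr
  rcases hl : ℓ k with _ | j
  · simp
  · have hj := hv j hl
    have : j ≠ o k i := fun h => this (h ▸ hj)
    by_cases hji : j = i <;> simp [hji, this]

omit [DecidableEq κ] in
theorem sum_wt (ℓ : κ → Option ι) (k : κ) (s : Finset ι) (hv : ∀ j, ℓ k = some j → j ∈ s) :
    ∑ i ∈ s, wt ℓ k i = if ℓ k = none then (s.card : ℤ) else -1 := by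
  unfold wt
  rcases hl : ℓ k with _ | j
  · simp
  · simp [hv j hl]

theorem Gr.four_dvd (g : Gr J τ n o) (ℓ : κ → Option ι) (hv : ∀ k ∈ J, Valid τ ℓ k)
    (hf : ∀ k ∈ J, ∀ i ∈ τ k, Flat n o ℓ k i) : 4 ∣ J.card := by
  have h1 : ∑ d ∈ J.sigma τ, wt ℓ d.1 d.2 = 0 := by
    refine Finset.sum_involution (fun d _ => ⟨n d.1 d.2, o d.1 d.2⟩) ?_ ?_ ?_ ?_
    · intro d hd
      rw [Finset.mem_sigma] at hd
      exact g.wt_flat hd.1 hd.2 (hv _ hd.1) (hf _ hd.1 _ hd.2)
    · intro d hd _ he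
      rw [Finset.mem_sigma] at hd
      exact g.n_ne hd.1 hd.2 (congrArg Sigma.fst he)
    · intro d hd
      rw [Finset.mem_sigma] at hd ⊢
      exact ⟨g.nJ _ hd.1 _ hd.2, g.o_mem hd.1 hd.2⟩
    · intro d hd
      rw [Finset.mem_sigma] at hd
      simp only [g.nn _ hd.1 _ hd.2, g.oo _ hd.1 _ hd.2]
  rw [Finset.sum_sigma] at h1
  have h2 : (4 : ℤ) ∣ ∑ k ∈ J, ((∑ i ∈ τ k, wt ℓ k i) - 3) := by
    refine Finset.dvd_sum (fun k hk => ?_)
    rw [sum_wt ℓ k (τ k) (hv k hk), g.card k hk]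
    split_ifs <;> norm_num
  rw [Finset.sum_sub_distrib, h1] at h2
  simp only [Finset.sum_const, nsmul_eq_mul] at h2
  omega

theorem Gr.face_flat (g : Gr J τ n o) (ℓ : κ → Option ι) (c : ι) (h3 : 3 ∣ deg J τ c)
    (hv : ∀ k ∈ J, c ∈ τ k → Valid τ ℓ k) {v : κ} (hvJ : v ∈ J) (hc : c ∈ τ v) {j : ι}
    (hj : j ∈ τ v) (hjc : j ≠ c)
    (hf : ∀ k ∈ J, c ∈ τ k → ∀ i ∈ τ k, i ≠ c → ¬ (k = v ∧ i = j) → ¬ (k = n v j ∧ i = o v j) →
      Flat n o ℓ k i) : Flat n o ℓ v j := by
  let D : Finset (Σ _ : κ, ι) := (J.filter (fun k => c ∈ τ k)).sigma (fun k => (τ k).erase c)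
  let θ : (Σ _ : κ, ι) → (Σ _ : κ, ι) := fun d => ⟨n d.1 d.2, o d.1 d.2⟩
  have hD : ∀ d : (Σ _ : κ, ι), d ∈ D ↔ (d.1 ∈ J ∧ c ∈ τ d.1) ∧ (d.2 ≠ c ∧ d.2 ∈ τ d.1) := by
    intro d
    simp only [D, Finset.mem_sigma, Finset.mem_filter, Finset.mem_erase]
  have key : ∀ (R : Type) [AddCommGroup R] (u : κ → ι → R), (∀ k ∈ J, c ∈ τ k → ∀ i ∈ τ k, i ≠ c → Flat n o ℓ k i →
      u k i + u (n k i) (o k i) = 0) →
      ∑ k ∈ J.filter (fun k => c ∈ τ k), ∑ i ∈ (τ k).erase c, u k i =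
        u v j + u (n v j) (o v j) := by
    intro R _ u hu
    have := sum_invol D θ (fun d => u d.1 d.2) ?_ ?_ ?_ ⟨v, j⟩ ((hD _).2 ⟨⟨hvJ, hc⟩, hjc, hj⟩) ?_
    · rw [Finset.sum_sigma] at this
      exact this
    · intro d hd
      rw [hD] at hd ⊢
      refine ⟨⟨g.nJ _ hd.1.1 _ hd.2.2, g.mem_n hd.1.1 hd.2.2 hd.1.2 hd.2.1.symm⟩, ?_,
        g.o_mem hd.1.1 hd.2.2⟩
      intro h
      have h' : o d.1 d.2 = c := h
      exact g.oN _ hd.1.1 _ hd.2.2 (h' ▸ hd.1.2)
    · intro d hd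
      rw [hD] at hd
      simp only [θ, g.nn _ hd.1.1 _ hd.2.2, g.oo _ hd.1.1 _ hd.2.2]
    · intro d hd he
      rw [hD] at hd
      exact g.n_ne hd.1.1 hd.2.2 (congrArg Sigma.fst he)
    · intro d hd h1 h2
      rw [hD] at hd
      refine hu _ hd.1.1 hd.1.2 _ hd.2.2 hd.2.1 (hf _ hd.1.1 hd.1.2 _ hd.2.2 hd.2.1 ?_ ?_)
      · rintro ⟨a, b⟩
        exact h1 (Sigma.ext a (heq_of_eq b))
      · rintro ⟨a, b⟩
        exact h2 (Sigma.ext a (heq_of_eq b))
  have hv'J := g.nJ v hvJ j hj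
  have hc' := g.mem_n hvJ hj hc hjc.symm
  have hoc : o v j ≠ c := fun h => g.oN v hvJ j hj (h ▸ hc)
  have hFc : ∀ k ∈ J, c ∈ τ k → ∀ i ∈ τ k, i ≠ c → Flat n o ℓ k i →
      (ℓ (n k i) = some c ↔ ℓ k = some c) := by
    intro k hk hck i hi hic hfl
    have : o k i ≠ c := fun h => g.oN k hk i hi (h ▸ hck)
    unfold Flat tr at hfl
    rw [hfl]
    rcases hl : ℓ k with _ | m
    · simp [this]
    · by_cases hm : m = i
      · simp [hm, hic]
      · simp [hm]
  have hcard : ∀ k ∈ J, c ∈ τ k → ((τ k).erase c).card = 2 := by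
    intro k hk hck
    rw [Finset.card_erase_of_mem hck, g.card k hk]
  have hpar : ℓ (n v j) = some c ↔ ℓ v = some c := by
    have h1 := key (ZMod 2) (fun k _ => if ℓ k = some c then 1 else 0) (by
      intro k hk hck i hi hic hfl
      simp only [hFc k hk hck i hi hic hfl]
      split_ifs <;> decide)
    rw [Finset.sum_eq_zero (by
      intro k hk
      rw [Finset.mem_filter] at hk
      rw [Finset.sum_const, hcard k hk.1 hk.2]
      split_ifs <;> decide)] at h1
    by_cases a : ℓ v = some c <;> by_cases b : ℓ (n v j) = some c <;> simp [a, b] at h1 ⊢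
  by_cases hvc : ℓ v = some c
  · unfold Flat tr
    rw [hpar.2 hvc, hvc]
    simp [hjc.symm]
  have hv'c : ℓ (n v j) ≠ some c := fun h => hvc (hpar.1 h)
  have hnone : ∀ k ∈ J, c ∈ τ k → ℓ k ≠ some c := by
    intro k hk hck hl
    have := g.conn c (J.filter (fun k => c ∈ τ k ∧ ℓ k = some c))
      (fun k hk => by rw [Finset.mem_filter] at hk; exact ⟨hk.1, hk.2.1⟩)
      ⟨k, Finset.mem_filter.2 ⟨hk, hck, hl⟩⟩ (by
        intro k hk i hi hic
        rw [Finset.mem_filter] at hk ⊢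
        refine ⟨g.nJ k hk.1 i hi, g.mem_n hk.1 hi hk.2.1 hic.symm, ?_⟩
        refine (hFc k hk.1 hk.2.1 i hi hic (hf k hk.1 hk.2.1 i hi hic ?_ ?_)).2 hk.2.2
        · rintro ⟨rfl, -⟩
          exact hvc hk.2.2
        · rintro ⟨rfl, -⟩
          exact hv'c hk.2.2) v hvJ hc
    rw [Finset.mem_filter] at this
    exact hvc this.2.2
  have h1 := key ℤ (wt ℓ) (fun k hk hck i hi _ hfl => g.wt_flat hk hi (hv k hk hck) hfl)
  have h2 : (3 : ℤ) ∣ ∑ k ∈ J.filter (fun k => c ∈ τ k), ((∑ i ∈ (τ k).erase c, wt ℓ k i) - 2) := by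
    refine Finset.dvd_sum (fun k hk => ?_)
    rw [Finset.mem_filter] at hk
    rw [sum_wt ℓ k _ (fun m hm => Finset.mem_erase.2
      ⟨fun e => hnone k hk.1 hk.2 (by rw [hm, e]), hv k hk.1 hk.2 m hm⟩), hcard k hk.1 hk.2]
    split_ifs <;> norm_num
  rw [Finset.sum_sub_distrib, h1] at h2
  simp only [Finset.sum_const, nsmul_eq_mul] at h2
  have h4 : (3 : ℤ) ∣ wt ℓ v j + wt ℓ (n v j) (o v j) := by
    unfold deg at h3
    omega
  unfold Flat tr
  unfold wt at h4
  rcases hl : ℓ v with _ | a <;> rcases hl' : ℓ (n v j) with _ | b <;> rw [hl, hl'] at h4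
  · simp at h4
  · by_cases hb : b = o v j
    · simp [hb]
    · simp [hb] at h4
  · by_cases ha : a = j
    · simp [ha]
    · simp [ha] at h4
  · by_cases ha : a = j <;> by_cases hb : b = o v j <;> simp [ha, hb] at h4 ⊢ <;> try omega
    -- both labels are the remaining common facet
    have a1 := hv v hvJ hc a hl
    have b1 := hv _ hv'J hc' b hl'
    rw [g.τn v hvJ j hj, Finset.mem_insert, Finset.mem_erase] at b1
    have b2 := b1.resolve_left hb
    have hac : a ≠ c := fun e => hvc (e ▸ hl)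
    have hbc : b ≠ c := fun e => hv'c (e ▸ hl')
    have h5 : (((τ v).erase c).erase j).card = 1 := by
      rw [Finset.card_erase_of_mem (Finset.mem_erase.2 ⟨hjc, hj⟩), hcard v hvJ hc]
    exact Finset.card_le_one.1 h5.le b (by simp [b2, hbc]) a (by simp [ha, hac, a1])

theorem Gr.four_dvd_of_key (g : Gr J τ n o) {β : Type} [LinearOrder β] (key : κ → β)
    (hinj : ∀ k ∈ J, ∀ k' ∈ J, key k = key k' → k = k')
    (hle : ∀ k ∈ J, ∀ z ∈ J, (∀ i ∈ τ k, i ∉ τ z → key (n k i) ≤ key k) → key z ≤ key k)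
    (hge : ∀ k ∈ J, ∀ z ∈ J, (∀ i ∈ τ k, i ∉ τ z → key k ≤ key (n k i)) → key k ≤ key z)
    (f e : ι) (hex : ∀ k ∈ J, ∀ c ∈ τ k, c ≠ f → c ≠ e → 3 ∣ deg J τ c)
    (b t : κ) (hb : b ∈ J) (ht : t ∈ J) (hfb : f ∈ τ b) (het : e ∈ τ t) (hbt : b ≠ t)
    (hbot : ∀ k ∈ J, key b ≤ key k) (htop : ∀ k ∈ J, key k ≤ key t) : 4 ∣ J.card := by
  have main : ∀ S : Finset κ, S ⊆ J → (∀ k ∈ S, ∀ k' ∈ J, key k' ≤ key k → k' ∈ S) →
      ∃ ℓ : κ → Option ι, (∀ k ∈ S, Valid τ ℓ k) ∧
        (∀ k ∈ S, ∀ i ∈ τ k, n k i ∈ S → Flat n o ℓ k i) ∧ (∀ k ∈ S, f ∈ τ k → ℓ k = some f) := by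
    intro S
    induction S using Finset.induction_on_max_value key with
    | empty => exact fun _ _ => ⟨fun _ => none, by simp, by simp, by simp⟩
    | insert v S hvS hmax ih =>
      intro hSJ hdown
      have hvJ : v ∈ J := hSJ (Finset.mem_insert_self _ _)
      have hSJ' : S ⊆ J := fun k hk => hSJ (Finset.mem_insert_of_mem hk)
      by_cases hvb : v = b
      · have hS : S = ∅ := by
          rw [Finset.eq_empty_iff_forall_notMem]
          intro k hk
          have := hinj k (hSJ' hk) v hvJ (le_antisymm (hmax k hk) (hvb ▸ hbot k (hSJ' hk)))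
          exact hvS (this ▸ hk)
        subst hS hvb
        refine ⟨fun _ => some f, ?_, ?_, by simp⟩
        · intro k hk i hi
          simp only [Finset.mem_insert, Finset.notMem_empty, or_false] at hk
          simp only [Option.some.injEq] at hi
          rw [hk, ← hi]
          exact hfb
        · intro k hk i hi hn
          simp only [Finset.mem_insert, Finset.notMem_empty, or_false] at hk hn
          subst hk
          exact absurd hn (g.n_ne hvJ hi)
      obtain ⟨ℓ, hval, hflat, hlf⟩ := ih hSJ' (by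
        intro k hk k' hk' hle'
        rcases Finset.mem_insert.1 (hdown k (Finset.mem_insert_of_mem hk) k' hk' hle') with h | h
        · subst h
          exact absurd (hinj k (hSJ' hk) k' hk' (le_antisymm (hmax k hk) hle') ▸ hk) hvS
        · exact h)
      have hdn : ∀ k ∈ J, key k ≤ key v → k ≠ v → k ∈ S := fun k hk h1 h2 =>
        (Finset.mem_insert.1 (hdown v (Finset.mem_insert_self _ _) k hk h1)).resolve_left h2
      obtain ⟨i0, hi0, hi0S, hi0f, hi0t⟩ : ∃ i0 ∈ τ v, n v i0 ∈ S ∧ i0 ≠ f ∧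
          (v = t → e ≠ f → i0 = e) := by
        by_cases hc : v = t ∧ e ≠ f
        · obtain ⟨rfl, h2⟩ := hc
          exact ⟨e, het, hdn _ (g.nJ v hvJ e het) (htop _ (g.nJ v hvJ e het)) (g.n_ne hvJ het), h2,
            fun _ _ => rfl⟩
        · have : ¬ ∀ i ∈ τ v, i ∉ τ b → key v ≤ key (n v i) := fun h =>
            hvb (hinj v hvJ b hb (le_antisymm (hge v hvJ b hb h) (hbot v hvJ)))
          push Not at this
          obtain ⟨i, hi, hib, hlt⟩ := this
          exact ⟨i, hi, hdn _ (g.nJ v hvJ i hi) hlt.le (g.n_ne hvJ hi), fun h => hib (h ▸ hfb),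
            fun h1 h2 => absurd ⟨h1, h2⟩ hc⟩
      have hwJ := g.nJ v hvJ i0 hi0
      let ℓ' : κ → Option ι := Function.update ℓ v (tr (o v i0) i0 (ℓ (n v i0)))
      have hS : ∀ k ∈ S, ℓ' k = ℓ k := fun k hk =>
        Function.update_of_ne (fun h : k = v => hvS (h ▸ hk)) _ _
      have hv' : ℓ' v = tr (o v i0) i0 (ℓ (n v i0)) := Function.update_self _ _ _
      have hvalS : ∀ k ∈ S, Valid τ ℓ' k := fun k hk i hi => hval k hk i (hS k hk ▸ hi)
      have hval' : ∀ k ∈ insert v S, Valid τ ℓ' k := by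
        intro k hk
        rcases Finset.mem_insert.1 hk with rfl | hk
        · intro j hj
          rw [hv'] at hj
          have := g.valid_tr hwJ (g.o_mem hvJ hi0) (hval _ hi0S) j
            (by rw [g.oo k hvJ i0 hi0]; exact hj)
          rwa [g.nn k hvJ i0 hi0] at this
        · exact hvalS k hk
      have hlf' : ∀ k ∈ insert v S, f ∈ τ k → ℓ' k = some f := by
        intro k hk hfk
        rcases Finset.mem_insert.1 hk with rfl | hk
        · rw [hv', hlf _ hi0S (g.mem_n hvJ hi0 hfk hi0f.symm)]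
          have : f ≠ o k i0 := fun h => g.oN k hvJ i0 hi0 (h ▸ hfk)
          simp [tr, this]
        · rw [hS k hk, hlf k hk hfk]
      have hf0' : Flat n o ℓ' (n v i0) (o v i0) := by
        unfold Flat
        rw [g.nn v hvJ i0 hi0, g.oo v hvJ i0 hi0, hv', hS _ hi0S]
      have hf0 : Flat n o ℓ' v i0 := by
        have := g.flat_symm hwJ (g.o_mem hvJ hi0) (hvalS _ hi0S) hf0'
        rwa [g.nn v hvJ i0 hi0, g.oo v hvJ i0 hi0] at this
      have hfS : ∀ k ∈ S, ∀ i ∈ τ k, n k i ∈ S → Flat n o ℓ' k i := by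
        intro k hk i hi hn
        unfold Flat
        rw [hS k hk, hS _ hn]
        exact hflat k hk i hi hn
      have hfv : ∀ j ∈ τ v, n v j ∈ S → Flat n o ℓ' v j := by
        intro j hj hjS
        by_cases hj0 : j = i0
        · exact hj0 ▸ hf0
        have h1 : (((τ v).erase i0).erase j).card = 1 := by
          rw [Finset.card_erase_of_mem (Finset.mem_erase.2 ⟨hj0, hj⟩),
            Finset.card_erase_of_mem hi0, g.card v hvJ]
        obtain ⟨c, hc⟩ := Finset.card_eq_one.1 h1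
        have hc1 : c ∈ ((τ v).erase i0).erase j := hc ▸ Finset.mem_singleton_self c
        simp only [Finset.mem_erase] at hc1
        obtain ⟨hcj, hci, hcv⟩ := hc1
        have htri : ∀ i ∈ τ v, i ≠ c → i = i0 ∨ i = j := by
          intro i hi hic
          by_contra hcon
          push Not at hcon
          have : i ∈ ((τ v).erase i0).erase j := by simp [hcon.1, hcon.2, hi]
          rw [hc, Finset.mem_singleton] at this
          exact hic this
        by_cases hcf : c = f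
        · subst hcf
          unfold Flat
          rw [hlf' v (Finset.mem_insert_self _ _) hcv,
            hlf' _ (Finset.mem_insert_of_mem hjS) (g.mem_n hvJ hj hcv hcj)]
          simp [tr, hcj]
        have hmaxc : ∀ z ∈ J, c ∈ τ z → key z ≤ key v := by
          intro z hz hcz
          refine hle v hvJ z hz (fun i hi hiz => ?_)
          rcases htri i hi (fun h => hiz (h ▸ hcz)) with rfl | rfl
          · exact hmax _ hi0S
          · exact hmax _ hjS
        have hce : c ≠ e := by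
          rintro rfl
          have : v = t := hinj v hvJ t ht (le_antisymm (htop v hvJ) (hmaxc t ht het))
          exact hci (hi0t this hcf).symm
        have hcS : ∀ z ∈ J, c ∈ τ z → z ∈ insert v S := fun z hz hcz =>
          hdown v (Finset.mem_insert_self _ _) z hz (hmaxc z hz hcz)
        refine g.face_flat ℓ' c (hex v hvJ c hcv hcf hce)
          (fun k hk hck => hval' k (hcS k hk hck)) hvJ hcv hj hcj.symm ?_
        intro k hk hck i hi hic hne1 hne2
        rcases Finset.mem_insert.1 (hcS k hk hck) with rfl | hkS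
        · rcases htri i hi hic with rfl | rfl
          · exact hf0
          · exact absurd ⟨rfl, rfl⟩ hne1
        · rcases Finset.mem_insert.1 (hcS _ (g.nJ k hk i hi) (g.mem_n hk hi hck hic.symm)) with
            hn | hn
          · have ho := g.o_mem hk hi
            have e1 := g.nn k hk i hi
            have e2 := g.oo k hk i hi
            rw [hn] at ho e1 e2
            rcases htri _ ho (fun h => g.oN k hk i hi (h ▸ hck)) with h | h
            · rw [h] at e1 e2
              rw [← e1, ← e2]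
              exact hf0'
            · rw [h] at e1 e2
              exact absurd ⟨e1.symm, e2.symm⟩ hne2
          · exact hfS k hkS i hi hn
      refine ⟨ℓ', hval', ?_, hlf'⟩
      intro k hk i hi hn
      rcases Finset.mem_insert.1 hk with rfl | hkS
      · exact hfv i hi ((Finset.mem_insert.1 hn).resolve_left (g.n_ne hvJ hi))
      · rcases Finset.mem_insert.1 hn with hn | hn
        · have hkJ := hSJ' hkS
          have ho := g.o_mem hkJ hi
          have e1 := g.nn k hkJ i hi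
          have e2 := g.oo k hkJ i hi
          rw [hn] at ho e1 e2
          have := g.flat_symm hvJ ho (hval' v (Finset.mem_insert_self _ _))
            (hfv _ ho (e1.symm ▸ hkS))
          rwa [e1, e2] at this
        · exact hfS k hkS i hi hn
  obtain ⟨ℓ, h1, h2, -⟩ := main J (Finset.Subset.refl _) (fun _ _ k' hk' _ => hk')
  exact g.four_dvd ℓ h1 (fun k hk i hi => h2 k hk i hi (g.nJ k hk i hi))

end

end Pool.Agent.P.MP_b50a78_co
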