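import Pool.Agent.P.MP_b50a78_co.Cert

set_option autoImplicit false

namespace Pool.Agent.P.MP_b50a78_co

theorem le_of_mem_hull {S : Set E} (A : E →ₗ[ℝ] ℝ) (r : ℝ) (h : ∀ p ∈ S, A p ≤ r) {z : E}
    (hz : z ∈ convexHull ℝ S) : A z ≤ r :=
  convexHull_min (t := {w | A w ≤ r}) h (convex_halfSpace_le A.isLinear r) hz

theorem eq_of_openSegment (A : E →ₗ[ℝ] ℝ) (r : ℝ) {y z w : E} (hy : A y ≤ r) (hz : A z ≤ r)
    (hw : A w = r) (hs : w ∈ openSegment ℝ y z) : A y = r := by
  obtain ⟨a, b, ha, hb, hab, rfl⟩ := hs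
  simp only [map_add, map_smul, smul_eq_mul] at hw
  have : r = a * r + b * r := by rw [← add_mul, hab, one_mul]
  by_contra hne
  have : A y < r := lt_of_le_of_ne hy hne
  nlinarith

theorem isExtreme_level {K : Set E} (A : E →ₗ[ℝ] ℝ) (r : ℝ) (h : ∀ z ∈ K, A z ≤ r) :
    IsExtreme ℝ K {z | z ∈ K ∧ A z = r} :=
  ⟨fun _ hz => hz.1, fun y hy z hz _ hw hs => ⟨hy, eq_of_openSegment A r (h y hy) (h z hz) hw.2 hs⟩⟩

theorem vectorSpan_le_ker {F : Set E} (A : E →ₗ[ℝ] ℝ) (r : ℝ) (h : ∀ z ∈ F, A z = r) :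
    vectorSpan ℝ F ≤ LinearMap.ker A := by
  rw [vectorSpan_def, Submodule.span_le]
  rintro _ ⟨u, hu, v, hv, rfl⟩
  simp [h u hu, h v hv]

theorem finrank_ker {A : E →ₗ[ℝ] ℝ} (hA : A ≠ 0) : Module.finrank ℝ (LinearMap.ker A) = 2 := by
  have := Module.Dual.finrank_ker_add_one_of_ne_zero (K := ℝ) (V₁ := E) (f := A) hA
  rw [finrank_E] at this
  omega

section
variable {ι κ : Type} [DecidableEq ι] {I : Finset ι} {J : Finset κ} {L : ι → E →ₗ[ℝ] ℝ}
  {c : ι → ℝ} {x : κ → E} {τ : κ → Finset ι}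

/-- the facet with index `i` -/
def facet (K : Set E) (L : ι → E →ₗ[ℝ] ℝ) (c : ι → ℝ) (i : ι) : Set E := {z | z ∈ K ∧ L i z = c i}

theorem Cert.hull_le (h : Cert I J L c x τ) {z : E} (hz : z ∈ convexHull ℝ (x '' J)) {i : ι}
    (hi : i ∈ I) : L i z ≤ c i := by
  refine le_of_mem_hull (L i) (c i) ?_ hz
  rintro _ ⟨k, hk, rfl⟩
  exact h.le hk hi

theorem mem_hull {k : κ} (hk : k ∈ J) : x k ∈ convexHull ℝ (x '' (J : Set κ)) :=
  subset_convexHull ℝ _ ⟨k, hk, rfl⟩

theorem Cert.extremePoints (h : Cert I J L c x τ) :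
    Set.extremePoints ℝ (convexHull ℝ (x '' J)) = x '' J := by
  apply Set.Subset.antisymm extremePoints_convexHull_subset
  rintro _ ⟨k, hk, rfl⟩
  refine ⟨mem_hull hk, fun y hy z hz hs => ?_⟩
  apply h.ext hk
  intro i hi
  have hI := h.sub k hk hi
  rw [h.zero k hk i hi]
  exact eq_of_openSegment (L i) (c i) (h.hull_le hy hI) (h.hull_le hz hI) (h.zero k hk i hi) hs

theorem Cert.interior_ne (h : Cert I J L c x τ) :
    (interior (convexHull ℝ (x '' (J : Set κ)))).Nonempty := by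
  obtain ⟨k, hk⟩ := h.ne
  rw [interior_convexHull_nonempty_iff_affineSpan_eq_top,
    AffineSubspace.affineSpan_eq_top_iff_vectorSpan_eq_top_of_nonempty ℝ E E
      (show (x '' (J : Set κ)).Nonempty from ⟨x k, k, hk, rfl⟩),
    eq_top_iff]
  intro v _
  obtain ⟨n, hn⟩ := h.exists_nb hk
  have := h.cone hk n hn (v + x k)
  rw [add_sub_cancel_right] at this
  rw [this]
  refine Submodule.sum_mem _ (fun i hi => Submodule.smul_mem _ _ ?_)
  exact vsub_mem_vectorSpan ℝ (s := x '' (J : Set κ)) ⟨n i, (hn i hi).1, rfl⟩ ⟨k, hk, rfl⟩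

theorem Cert.L_ne (h : Cert I J L c x τ) {k : κ} (hk : k ∈ J) {i : ι} (hi : i ∈ τ k) :
    L i ≠ 0 := by
  intro h0
  obtain ⟨k', a, b, -⟩ := h.nb k hk i hi
  have e1 := h.zero k hk i hi
  have e2 := h.pos k' a i (h.sub k hk hi) b
  rw [h0] at e1 e2
  simp at e1 e2
  linarith

theorem Cert.isFace (h : Cert I J L c x τ) {k : κ} (hk : k ∈ J) {i : ι} (hi : i ∈ τ k) :
    IsFace (convexHull ℝ (x '' J)) (facet (convexHull ℝ (x '' J)) L c i) := by
  have hI := h.sub k hk hi
  refine ⟨LinearMap.toContinuousLinearMap (L i), ?_, ?_, ?_⟩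
  · intro h0
    apply h.L_ne hk hi
    ext1 v
    have := congrArg (fun f : E →L[ℝ] ℝ => f v) h0
    simpa using this
  · ext z
    simp only [facet, Set.mem_setOf_eq, LinearMap.coe_toContinuousLinearMap']
    refine and_congr_right (fun hz => ⟨fun he y hy => he ▸ h.hull_le hy hI, fun hm => ?_⟩)
    have := hm _ (mem_hull hk)
    rw [h.zero k hk i hi] at this
    exact le_antisymm (h.hull_le hz hI) this
  · suffices e : vectorSpan ℝ (facet (convexHull ℝ (x '' J)) L c i) = LinearMap.ker (L i) by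
      rw [e, finrank_ker (h.L_ne hk hi)]
    apply le_antisymm (vectorSpan_le_ker (L i) (c i) (fun z hz => hz.2))
    intro v hv
    obtain ⟨n, hn⟩ := h.exists_nb hk
    have := h.cone hk n hn (v + x k)
    rw [add_sub_cancel_right] at this
    rw [this]
    refine Submodule.sum_mem _ (fun j hj => ?_)
    by_cases hji : j = i
    · subst hji
      rw [map_add, LinearMap.mem_ker.1 hv, h.zero k hk j hj]
      simp
    · refine Submodule.smul_mem _ _ (vsub_mem_vectorSpan ℝ ⟨mem_hull (hn j hj).1, ?_⟩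
        ⟨mem_hull hk, h.zero k hk i hi⟩)
      exact h.nb_eq hi (Ne.symm hji) (hn j hj)

theorem Cert.face_eq (h : Cert I J L c x τ) {F : Set E} (hF : IsFace (convexHull ℝ (x '' J)) F) :
    ∃ k ∈ J, ∃ i ∈ τ k, F = facet (convexHull ℝ (x '' J)) L c i := by
  obtain ⟨l, hl, hF, hd⟩ := hF
  obtain ⟨k, hk, hmax⟩ := J.exists_max_image (fun k => l (x k)) h.ne
  obtain ⟨n, hn⟩ := h.exists_nb hk
  have hle : ∀ z ∈ convexHull ℝ (x '' (J : Set κ)), l z ≤ l (x k) := by
    intro z hz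
    refine le_of_mem_hull (l : E →ₗ[ℝ] ℝ) _ ?_ hz
    rintro _ ⟨k', hk', rfl⟩
    exact hmax k' hk'
  have hFm : ∀ z, z ∈ F ↔ z ∈ convexHull ℝ (x '' (J : Set κ)) ∧ l z = l (x k) := by
    intro z
    rw [hF]
    exact and_congr_right (fun hz => ⟨fun hm => le_antisymm (hle z hz) (hm _ (mem_hull hk)),
      fun he y hy => he ▸ hle y hy⟩)
  have hc := h.cone_map hk n hn (l : E →ₗ[ℝ] ℝ)
  simp only [ContinuousLinearMap.coe_coe] at hc
  have hδ : ∀ i ∈ τ k, l (x (n i)) - l (x k) ≤ 0 := fun i hi => by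
    have := hmax _ (hn i hi).1
    linarith
  have hden : ∀ i ∈ τ k, 0 < c i - L i (x (n i)) := fun i hi => by
    have := h.nb_lt hk hi (hn i hi)
    linarith
  have hsub : ∀ i ∈ τ k, l (x (n i)) - l (x k) ≠ 0 → ∀ z ∈ F, L i z = c i := by
    intro i hi hne z hz
    obtain ⟨hz1, hz2⟩ := (hFm z).1 hz
    have h0 := hc z
    rw [hz2, sub_self] at h0
    have := (Finset.sum_eq_zero_iff_of_nonpos (fun j hj => mul_nonpos_of_nonneg_of_nonpos
      (div_nonneg (sub_nonneg.2 (h.hull_le hz1 (h.sub k hk hj))) (hden j hj).le)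
      (hδ j hj))).1 h0.symm i hi
    rcases mul_eq_zero.1 this with h1 | h1
    · rcases div_eq_zero_iff.1 h1 with h2 | h2
      · linarith
      · exact absurd h2 (hden i hi).ne'
    · exact absurd h1 hne
  have hker : ∀ i ∈ τ k, l (x (n i)) - l (x k) ≠ 0 → vectorSpan ℝ F = LinearMap.ker (L i) := by
    intro i hi hne
    apply Submodule.eq_of_le_of_finrank_eq (vectorSpan_le_ker (L i) (c i) (hsub i hi hne))
    rw [hd, finrank_ker (h.L_ne hk hi)]
  have hex : ∃ i ∈ τ k, l (x (n i)) - l (x k) ≠ 0 := by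
    by_contra hcon
    push Not at hcon
    apply hl
    ext1 v
    have := hc (v + x k)
    rw [Finset.sum_eq_zero (fun i hi => by rw [hcon i hi, mul_zero])] at this
    simpa using this
  obtain ⟨i, hi, hne⟩ := hex
  refine ⟨k, hk, i, hi, ?_⟩
  ext z
  constructor
  · intro hz
    exact ⟨((hFm z).1 hz).1, hsub i hi hne z hz⟩
  · intro hz
    refine (hFm z).2 ⟨hz.1, ?_⟩
    have h0 := hc z
    rw [Finset.sum_eq_zero] at h0
    · linarith
    · intro j hj
      by_cases hji : j = i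
      · subst hji
        rw [hz.2]
        simp
      · have : l (x (n j)) - l (x k) = 0 := by
          by_contra hne'
          have e := (hker i hi hne).symm.trans (hker j hj hne')
          have m1 : x (n j) - x k ∈ LinearMap.ker (L i) := by
            rw [LinearMap.mem_ker, map_sub, h.zero k hk i hi, h.nb_eq hi (Ne.symm hji) (hn j hj),
              sub_self]
          rw [e, LinearMap.mem_ker, map_sub, h.zero k hk j hj] at m1
          have := hden j hj
          linarith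
        rw [this, mul_zero]

theorem Cert.mem_facet (h : Cert I J L c x τ) {k : κ} (hk : k ∈ J) {i : ι} (hi : i ∈ I) :
    x k ∈ facet (convexHull ℝ (x '' J)) L c i ↔ i ∈ τ k :=
  ⟨fun hm => h.mem_of_eq hk hi hm.2, fun hm => ⟨mem_hull hk, h.zero k hk i hm⟩⟩

theorem Cert.facet_inj (h : Cert I J L c x τ) {k : κ} (hk : k ∈ J) {i j : ι} (hi : i ∈ τ k)
    (hj : j ∈ I) (he : facet (convexHull ℝ (x '' J)) L c i = facet (convexHull ℝ (x '' J)) L c j) :
    i = j := by
  by_contra hne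
  have hI := h.sub k hk hi
  have hjk : j ∈ τ k := (h.mem_facet hk hj).1 (he ▸ (h.mem_facet hk hI).2 hi)
  obtain ⟨k', a, b, c⟩ := h.nb k hk j hjk
  exact b ((h.mem_facet a hj).1 (he ▸ (h.mem_facet a hI).2 (c (Finset.mem_erase.2 ⟨hne, hi⟩))))

theorem Cert.ncard_facet (h : Cert I J L c x τ) {i : ι} (hi : i ∈ I) :
    (Set.extremePoints ℝ (facet (convexHull ℝ (x '' J)) L c i)).ncard = deg J τ i := by
  have := (isExtreme_level (L i) (c i) (fun z hz => h.hull_le hz hi)).extremePoints_eq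
  unfold facet
  rw [this, h.extremePoints, deg, ← Set.ncard_coe_finset, ← Set.InjOn.ncard_image (f := x)]
  · congr 1
    ext z
    constructor
    · rintro ⟨hz, k, hk, rfl⟩
      exact ⟨k, by simpa using ⟨hk, (h.mem_facet hk hi).1 hz⟩, rfl⟩
    · rintro ⟨k, hk, rfl⟩
      simp only [Finset.coe_filter, Set.mem_setOf_eq] at hk
      exact ⟨(h.mem_facet hk.1 hi).2 hk.2, k, hk.1, rfl⟩
  · intro a ha b hb he
    simp only [Finset.coe_filter, Set.mem_setOf_eq] at ha hb
    exact h.x_inj ha.1 hb.1 he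

theorem Cert.poly (h : Cert I J L c x τ) (hu : ∀ i ∈ I, ∃ k ∈ J, i ∈ τ k) :
    Poly (fun m => (I.filter (fun i => deg J τ i = m)).card) := by
  classical
  refine ⟨J.image x, ?_, ?_, ?_⟩
  · rw [Finset.coe_image]
    exact h.interior_ne
  · rw [Finset.coe_image, h.extremePoints]
    rintro _ ⟨k, hk, rfl⟩
    refine Eq.trans ?_ (h.card k hk)
    rw [← Set.ncard_coe_finset,
      ← Set.InjOn.ncard_image (f := facet (convexHull ℝ (x '' J)) L c)]
    · congr 1
      ext F
      constructor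
      · rintro ⟨hF, hm⟩
        obtain ⟨k', hk', i, hi, rfl⟩ := h.face_eq hF
        exact ⟨i, (h.mem_facet hk (h.sub k' hk' hi)).1 hm, rfl⟩
      · rintro ⟨i, hi, rfl⟩
        exact ⟨h.isFace hk hi, (h.mem_facet hk (h.sub k hk hi)).2 hi⟩
    · intro a ha b hb he
      exact h.facet_inj hk ha (h.sub k hk hb) he
  · intro m
    beta_reduce
    rw [Finset.coe_image, ← Set.ncard_coe_finset,
      ← Set.InjOn.ncard_image (f := facet (convexHull ℝ (x '' J)) L c)]
    · congr 1
      ext F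
      constructor
      · rintro ⟨hF, hm⟩
        obtain ⟨k', hk', i, hi, rfl⟩ := h.face_eq hF
        have hI := h.sub k' hk' hi
        rw [h.ncard_facet hI] at hm
        exact ⟨i, by simpa using ⟨hI, hm⟩, rfl⟩
      · rintro ⟨i, hi, rfl⟩
        simp only [Finset.coe_filter, Set.mem_setOf_eq] at hi
        obtain ⟨k, hk, hik⟩ := hu i hi.1
        exact ⟨h.isFace hk hik, by rw [h.ncard_facet hi.1, hi.2]⟩
    · intro a ha b hb he
      simp only [Finset.coe_filter, Set.mem_setOf_eq] at ha hb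
      obtain ⟨k, hk, hik⟩ := hu a ha.1
      exact h.facet_inj hk hik hb.1 he

end

end Pool.Agent.P.MP_b50a78_co
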