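import Pool.Agent.P.MP_b50a78_co.Cut
import Pool.Agent.P.MP_b50a78_co.ThmA

set_option autoImplicit false

namespace Pool.Agent.P.MP_b50a78_co

def PolyM (O : Multiset ℕ) : Prop := Poly (fun k => O.count k)

def trip : List ℕ → List (Finset ℕ)
  | p :: q :: l => {0, p, q} :: trip (q :: l)
  | _ => []

theorem trip_append (l1 : List ℕ) (a : ℕ) (l2 : List ℕ) :
    trip (l1 ++ a :: l2) = trip (l1 ++ [a]) ++ trip (a :: l2) := by
  induction l1 with
  | nil => simp [trip]
  | cons p l ih =>
    cases l with
    | nil => simp [trip]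
    | cons q l => simpa [trip] using ih

theorem trip_reverse (l : List ℕ) : trip l.reverse = (trip l).reverse := by
  induction l with
  | nil => simp [trip]
  | cons p l ih =>
    cases l with
    | nil => simp [trip]
    | cons q l =>
      rw [List.reverse_cons, List.reverse_cons, List.append_assoc, List.singleton_append,
        trip_append, ← List.reverse_cons, ih]
      simp [trip, Finset.pair_comm p q]

theorem mem_of_mem_trip {l : List ℕ} {s : Finset ℕ} (hs : s ∈ trip l) {i : ℕ} (hi : i ∈ s) :
    i = 0 ∨ i ∈ l := by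
  induction l with
  | nil => simp [trip] at hs
  | cons p l ih =>
    cases l with
    | nil => simp [trip] at hs
    | cons q l =>
      simp only [trip, List.mem_cons] at hs
      rcases hs with rfl | hs
      · simp only [Finset.mem_insert, Finset.mem_singleton] at hi
        rcases hi with h | h | h <;> simp [h]
      · rcases ih hs with h | h
        · exact Or.inl h
        · exact Or.inr (List.mem_cons_of_mem _ h)

theorem trip_nodup {l : List ℕ} (h : l.Nodup) (h0 : 0 ∉ l) : (trip l).Nodup := by
  induction l with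
  | nil => simp [trip]
  | cons p l ih =>
    cases l with
    | nil => simp [trip]
    | cons q l =>
      rw [List.nodup_cons] at h
      simp only [trip, List.nodup_cons]
      refine ⟨fun hs => ?_, ih h.2 (fun e => h0 (List.mem_cons_of_mem _ e))⟩
      rcases mem_of_mem_trip hs (i := p) (by simp) with e | e
      · exact h0 (by simp [e])
      · exact h.1 e

theorem trip_length (p : ℕ) (l : List ℕ) : (trip (p :: l)).length = l.length := by
  induction l generalizing p with
  | nil => simp [trip]
  | cons q l ih => simp [trip, ih]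

theorem trip_first (p : ℕ) (M : List ℕ) (e : ℕ) :
    ∃ m, {0, p, m} ∈ trip (p :: (M ++ [e])) ∧ (m ∈ M ∨ (M = [] ∧ m = e)) ∧
      (M ++ [e]).head? = some m := by
  cases M with
  | nil => exact ⟨e, by simp [trip], by simp, by simp⟩
  | cons q M => exact ⟨q, by simp [trip], by simp, by simp⟩

theorem trip_last (p : ℕ) (M : List ℕ) (e : ℕ) :
    ∃ m, {0, m, e} ∈ trip (p :: (M ++ [e])) ∧ (m ∈ M ∨ (M = [] ∧ m = p)) := by
  induction M generalizing p with
  | nil => exact ⟨p, by simp [trip], by simp⟩
  | cons q M ih =>
    obtain ⟨m, h1, h2⟩ := ih q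
    refine ⟨m, by simp only [List.cons_append, trip]; exact List.mem_cons_of_mem _ h1, ?_⟩
    rcases h2 with h | h
    · exact Or.inl (List.mem_cons_of_mem _ h)
    · exact Or.inl (by simp [h.2])

theorem trip_path (Q : Finset ℕ → Prop) (p : ℕ) (M : List ℕ) (e : ℕ)
    (h1 : ∀ m, (M ++ [e]).head? = some m → Q {0, p, m})
    (h2 : ∀ d ∈ M, ∀ s ∈ trip (p :: (M ++ [e])), ∀ s' ∈ trip (p :: (M ++ [e])), d ∈ s → d ∈ s' →
      Q s → Q s') : ∀ s ∈ trip (p :: (M ++ [e])), Q s := by
  induction M generalizing p with
  | nil =>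
    intro s hs
    simp only [List.nil_append, trip, List.mem_singleton] at hs
    exact hs ▸ h1 e (by simp)
  | cons q M ih =>
    have q0 : Q {0, p, q} := h1 q (by simp)
    intro s hs
    simp only [List.cons_append, trip, List.mem_cons] at hs h2
    rcases hs with rfl | hs
    · exact q0
    · refine ih q ?_ (fun d hd s hs s' hs' => h2 d (Or.inr hd) s (Or.inr hs) s' (Or.inr hs')) s hs
      intro m hm
      obtain ⟨m', a, -, b⟩ := trip_first q M e
      rw [hm] at b
      cases b
      exact h2 q (Or.inl rfl) _ (Or.inl rfl) _ (Or.inr a) (by simp) (by simp) q0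

/-- State of the construction: facet `0` is the top facet, `a :: l` the cyclic list of its
neighbours. -/
structure RealD (w : List ℕ) (O : Multiset ℕ) (I J : Finset ℕ) (τ : ℕ → Finset ℕ) (a : ℕ)
    (l : List ℕ) : Prop where
  used : ∀ i ∈ I, ∃ k ∈ J, i ∈ τ k
  zero : 0 ∈ I
  nodup : (a :: l).Nodup
  nz : 0 ∉ a :: l
  len : 2 ≤ l.length
  sub : ∀ i ∈ a :: l, i ∈ I
  top : ∀ s, s ∈ trip (a :: (l ++ [a])) ↔ ∃ k ∈ J, 0 ∈ τ k ∧ τ k = s
  deg0 : deg J τ 0 = l.length + 1
  degw : (a :: l).map (deg J τ) = w.map (· + 1)
  degO : (I.filter (fun i => i ≠ 0 ∧ i ∉ a :: l)).val.map (deg J τ) = O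

def Real (w : List ℕ) (O : Multiset ℕ) : Prop :=
  ∃ (I J : Finset ℕ) (L : ℕ → E →ₗ[ℝ] ℝ) (c : ℕ → ℝ) (x : ℕ → E) (τ : ℕ → Finset ℕ) (a : ℕ)
    (l : List ℕ), Cert I J L c x τ ∧ RealD w O I J τ a l

theorem Real.rot {e : ℕ} {w : List ℕ} {O : Multiset ℕ} (h : Real (e :: w) O) :
    Real (w ++ [e]) O := by
  obtain ⟨I, J, L, c, x, τ, a, l, hc, h⟩ := h
  obtain ⟨b, l', rfl⟩ : ∃ b l', l = b :: l' := by
    cases l with
    | nil => have := h.len; simp at this
    | cons b l' => exact ⟨b, l', rfl⟩
  have hp : (b :: (l' ++ [a])).Perm (a :: b :: l') := by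
    rw [← List.cons_append]
    exact List.perm_append_singleton _ _
  refine ⟨I, J, L, c, x, τ, b, l' ++ [a], hc, h.used, h.zero, hp.nodup_iff.2 h.nodup,
    fun e => h.nz (hp.subset e), by simpa using h.len, fun i hi => h.sub i (hp.subset hi), ?_,
    by simpa using h.deg0, ?_, ?_⟩
  · intro s
    rw [← h.top s, List.append_assoc, ← List.cons_append, List.singleton_append, trip_append]
    simp only [List.cons_append, trip, List.mem_append, List.mem_cons, List.not_mem_nil, or_false]
    tauto
  · have := h.degw
    simp only [List.map_cons, List.cons.injEq, List.map_append, List.map_nil] at this ⊢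
    rw [← this.1, ← this.2]
    simp
  · rw [← h.degO]
    congr 2
    ext i
    simp only [Finset.mem_filter, hp.mem_iff]

theorem Real.refl {e : ℕ} {w : List ℕ} {O : Multiset ℕ} (h : Real (e :: w) O) :
    Real (e :: w.reverse) O := by
  obtain ⟨I, J, L, c, x, τ, a, l, hc, h⟩ := h
  have hp : (a :: l.reverse).Perm (a :: l) := (List.reverse_perm l).cons a
  refine ⟨I, J, L, c, x, τ, a, l.reverse, hc, h.used, h.zero, hp.nodup_iff.2 h.nodup,
    fun e => h.nz (hp.subset e), by simpa using h.len, fun i hi => h.sub i (hp.subset hi), ?_,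
    by simpa using h.deg0, ?_, ?_⟩
  · intro s
    rw [← h.top s]
    have : a :: (l.reverse ++ [a]) = (a :: (l ++ [a])).reverse := by simp
    rw [this, trip_reverse, List.mem_reverse]
  · have := h.degw
    simp only [List.map_cons, List.cons.injEq, List.map_reverse] at this ⊢
    rw [← this.1, ← this.2]
    simp
  · rw [← h.degO]
    congr 2
    ext i
    simp only [Finset.mem_filter, hp.mem_iff]

theorem Real.close {w : List ℕ} {O : Multiset ℕ} (h : Real w O) :
    PolyM (O + ↑(w.map (· + 1)) + {w.length}) := by
  obtain ⟨I, J, L, c, x, τ, a, l, hc, h⟩ := h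
  have e1 : I.val = (I.filter (fun i => i ≠ 0 ∧ i ∉ a :: l)).val + ↑(a :: l) + {0} := by
    ext i
    rw [Multiset.count_add, Multiset.count_add, Multiset.count_eq_of_nodup I.nodup,
      Multiset.count_eq_of_nodup (Finset.nodup _),
      Multiset.count_eq_of_nodup (Multiset.coe_nodup.2 h.nodup), Multiset.count_singleton]
    simp only [Finset.mem_val, Finset.mem_filter, Multiset.mem_coe]
    by_cases h0 : i = 0
    · subst h0
      simp only [h.zero, h.nz]
      simp
    · by_cases h1 : i ∈ a :: l
      · simp only [h.sub i h1, h1, h0]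
        simp
      · simp only [h1, h0]
        simp [h0]
  have e2 : I.val.map (deg J τ) = O + ↑(w.map (· + 1)) + {w.length} := by
    have : w.length = l.length + 1 := by
      have := congrArg List.length h.degw
      simpa using this.symm
    rw [e1, Multiset.map_add, Multiset.map_add, h.degO, Multiset.map_coe, h.degw,
      Multiset.map_singleton, h.deg0, this]
  have := hc.poly h.used
  unfold PolyM
  convert this using 2 with m
  rw [← e2, Multiset.count_map, Finset.card_def, Finset.filter_val]
  congr 1
  exact Multiset.filter_congr (fun _ _ => eq_comm)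

theorem Real.start : Real [2, 2, 2] 0 := by
  let e : Fin 3 → E →ₗ[ℝ] ℝ := fun i => (EuclideanSpace.proj i : E →L[ℝ] ℝ)
  let L : ℕ → E →ₗ[ℝ] ℝ := fun i => if i = 0 then e 0 + e 1 + e 2 else if i = 1 then - e 0 else
    if i = 2 then - e 1 else - e 2
  let x : ℕ → E := fun i => if i = 0 then 0 else if i = 1 then EuclideanSpace.single 0 1 else
    if i = 2 then EuclideanSpace.single 1 1 else EuclideanSpace.single 2 1
  refine ⟨{0, 1, 2, 3}, {0, 1, 2, 3}, L, fun i => if i = 0 then 1 else 0, x,
    fun k => Finset.erase {0, 1, 2, 3} k, 1, [2, 3], ⟨by decide, by decide, ?_, ?_, by decide,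
    by decide, by decide⟩, by decide, by decide, by decide, by decide, by decide, by decide, ?_,
    by decide, by decide, by decide⟩
  · intro k hk i hi
    simp only [Finset.mem_erase, Finset.mem_insert, Finset.mem_singleton] at hk hi
    rcases hk with rfl | rfl | rfl | rfl <;> rcases hi with ⟨h, rfl | rfl | rfl | rfl⟩ <;>
      simp [L, x, e] at h ⊢
  · intro k hk i hi hn
    simp only [Finset.mem_erase, Finset.mem_insert, Finset.mem_singleton] at hk hi hn
    rcases hk with rfl | rfl | rfl | rfl <;> rcases hi with rfl | rfl | rfl | rfl <;>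
      simp [L, x, e] at hn ⊢
  · intro s
    simp only [List.cons_append, List.nil_append, trip, List.mem_cons, List.not_mem_nil, or_false]
    constructor
    · rintro (rfl | rfl | rfl)
      · exact ⟨3, by decide, by decide, by decide⟩
      · exact ⟨1, by decide, by decide, by decide⟩
      · exact ⟨2, by decide, by decide, by decide⟩
    · rintro ⟨k, hk, h0, rfl⟩
      revert k
      decide

end Pool.Agent.P.MP_b50a78_co
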