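import Pool.Agent.P.MP_b50a78_co.Mach

set_option autoImplicit false

namespace Pool.Agent.P.MP_b50a78_co

abbrev Kd := Bool × Bool × Bool

def allowed (K : Kd) (i : Ins) : Prop :=
  (K.1 = false → i.1 = 0) ∧ (K.2.1 = false → i.2.1 = 0) ∧ (K.2.2 = false → i.2.2 = 0)

def sA (M : Multiset (ℕ × Ins)) : ℕ := (M.map (fun p => p.2.1)).sum
def sB (M : Multiset (ℕ × Ins)) : ℕ := (M.map (fun p => p.2.2.1)).sum
def sC (M : Multiset (ℕ × Ins)) : ℕ := (M.map (fun p => p.2.2.2)).sum
def big (p : ℕ × Ins) : ℕ := 6 + p.1 + (6 * p.2.1 + 2 * p.2.2.1 + p.2.2.2)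

def out (M : Multiset (ℕ × Ins)) (a b c n : ℕ) : Multiset ℕ :=
  sm (a + 2 * sA M) (b + sB M) (c + sC M) n + M.map big

theorem sA_add (M N : Multiset (ℕ × Ins)) : sA (M + N) = sA M + sA N := by simp [sA]
theorem sB_add (M N : Multiset (ℕ × Ins)) : sB (M + N) = sB M + sB N := by simp [sB]
theorem sC_add (M N : Multiset (ℕ × Ins)) : sC (M + N) = sC M + sC N := by simp [sC]

theorem out_add (M N : Multiset (ℕ × Ins)) (a b c n a' b' c' n' : ℕ) :
    out M a b c n + out N a' b' c' n' = out (M + N) (a + a') (b + b') (c + c') (n + n') := by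
  unfold out
  rw [add_add_add_comm, sm_add, Multiset.map_add, sA_add, sB_add, sC_add]
  congr 2 <;> ring

theorem split_map {M : Multiset (ℕ × Ins)} {s t : Multiset ℕ} (h : M.map Prod.fst = s + t) :
    ∃ M1 M2, M = M1 + M2 ∧ M1.map Prod.fst = s ∧ M2.map Prod.fst = t := by
  induction s using Multiset.induction_on generalizing M with
  | empty => exact ⟨0, M, by simp, by simp, by simpa using h⟩
  | cons x s ih =>
    rw [Multiset.cons_add] at h
    obtain ⟨p, hp, e1, e2⟩ := (Multiset.map_eq_cons _ _ _ _).2 h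
    obtain ⟨M1, M2, a, b, c⟩ := ih e2
    refine ⟨p ::ₘ M1, M2, ?_, by simp [e1, b], c⟩
    rw [Multiset.cons_add, ← a, Multiset.cons_erase hp]

def Seg (K : Kd) (w w' : VW) (ts : Multiset ℕ) (a b c n : ℕ) : Prop :=
  ∀ M : Multiset (ℕ × Ins), M.map Prod.fst = ts → (∀ p ∈ M, allowed K p.2) →
    ∃ x ≤ 3 * (sB M + sC M), ∀ O, Real (conc 0 w) O →
      Real (conc 0 w') (O + out M a b c (n + 6 * sA M + x))

theorem Seg.trans {K : Kd} {w w' w'' : VW} {s t : Multiset ℕ} {a b c n a' b' c' n' : ℕ}
    (h1 : Seg K w w' s a b c n) (h2 : Seg K w' w'' t a' b' c' n') :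
    Seg K w w'' (s + t) (a + a') (b + b') (c + c') (n + n') := by
  intro M hM hK
  obtain ⟨M1, M2, rfl, e1, e2⟩ := split_map hM
  obtain ⟨x, hx, r1⟩ := h1 M1 e1 (fun p hp => hK p (Multiset.mem_add.2 (Or.inl hp)))
  obtain ⟨y, hy, r2⟩ := h2 M2 e2 (fun p hp => hK p (Multiset.mem_add.2 (Or.inr hp)))
  refine ⟨x + y, by rw [sB_add, sC_add]; omega, fun O h => (r2 _ (r1 O h)).congr rfl ?_⟩
  rw [add_assoc, out_add, sA_add]
  congr 2
  ring

theorem Seg.plain (K : Kd) {s : List ℕ} {w w' : VW} {a b c n : ℕ}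
    (hm : runT s w = some (w', (a, b, c, n), [])) : Seg K w w' 0 a b c n := by
  intro M hM _
  rw [Multiset.map_eq_zero] at hM
  subst hM
  exact ⟨0, by simp, fun O h => (runT_sound hm 0 O h).congr rfl (by simp [out, sA, sB, sC])⟩

abbrev Slot := List ℕ × List (List ℕ × ℕ × List ℕ) × List ℕ

def slotRun (K : Kd) (S : Slot) (w : VW) : Option (VW × Cnt × ℕ) :=
  match runT S.1 w with
  | some (p :: t, (a, b, c, n), []) =>
    match phase S.2.1 ((p.1, true) :: t) with
    | none => none
    | some (w2, (a', b', c', n'), (u0, u1, u2)) =>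
      match runT S.2.2 w2 with
      | some (w3, (a'', b'', c'', n''), [k]) =>
        bif unm w3 && (!K.1 || u0 == 1) && (!K.2.1 || u1 == 1) && (!K.2.2 || u2 == 1) &&
          Nat.ble 6 k then
          some (w3, (a + a' + a'', b + b' + b'', c + c' + c'', n + n' + n''), k - 6) else none
      | _ => none
  | _ => none

theorem slotRun_sound {K : Kd} {S : Slot} {w w' : VW} {a b c n t : ℕ}
    (hm : slotRun K S w = some (w', (a, b, c, n), t)) : Seg K w w' {t} a b c n := by
  unfold slotRun at hm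
  split at hm
  · rename_i p tl a1 b1 c1 n1 h1
    split at hm
    · simp at hm
    · rename_i w2 a2 b2 c2 n2 u0 u1 u2 h2
      split at hm
      · rename_i w3 a3 b3 c3 n3 k h3
        simp only [Bool.cond_eq_ite, Bool.and_eq_true, Bool.or_eq_true, Bool.not_eq_true',
          beq_iff_eq, Nat.ble_eq] at hm
        split_ifs at hm with hc
        simp only [Option.some.injEq, Prod.mk.injEq] at hm
        obtain ⟨rfl, ⟨rfl, rfl, rfl, rfl⟩, rfl⟩ := hm
        obtain ⟨⟨⟨⟨hu, k0⟩, k1⟩, k2⟩, hk⟩ := hc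
        intro M hM hK
        obtain ⟨⟨t, α, β, γ⟩, rfl, ht⟩ := Multiset.map_eq_singleton.1 hM
        obtain ⟨g0, g1, g2⟩ := hK _ (Multiset.mem_singleton_self _)
        simp only at g0 g1 g2 ht
        have e0 : u0 * α = α := by rcases k0 with e | e <;> simp [e, g0]
        have e1 : u1 * β = β := by rcases k1 with e | e <;> simp [e, g1]
        have e2 : u2 * γ = γ := by rcases k2 with e | e <;> simp [e, g2]
        obtain ⟨x, hx, r2⟩ := phase_sound h2 α β γ
        rw [e1, e2] at hx
        refine ⟨x, by simpa [sA, sB, sC] using hx, fun O h => ?_⟩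
        have r1 := runT_sound h1 0 O h
        have r3 := runT_sound h3 _ _ (r2 0 _ (r1.congr (by
          obtain ⟨p1, p2⟩ := p
          cases p2 <;> simp [conc]) rfl))
        rw [e0, e1, e2] at r3
        refine r3.congr (conc_unm hu _ _) ?_
        simp only [List.map_nil, Multiset.coe_nil, add_zero, out, sA, sB, sC, big,
          Multiset.map_singleton, Multiset.sum_singleton, List.map_cons, Multiset.coe_singleton,
          zero_add]
        rw [add_assoc, add_assoc, ← add_assoc (sm a1 b1 c1 n1), sm_add, ← add_assoc (sm _ _ _ _),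
          sm_add]
        congr 3 <;> omega
      · simp at hm
  · simp at hm

def segRun (K : Kd) : List Slot → List ℕ → VW → Option (VW × Cnt × List ℕ)
  | [], s, w => match runT s w with
    | some (w', q, []) => some (w', q, [])
    | _ => none
  | S :: r, s, w => match slotRun K S w with
    | none => none
    | some (w1, (a, b, c, n), t) => match segRun K r s w1 with
      | none => none
      | some (w2, (a', b', c', n'), ts) => some (w2, (a + a', b + b', c + c', n + n'), t :: ts)

theorem segRun_sound {K : Kd} {l : List Slot} {s : List ℕ} {w w' : VW} {a b c n : ℕ} {ts : List ℕ}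
    (hm : segRun K l s w = some (w', (a, b, c, n), ts)) : Seg K w w' ↑ts a b c n := by
  induction l generalizing w a b c n ts with
  | nil =>
    simp only [segRun] at hm
    split at hm
    · rename_i w1 q h1
      simp only [Option.some.injEq, Prod.mk.injEq] at hm
      obtain ⟨rfl, rfl, rfl⟩ := hm
      exact Seg.plain K h1
    · simp at hm
  | cons S r ih =>
    simp only [segRun] at hm
    split at hm
    · simp at hm
    · rename_i w1 a1 b1 c1 n1 t h1
      split at hm
      · simp at hm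
      · rename_i w2 a2 b2 c2 n2 ts2 h2
        simp only [Option.some.injEq, Prod.mk.injEq] at hm
        obtain ⟨rfl, ⟨rfl, rfl, rfl, rfl⟩, rfl⟩ := hm
        exact (slotRun_sound h1).trans (ih h2)

def Full (K : Kd) (hw : VW) (ts : Multiset ℕ) (a b c n : ℕ) : Prop :=
  ∀ M : Multiset (ℕ × Ins), M.map Prod.fst = ts → (∀ p ∈ M, allowed K p.2) →
    ∃ n', n' ≤ n + 6 * sA M + 3 * (sB M + sC M) ∧
      (K.2.1 = false → K.2.2 = false → n' = n + 6 * sA M) ∧
      ∃ O1 O2, Real (conc 0 hw) O1 ∧ (∀ O, Real (conc 0 hw) O → PolyM (O + O2)) ∧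
        O1 + O2 = out M a b c n'

theorem sBC_zero {K : Kd} {M : Multiset (ℕ × Ins)} (hK : ∀ p ∈ M, allowed K p.2)
    (h1 : K.2.1 = false) (h2 : K.2.2 = false) : sB M = 0 ∧ sC M = 0 := by
  constructor
  · refine Multiset.sum_eq_zero (fun x hx => ?_)
    obtain ⟨p, hp, rfl⟩ := Multiset.mem_map.1 hx
    exact (hK p hp).2.1 h1
  · refine Multiset.sum_eq_zero (fun x hx => ?_)
    obtain ⟨p, hp, rfl⟩ := Multiset.mem_map.1 hx
    exact (hK p hp).2.2 h2

theorem Full.group {K : Kd} {hw : VW} {s t : Multiset ℕ} {a b c n a' b' c' n' : ℕ}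
    (h1 : Full K hw s a b c n) (h2 : Seg K hw hw t a' b' c' n') :
    Full K hw (s + t) (a + a') (b + b') (c + c') (n + n') := by
  intro M hM hK
  obtain ⟨M1, M2, rfl, e1, e2⟩ := split_map hM
  have hK2 : ∀ p ∈ M2, allowed K p.2 := fun p hp => hK p (Multiset.mem_add.2 (Or.inr hp))
  obtain ⟨m, hm1, hm2, O1, O2, r1, r2, e⟩ :=
    h1 M1 e1 (fun p hp => hK p (Multiset.mem_add.2 (Or.inl hp)))
  obtain ⟨y, hy, r3⟩ := h2 M2 e2 hK2
  refine ⟨m + (n' + 6 * sA M2 + y), ?_, ?_, _, O2, r3 _ r1, r2, ?_⟩
  · rw [sA_add, sB_add, sC_add]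
    omega
  · intro k1 k2
    have := sBC_zero hK2 k1 k2
    have := hm2 k1 k2
    rw [sA_add]
    omega
  · rw [add_right_comm, e, out_add]

theorem Full.ins {K : Kd} {hw : VW} {s : Multiset ℕ} {t a b c n : ℕ} (α β γ : ℕ)
    (hi : allowed K (α, β, γ)) (h1 : Full K hw (t ::ₘ s) a b c n) :
    Full K hw ((t + (6 * α + 2 * β + γ)) ::ₘ s) (a + 2 * α) (b + β) (c + γ)
      (n + 6 * α + 3 * (β + γ)) := by
  intro M hM hK
  obtain ⟨⟨t', α', β', γ'⟩, hp, e1, e2⟩ := (Multiset.map_eq_cons _ _ _ _).2 hM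
  simp only at e1
  obtain ⟨R, rfl⟩ := Multiset.exists_cons_of_mem hp
  rw [Multiset.erase_cons_head] at e2
  have g := hK _ (Multiset.mem_cons_self _ _)
  obtain ⟨m, hm1, hm2, O1, O2, r1, r2, e⟩ := h1 ((t, α + α', β + β', γ + γ') ::ₘ R) (by simp [e2])
    (by
      intro p hp
      rcases Multiset.mem_cons.1 hp with rfl | hp
      · obtain ⟨g1, g2, g3⟩ := g
        obtain ⟨i1, i2, i3⟩ := hi
        simp only at g1 g2 g3 i1 i2 i3
        exact ⟨fun k => by simp [g1 k, i1 k], fun k => by simp [g2 k, i2 k],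
          fun k => by simp [g3 k, i3 k]⟩
      · exact hK p (Multiset.mem_cons_of_mem hp))
  simp only [sA, sB, sC, Multiset.map_cons, Multiset.sum_cons] at hm1 hm2 ⊢
  refine ⟨m, by omega, ?_, O1, O2, r1, r2, ?_⟩
  · intro k1 k2
    have := hm2 k1 k2
    have i2 := hi.2.1 k1
    have i3 := hi.2.2 k2
    simp only at i2 i3
    omega
  · rw [e]
    simp only [out, sA, sB, sC, big, Multiset.map_cons, Multiset.sum_cons, e1]
    congr 2 <;> omega

def st0 : VW := [(2, false), (2, false), (2, false)]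

abbrev SegD := List Slot × List ℕ

def baseRun (K : Kd) (hw : VW) (d : SegD × SegD) : Option (Cnt × List ℕ) :=
  match segRun K d.1.1 d.1.2 st0 with
  | none => none
  | some (w1, (a, b, c, n), s) =>
    match segRun K d.2.1 d.2.2 hw with
    | none => none
    | some (w2, (a', b', c', n'), t) =>
      match tal ((w2.length, false) :: w2.map inc) with
      | some ((a'', b'', c'', n''), []) =>
        bif w1 == hw then some ((a + a' + a'', b + b' + b'', c + c' + c'', n + n' + n''), s ++ t)
        else none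
      | _ => none

theorem baseRun_sound {K : Kd} {hw : VW} {d : SegD × SegD} {a b c n : ℕ} {ts : List ℕ}
    (hm : baseRun K hw d = some ((a, b, c, n), ts)) : Full K hw ↑ts a b c n := by
  unfold baseRun at hm
  split at hm
  · simp at hm
  · rename_i w1 a1 b1 c1 n1 s h1
    split at hm
    · simp at hm
    · rename_i w2 a2 b2 c2 n2 t h2
      split at hm
      · rename_i a3 b3 c3 n3 h3
        simp only [Bool.cond_eq_ite, beq_iff_eq] at hm
        split_ifs at hm with hc
        simp only [Option.some.injEq, Prod.mk.injEq] at hm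
        obtain ⟨⟨rfl, rfl, rfl, rfl⟩, rfl⟩ := hm
        subst hc
        intro M hM hK
        rw [← Multiset.coe_add] at hM
        obtain ⟨M1, M2, rfl, e1, e2⟩ := split_map hM
        obtain ⟨x, hx, r1⟩ := segRun_sound h1 M1 e1
          (fun p hp => hK p (Multiset.mem_add.2 (Or.inl hp)))
        obtain ⟨y, hy, r2⟩ := segRun_sound h2 M2 e2
          (fun p hp => hK p (Multiset.mem_add.2 (Or.inr hp)))
        have e3 := tal_sound 0 _ _ _ _ _ _ h3
        have e4 : (↑((conc 0 w2).map (· + 1)) : Multiset ℕ) + {(conc 0 w2).length} =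
            sm a3 b3 c3 n3 := by
          rw [← conc_inc]
          simp only [conc, List.map_cons, cond_false, List.map_nil, Multiset.coe_nil, add_zero,
            List.length_map] at e3 ⊢
          rw [← e3, add_comm, Multiset.singleton_add, Multiset.cons_coe]
        refine ⟨n1 + n2 + n3 + 6 * sA (M1 + M2) + (x + y), ?_, ?_, _,
          out M2 a2 b2 c2 (n2 + 6 * sA M2 + y) + sm a3 b3 c3 n3, r1 0 Real.start, ?_, ?_⟩
        · rw [sB_add, sC_add]
          omega
        · intro k1 k2
          have := sBC_zero hK k1 k2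
          rw [sB_add, sC_add] at this
          omega
        · intro O h
          have := (r2 O h).close
          rwa [add_assoc, e4, add_assoc] at this
        · rw [zero_add, ← add_assoc, out_add, sA_add]
          unfold out
          rw [add_right_comm, sm_add]
          congr 2 <;> ring
      · simp at hm

theorem Full.pump {K : Kd} {hw : VW} {ts : Multiset ℕ} {a b c n p : ℕ} (h : Full K hw ts a b c n)
    (hp : Seg K hw hw 0 0 0 0 p) (j : ℕ) : Full K hw ts a b c (n + p * j) := by
  induction j with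
  | zero => simpa using h
  | succ j ih => simpa [Nat.mul_succ, add_assoc] using ih.group hp

theorem Full.poly {K : Kd} {hw : VW} {ts : Multiset ℕ} {a b c n : ℕ} (h : Full K hw ts a b c n) :
    ∃ n' ≤ n, (K.2.1 = false → K.2.2 = false → n' = n) ∧
      ∃ O1 O2, Real (conc 0 hw) O1 ∧ (∀ O, Real (conc 0 hw) O → PolyM (O + O2)) ∧
        O1 + O2 = sm a b c n' + ts.map (6 + ·) := by
  have := h (ts.map (fun t => (t, 0, 0, 0))) (by simp) (by
    intro p hp
    obtain ⟨t, -, rfl⟩ := Multiset.mem_map.1 hp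
    simp [allowed])
  simpa [sA, sB, sC, out, big] using this

theorem Full.exact {K : Kd} {hw : VW} {ts : Multiset ℕ} {a b c n : ℕ} (h : Full K hw ts a b c n)
    (k1 : K.2.1 = false) (k2 : K.2.2 = false) : PolyM (sm a b c n + ts.map (6 + ·)) := by
  obtain ⟨n', -, e, O1, O2, r1, r2, e'⟩ := h.poly
  rw [← e k1 k2, ← e']
  exact r2 _ r1

theorem Full.all {K : Kd} {hw : VW} {ts : Multiset ℕ} {a b c n : ℕ} (h : Full K hw ts a b c n)
    (hp : Seg K hw hw 0 0 0 0 1) {m : ℕ} (hm : n ≤ m) : PolyM (sm a b c m + ts.map (6 + ·)) := by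
  obtain ⟨n', hn, -, O1, O2, r1, r2, e'⟩ := h.poly
  have : ∀ j, Real (conc 0 hw) (O1 + sm 0 0 0 j) := by
    intro j
    induction j with
    | zero => simpa [sm_zero] using r1
    | succ j ih =>
      obtain ⟨x, hx, r⟩ := hp 0 (by simp) (by simp)
      refine (r _ ih).congr rfl ?_
      simp only [sA, sB, sC, out, Multiset.map_zero, Multiset.sum_zero] at hx ⊢
      rw [add_zero, add_assoc, sm_add]
      congr 2
      omega
  have := r2 _ (this (m - n'))
  rw [add_right_comm, e', add_right_comm, sm_add] at this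
  convert this using 3 <;> omega

end Pool.Agent.P.MP_b50a78_co
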